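import Pool.Agent.Helper77.ST.Final

/-!
# SR: a polynomial rate for the Steiner ratio (MP_e46579_co), definitions

`cst = (4 - √2) / √3` and the definitions of `steinerRatio`, `Lev`, `Net` are those of
`Pool.Agent.Helper77.Steiner` (the hand-in RatioLimit).  All functions below are in scaled units:
with `N = √(2 d + 1)` a level of the state `μ` has the coordinate `N √(q j μ μ)`, in `[0, N]`.
-/

set_option autoImplicit false

namespace Pool.Agent.Helper19.SR

open Real Finset MeasureTheory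
open Pool.Agent.Helper77.Steiner

noncomputable section

/-- the size of the excess variance that is used -/
def ch : ℝ := 1 / 20000

/-- the size of the gain -/
def eh : ℝ := 1 / 100000000

/-- the debt -/
def bb (x : ℝ) : ℝ := if 1 ≤ x then 1 / x ^ 2 else max 0 (1 + 2 * (1 - x) - 100 * (1 - x) ^ 2)

/-- the excess variance -/
def ww (x : ℝ) : ℝ := ch * (max 0 (1 - x)) ^ 2

/-- the potential -/
def HH (x : ℝ) : ℝ := x + eh * bb x

/-- the coordinate of a mixture (`k` is the scaled correlation) -/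
def mix (p q x1 x2 k : ℝ) : ℝ := √(p ^ 2 * x1 ^ 2 + q ^ 2 * x2 ^ 2 + 2 * p * q * k)

/-- the gain of a merge -/
def gn (N p q x1 x2 k : ℝ) : ℝ := HH x1 + HH x2 - HH (mix p q x1 x2 k) - (if 0 < k then HH N else 0)

/-- the excess variance created by a merge -/
def om (p q x1 x2 k : ℝ) : ℝ := (ww (mix p q x1 x2 k) - p * ww x1 - q * ww x2) / (p * q)

/-- the energy of a merge -/
def en (p q x1 x2 k : ℝ) : ℝ := x1 ^ 2 + x2 ^ 2 - 2 * k + om p q x1 x2 k

/-- the linear upper bound of the gain -/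
def gl (p q x1 x2 : ℝ) : ℝ := x1 * (1 - p * (√2 / 2)) + x2 * (1 - q * (√2 / 2))

/-- the debt cleared by a merge of disjoint parts -/
def bd (p q x1 x2 : ℝ) : ℝ := bb x1 + bb x2 - bb (mix p q x1 x2 0)

/-- the scale `N` in dimension `d` -/
def NN (d : ℕ) : ℝ := √(2 * d + 1)

/-- centroid of the points `x + ∑_{i ∈ S} h i`, `S ⊆ {0, ..., j - 1}` -/
def cenr {G E : Type} [AddCommGroup G] [NormedAddCommGroup E] [InnerProductSpace ℝ E]
    (v : G → E) (h : ℕ → G) : ℕ → G → E
  | 0, x => v x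
  | j + 1, x => (1 / 2 : ℝ) • (cenr v h j x + cenr v h j (x + h j))

/-- the points `x + ∑_{i ∈ S} h i`, `S ⊆ {0, ..., j - 1}` -/
def pts {G : Type} [AddCommGroup G] (h : ℕ → G) : ℕ → G → Set G
  | 0, x => {x}
  | j + 1, x => pts h j x ∪ pts h j (x + h j)

/-- the upper bound for the length of the tree with `2 ^ J` leaves -/
def treeLen (D : ℕ → ℝ) (J : ℕ) : ℝ :=
  (1 / 2) * (D J / √3 + ∑ j ∈ range J, 2 ^ (J - 1 - j) * (√3 * D j))

section field

variable {F : Type} [Field F]

/-- the quadratic form `u₁² + u₁ u₂ + δ u₂² + t t'` -/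
def Qf (δ : F) (x : F × F × F × F) : F :=
  x.1 ^ 2 + x.1 * x.2.1 + δ * x.2.1 ^ 2 + x.2.2.1 * x.2.2.2

/-- its polar form (characteristic two) -/
def Bf (x y : F × F × F × F) : F :=
  x.1 * y.2.1 + x.2.1 * y.1 + x.2.2.1 * y.2.2.2 + x.2.2.2 * y.2.2.1

/-- the chain of generators of `F⁴` obtained from a basis `e 0, ..., e (k-1)` of `F` -/
def sh (k : ℕ) (e : ℕ → F) (j : ℕ) : F × F × F × F :=
  if j < k then (e j, 0, 0, 0) else if j < 2 * k then (0, e (j - k), 0, 0)
  else if j < 3 * k then (0, 0, e (j - 2 * k), 0) else (0, 0, 0, e (j - 3 * k))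

end field

/-- the bounds for the distances of the centroids -/
def DD (k j : ℕ) : ℝ :=
  if j < 2 * k then √(1 / 2) ^ j else if j < 3 * k then √(1 / 2) ^ j + √2 ^ j / 8 ^ k
  else 2 / 2 ^ k

end

end Pool.Agent.Helper19.SR
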