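import Pool.Agent.Helper19.SR.St

set_option autoImplicit false

namespace Pool.Agent.Helper19.SR

open Real Finset MeasureTheory
open Pool.Agent.Helper77.Steiner

lemma BB_ge {x : ℝ} (h : 1 ≤ x) : bb x = 1 / x ^ 2 := by
  unfold bb
  rw [if_pos h]

/-- the lower part is given by the same formula on `(-∞, 1]` -/
lemma BB_le {x : ℝ} (h : x ≤ 1) : bb x = max 0 (1 + 2 * (1 - x) - 100 * (1 - x) ^ 2) := by
  rcases h.lt_or_eq with h | h
  · unfold bb
    rw [if_neg (not_le.2 h)]
  · subst h
    unfold bb
    norm_num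

lemma BB_nonneg (x : ℝ) : 0 ≤ bb x := by
  unfold bb
  split_ifs
  · positivity
  · exact le_max_left _ _

/-- Lipschitz on the upper part -/
lemma BB_lip_ge {x y : ℝ} (hx : 1 ≤ x) (hy : 1 ≤ y) : |bb x - bb y| ≤ 22 * |x - y| := by
  rw [BB_ge hx, BB_ge hy]
  have hx0 : 0 < x := by linarith
  have hy0 : 0 < y := by linarith
  have e : 1 / x ^ 2 - 1 / y ^ 2 = ((x + y) / (x ^ 2 * y ^ 2)) * (y - x) := by
    field_simp
    ring
  rw [e, abs_mul, abs_sub_comm y x]
  apply mul_le_mul_of_nonneg_right _ (abs_nonneg _)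
  rw [abs_of_nonneg (by positivity), div_le_iff₀ (by positivity)]
  have h1 : 1 ≤ x * y := by nlinarith
  have h2 : x ≤ x ^ 2 * y ^ 2 := by nlinarith [mul_le_mul_of_nonneg_left h1 (by positivity : (0:ℝ) ≤ x * y), mul_le_mul_of_nonneg_left hy hx0.le]
  have h3 : y ≤ x ^ 2 * y ^ 2 := by nlinarith [mul_le_mul_of_nonneg_left h1 (by positivity : (0:ℝ) ≤ x * y), mul_le_mul_of_nonneg_left hx hy0.le]
  nlinarith

/-- Lipschitz on the lower part, for ordered points -/
lemma BB_lip_le {x y : ℝ} (hxy : x ≤ y) (hy : y ≤ 1) : |bb x - bb y| ≤ 22 * (y - x) := by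
  have hx : x ≤ 1 := by linarith
  rw [BB_le hx, BB_le hy]
  set f : ℝ → ℝ := fun x => 1 + 2 * (1 - x) - 100 * (1 - x) ^ 2 with hf
  have hdiff : f x - f y = (y - x) * (2 - 100 * ((1 - x) + (1 - y))) := by
    simp only [hf]
    ring
  have e1 : ∀ z, 1 + 2 * (1 - z) - 100 * (1 - z) ^ 2 = f z := fun z => rfl
  rw [e1, e1]
  have h0 : 0 ≤ y - x := by linarith
  rcases le_total (f y) 0 with hy0 | hy0
  · -- then y is below the zero, and so is x
    have hyy : y ≤ 9 / 10 := by
      by_contra hcon
      rw [not_le] at hcon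
      have : 0 < f y := by
        simp only [hf]
        nlinarith
      linarith
    have hx0 : f x ≤ 0 := by
      have : f x - f y ≤ 0 := by
        rw [hdiff]
        nlinarith
      linarith
    rw [max_eq_left hy0, max_eq_left hx0]
    simp
    linarith
  · have hyy : 22 / 25 ≤ y := by
      by_contra hcon
      rw [not_le] at hcon
      have : f y < 0 := by
        simp only [hf]
        nlinarith
      linarith
    rw [max_eq_right hy0]
    rcases le_total (f x) 0 with hx0 | hx0
    · rw [max_eq_left hx0]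
      -- |0 - f y| = f y
      have : f y ≤ 22 * (y - x) := by
        -- the zero of `f` is between
        simp only [hf] at *
        by_cases hxx : 22 / 25 ≤ x
        · nlinarith
        · rw [not_le] at hxx
          nlinarith [mul_nonneg (by linarith : (0:ℝ) ≤ y - 22 / 25) (by linarith : (0:ℝ) ≤ 1 - y)]
      rw [abs_sub_comm, sub_zero, abs_of_nonneg hy0]
      exact this
    · have hxx : 22 / 25 ≤ x := by
        by_contra hcon
        rw [not_le] at hcon
        have : f x < 0 := by
          simp only [hf]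
          nlinarith
        linarith
      rw [max_eq_right hx0, hdiff, abs_mul, abs_of_nonneg h0, mul_comm]
      apply mul_le_mul_of_nonneg_right _ h0
      rw [abs_le]
      constructor <;> linarith

lemma BB_lip' {x y : ℝ} (hxy : x ≤ y) : |bb x - bb y| ≤ 22 * |x - y| := by
  rw [abs_sub_comm x y, abs_of_nonneg (by linarith : 0 ≤ y - x)]
  rcases le_total y 1 with hy | hy
  · exact BB_lip_le hxy hy
  · rcases le_total x 1 with hx | hx
    · have h1 := BB_lip_le hx le_rfl
      have h2 := BB_lip_ge le_rfl hy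
      rw [abs_sub_comm 1 y, abs_of_nonneg (by linarith : 0 ≤ y - 1)] at h2
      calc |bb x - bb y| ≤ |bb x - bb 1| + |bb 1 - bb y| := abs_sub_le _ _ _
        _ ≤ 22 * (1 - x) + 22 * (y - 1) := add_le_add h1 h2
        _ = _ := by ring
    · have h := BB_lip_ge hx hy
      rw [abs_sub_comm x y, abs_of_nonneg (by linarith : 0 ≤ y - x)] at h
      exact h

theorem hBB : StBB := by
  have hle1 : ∀ x, x ≤ 1 → 1 + 2 * (1 - x) - 100 * (1 - x) ^ 2 ≤ bb x := by
    intro x hx
    rw [BB_le hx]
    exact le_max_right _ _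
  refine ⟨BB_nonneg, ?_, ?_, ?_, ?_, ?_, hle1⟩
  · intro x
    rcases le_total x 1 with h | h
    · rw [BB_le h]
      apply max_le (by norm_num)
      nlinarith [sq_nonneg (1 - x - 1 / 100)]
    · rw [BB_ge h, div_le_iff₀ (by positivity)]
      nlinarith
  · intro x hx0
    rcases le_total x 1 with h | h
    · rw [BB_le h]
      apply max_le (by linarith)
      nlinarith [sq_nonneg (1 - x - 1 / 50)]
    · rw [BB_ge h, div_le_iff₀ (by positivity)]
      nlinarith
  · intro x hx
    rw [BB_le (by linarith)]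
    apply max_eq_left
    nlinarith
  · intro x y
    rcases le_total x y with h | h
    · exact BB_lip' h
    · rw [abs_sub_comm, abs_sub_comm x y]
      exact BB_lip' h
  · intro x y hx hxy
    rw [BB_ge hx, BB_ge (hx.trans hxy)]
    apply one_div_le_one_div_of_le (by positivity)
    exact pow_le_pow_left₀ (by linarith) hxy 2

end Pool.Agent.Helper19.SR
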