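import Pool.Agent.Helper19.SR.St

/-!
# SR, module Bas: a basis over the field with two elements
-/

set_option autoImplicit false

namespace Pool.Agent.Helper19.SR

open Real Finset MeasureTheory
open Pool.Agent.Helper77.Steiner

private theorem Bas_z : ∀ z : ZMod 2, z ≠ 0 → 1 = z := by decide

theorem hBas : StBas := by
  intro k F _ _ _ _ hcard
  let _ : Algebra (ZMod 2) F := ZMod.algebra F 2
  have : Fact (Nat.Prime 2) := ⟨Nat.prime_two⟩
  have hfin : Module.finrank (ZMod 2) F = k := by
    have h := Module.card_eq_pow_finrank (K := ZMod 2) (V := F)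
    rw [hcard, ZMod.card] at h
    exact (Nat.pow_right_injective (le_refl 2) h).symm
  let b : Module.Basis (Fin k) (ZMod 2) F := Module.finBasisOfFinrankEq (ZMod 2) F hfin
  let e : ℕ → F := fun i => if h : i < k then b ⟨i, h⟩ else 0
  have hA : ∀ S : Finset ℕ, S ⊆ range k →
      ∑ i ∈ S, e i = b.equivFun.symm (fun j : Fin k => if (j : ℕ) ∈ S then (1 : ZMod 2) else 0) := by
    intro S hS
    rw [b.equivFun_symm_apply]
    have h1 : ∑ i ∈ S, e i = ∑ i ∈ range k, if i ∈ S then e i else 0 := by
      rw [← Finset.sum_filter]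
      congr 1
      ext i
      simp only [Finset.mem_filter]
      exact ⟨fun h => ⟨hS h, h⟩, fun h => h.2⟩
    rw [h1, Finset.sum_range]
    apply Finset.sum_congr rfl
    intro j _
    split_ifs with h2
    · rw [one_smul]
      simp only [e, j.2, dif_pos]
    · rw [zero_smul]
  refine ⟨e, ?_, ?_⟩
  · intro S T hS hT h
    rw [hA S hS, hA T hT] at h
    have h2 := b.equivFun.symm.injective h
    ext i
    by_cases hi : i < k
    · have h3 := congrFun h2 ⟨i, hi⟩
      simp only at h3
      by_cases h4 : i ∈ S <;> by_cases h5 : i ∈ T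
      · exact ⟨fun _ => h5, fun _ => h4⟩
      · rw [if_pos h4, if_neg h5] at h3
        exact absurd h3 one_ne_zero
      · rw [if_neg h4, if_pos h5] at h3
        exact absurd h3.symm one_ne_zero
      · exact ⟨fun h => absurd h h4, fun h => absurd h h5⟩
    · constructor
      · intro h4
        exact absurd (Finset.mem_range.1 (hS h4)) hi
      · intro h4
        exact absurd (Finset.mem_range.1 (hT h4)) hi
  · intro x
    classical
    refine ⟨(range k).filter (fun i => ∃ h : i < k, b.equivFun x ⟨i, h⟩ ≠ 0),
      Finset.filter_subset _ _, ?_⟩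
    rw [hA _ (Finset.filter_subset _ _)]
    rw [LinearEquiv.symm_apply_eq]
    funext j
    simp only [Finset.mem_filter, Finset.mem_range, j.2, true_and]
    by_cases h : b.equivFun x j = 0
    · rw [if_neg, h]
      rintro ⟨_, h2⟩
      exact h2 h
    · rw [if_pos ⟨trivial, h⟩]
      exact Bas_z _ h

end Pool.Agent.Helper19.SR
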