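import Pool.Agent.Helper19.SR.St

/-!
# Project SR: module Cen (distances of centroids)
-/

set_option autoImplicit false

namespace Pool.Agent.Helper19.SR

open Real Finset

private theorem Cen_two {ι E : Type*} [NormedAddCommGroup E] [InnerProductSpace ℝ E] (P : Finset ι)
    (b c : ι → E) : ∑ i ∈ P, ∑ k ∈ P, ‖b i - c k‖ ^ 2 =
      P.card * ∑ i ∈ P, ‖b i‖ ^ 2 + P.card * ∑ i ∈ P, ‖c i‖ ^ 2 -
        2 * inner ℝ (∑ i ∈ P, b i) (∑ i ∈ P, c i) := by
  have h : ∀ i ∈ P, ∑ k ∈ P, ‖b i - c k‖ ^ 2 =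
      P.card * ‖b i‖ ^ 2 + ∑ k ∈ P, ‖c k‖ ^ 2 - 2 * inner ℝ (b i) (∑ k ∈ P, c k) := by
    intro i _
    rw [inner_sum, Finset.mul_sum]
    simp only [norm_sub_sq_real, Finset.sum_add_distrib, Finset.sum_sub_distrib, Finset.sum_const, nsmul_eq_mul]
    ring
  rw [Finset.sum_congr rfl h, sum_inner, Finset.mul_sum]
  simp only [Finset.sum_add_distrib, Finset.sum_sub_distrib, Finset.sum_const, nsmul_eq_mul, Finset.mul_sum]

private theorem Cen_exp {ι E : Type*} [NormedAddCommGroup E] [InnerProductSpace ℝ E] (P : Finset ι)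
    (b c : ι → E) : ‖∑ i ∈ P, b i - ∑ i ∈ P, c i‖ ^ 2 =
      ∑ i ∈ P, ∑ k ∈ P, ‖b i - c k‖ ^ 2 - (1 / 2) * ∑ i ∈ P, ∑ k ∈ P, ‖b i - b k‖ ^ 2 -
        (1 / 2) * ∑ i ∈ P, ∑ k ∈ P, ‖c i - c k‖ ^ 2 := by
  rw [Cen_two, Cen_two, Cen_two, norm_sub_sq_real, real_inner_self_eq_norm_sq, real_inner_self_eq_norm_sq]
  ring

private theorem Cen_symm {G : Type*} [AddCommGroup G] (hG : ∀ x : G, x + x = 0) (h : ℕ → G) (S T : Finset ℕ) :
    ∑ i ∈ symmDiff S T, h i = ∑ i ∈ S, h i + ∑ i ∈ T, h i := by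
  have h1 : symmDiff S T = (S \ T) ∪ (T \ S) := rfl
  have hd : Disjoint (S \ T) (T \ S) := by
    rw [Finset.disjoint_left]
    intro a ha hb
    rw [Finset.mem_sdiff] at ha hb
    exact ha.2 hb.1
  rw [h1, Finset.sum_union hd]
  have e1 := Finset.sum_inter_add_sum_sdiff S T h
  have e2 := Finset.sum_inter_add_sum_sdiff T S h
  rw [Finset.inter_comm T S] at e2
  rw [← e1, ← e2]
  have e3 := hG (∑ i ∈ S ∩ T, h i)
  calc ∑ i ∈ S \ T, h i + ∑ i ∈ T \ S, h i = ∑ i ∈ S \ T, h i + ∑ i ∈ T \ S, h i +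
        (∑ i ∈ S ∩ T, h i + ∑ i ∈ S ∩ T, h i) := by rw [e3, add_zero]
    _ = _ := by abel

private theorem Cen_formula {E G : Type} [NormedAddCommGroup E] [InnerProductSpace ℝ E] [AddCommGroup G]
    (v : G → E) (h : ℕ → G) (j : ℕ) : ∀ x : G, cenr v h j x =
      ((1 / 2 : ℝ) ^ j) • ∑ S ∈ (range j).powerset, v (x + ∑ i ∈ S, h i) := by
  induction j with
  | zero => intro x; simp [cenr]
  | succ j ih =>
      intro x
      rw [cenr, ih, ih, Finset.range_add_one, Finset.sum_powerset_insert Finset.notMem_range_self,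
        ← smul_add, smul_smul]
      congr 1
      · rw [pow_succ]; ring
      · congr 1
        refine Finset.sum_congr rfl fun S hS => ?_
        have hj : j ∉ S := fun hj => by
          have := (Finset.mem_powerset.1 hS) hj
          exact Finset.notMem_range_self this
        rw [Finset.sum_insert hj, ← add_assoc]

theorem hCen : StCen := by
  intro E G _ _ _ _ iso _ v h Δ j hΔ hG hv1 hv2 hv3 hinj x
  set P := (range j).powerset with hP
  have hPc : (P.card : ℝ) = 2 ^ j := by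
    rw [hP, Finset.card_powerset, Finset.card_range]
    push_cast
    rfl
  set b : Finset ℕ → E := fun S => v (x + ∑ i ∈ S, h i) with hb
  set c : Finset ℕ → E := fun S => v (x + h j + ∑ i ∈ S, h i) with hc
  set N : ℝ := (((range j).powerset.filter fun S => iso (h j + ∑ i ∈ S, h i)).card : ℝ) with hN
  have hform : cenr v h j x - cenr v h j (x + h j) =
      ((1 / 2 : ℝ) ^ j) • (∑ S ∈ P, b S - ∑ S ∈ P, c S) := by
    rw [Cen_formula, Cen_formula, smul_sub]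
  -- cross terms
  have hcross : ∀ S ∈ P, ∑ T ∈ P, ‖b S - c T‖ ^ 2 ≤ 2 ^ j + Δ * N := by
    intro S hS
    have h1 : ∀ T ∈ P, ‖b S - c T‖ ^ 2 ≤ 1 + Δ * (if iso (h j + ∑ i ∈ symmDiff S T, h i) then 1 else 0) := by
      intro T _
      have e : (x + ∑ i ∈ S, h i) + (x + h j + ∑ i ∈ T, h i) = h j + ∑ i ∈ symmDiff S T, h i := by
        rw [Cen_symm hG]
        calc (x + ∑ i ∈ S, h i) + (x + h j + ∑ i ∈ T, h i) =
            (x + x) + (h j + (∑ i ∈ S, h i + ∑ i ∈ T, h i)) := by abel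
          _ = _ := by rw [hG, zero_add]
      split_ifs with hi
      · rw [mul_one]; exact hv3 _ _
      · rw [mul_zero, add_zero]
        apply hv2
        rw [e]
        exact hi
    refine le_trans (Finset.sum_le_sum h1) ?_
    rw [Finset.sum_add_distrib, Finset.sum_const, nsmul_eq_mul, mul_one, hPc, ← Finset.mul_sum]
    have h2 : ∑ T ∈ P, (if iso (h j + ∑ i ∈ symmDiff S T, h i) then (1 : ℝ) else 0) =
        ∑ U ∈ P, (if iso (h j + ∑ i ∈ U, h i) then (1 : ℝ) else 0) := by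
      refine Finset.sum_nbij' (fun T => symmDiff S T) (fun U => symmDiff S U) ?_ ?_ ?_ ?_ ?_
      · intro T hT
        rw [hP, Finset.mem_powerset] at hS hT ⊢
        intro a ha
        rw [Finset.mem_symmDiff] at ha
        rcases ha with ha | ha
        · exact hS ha.1
        · exact hT ha.1
      · intro T hT
        rw [hP, Finset.mem_powerset] at hS hT ⊢
        intro a ha
        rw [Finset.mem_symmDiff] at ha
        rcases ha with ha | ha
        · exact hS ha.1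
        · exact hT ha.1
      · intro T _; exact symmDiff_symmDiff_cancel_left S T
      · intro T _; exact symmDiff_symmDiff_cancel_left S T
      · intro T _; rfl
    rw [h2, ← Finset.sum_filter, Finset.sum_const, nsmul_eq_mul, mul_one]
  have hself : ∀ (w : G) (S : Finset ℕ), S ∈ P →
      (2 : ℝ) ^ j - 1 ≤ ∑ T ∈ P, ‖v (w + ∑ i ∈ S, h i) - v (w + ∑ i ∈ T, h i)‖ ^ 2 := by
    intro w S hS
    rw [← Finset.add_sum_erase P _ hS]
    have h1 : ∀ T ∈ P.erase S, (1 : ℝ) ≤ ‖v (w + ∑ i ∈ S, h i) - v (w + ∑ i ∈ T, h i)‖ ^ 2 := by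
      intro T hT
      rw [Finset.mem_erase] at hT
      apply hv1
      intro he
      have he' := add_left_cancel he
      exact hT.1 (hinj S T (Finset.mem_powerset.1 hS) (Finset.mem_powerset.1 hT.2) he').symm
    have h2 := Finset.sum_le_sum h1
    rw [Finset.sum_const, nsmul_eq_mul, mul_one, Finset.card_erase_of_mem hS] at h2
    have h3 : 1 ≤ P.card := Finset.card_pos.2 ⟨S, hS⟩
    rw [Nat.cast_sub h3, hPc] at h2
    have h4 : 0 ≤ ‖v (w + ∑ i ∈ S, h i) - v (w + ∑ i ∈ S, h i)‖ ^ 2 := by positivity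
    push_cast at h2
    linarith
  have t1 : ∑ S ∈ P, ∑ T ∈ P, ‖b S - c T‖ ^ 2 ≤ 2 ^ j * (2 ^ j + Δ * N) := by
    refine le_trans (Finset.sum_le_sum hcross) ?_
    rw [Finset.sum_const, nsmul_eq_mul, hPc]
  have t2 : (2 : ℝ) ^ j * (2 ^ j - 1) ≤ ∑ S ∈ P, ∑ T ∈ P, ‖b S - b T‖ ^ 2 := by
    refine le_trans ?_ (Finset.sum_le_sum fun S hS => hself x S hS)
    rw [Finset.sum_const, nsmul_eq_mul, hPc]
  have t3 : (2 : ℝ) ^ j * (2 ^ j - 1) ≤ ∑ S ∈ P, ∑ T ∈ P, ‖c S - c T‖ ^ 2 := by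
    refine le_trans ?_ (Finset.sum_le_sum fun S hS => hself (x + h j) S hS)
    rw [Finset.sum_const, nsmul_eq_mul, hPc]
  have t4 : ‖∑ S ∈ P, b S - ∑ S ∈ P, c S‖ ^ 2 ≤ 2 ^ j * (1 + Δ * N) := by
    rw [Cen_exp]
    linarith
  rw [hform, norm_smul, mul_pow, norm_pow, Real.norm_of_nonneg (by norm_num : (0 : ℝ) ≤ 1 / 2)]
  have t5 : (((1 : ℝ) / 2) ^ j) ^ 2 * ‖∑ S ∈ P, b S - ∑ S ∈ P, c S‖ ^ 2 ≤
      (((1 : ℝ) / 2) ^ j) ^ 2 * (2 ^ j * (1 + Δ * N)) := mul_le_mul_of_nonneg_left t4 (by positivity)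
  refine le_trans t5 (le_of_eq ?_)
  have e : ((1 : ℝ) / 2) ^ j * 2 ^ j = 1 := by rw [← mul_pow]; norm_num
  calc (((1 : ℝ) / 2) ^ j) ^ 2 * (2 ^ j * (1 + Δ * N)) =
      ((1 : ℝ) / 2) ^ j * (((1 : ℝ) / 2) ^ j * 2 ^ j) * (1 + Δ * N) := by ring
    _ = (1 / 2) ^ j * (1 + Δ * N) := by rw [e, mul_one]

end Pool.Agent.Helper19.SR
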