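import Pool.Agent.Helper19.SR.St

set_option autoImplicit false

namespace Pool.Agent.Helper19.SR

/-- the inequality for `p ≥ 1/2` -/
theorem Cl_half (hBB : StBB) {N p q y1 y2 m : ℝ} (hN : 2236 / 1000 ≤ N) (hp : 1 / 2 ≤ p) (hq : 0 < q)
    (hpq : p + q = 1) (hy1 : 0 ≤ y1) (h1 : y1 ≤ N) (h2 : y2 ≤ N)
    (hm1 : p * y1 ≤ m) (hm2 : m ≤ p * y1 + q * y2) :
    eh * (bb y1 + bb y2 - bb m - bb N) ≤ q * (N - y1) + p * (N - y2) := by
  obtain ⟨-, -, -, -, hL, hM, -⟩ := hBB
  have hp1 : p = 1 - q := by linarith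
  have ha : 0 ≤ q * (N - y1) := mul_nonneg hq.le (by linarith)
  have hb : 0 ≤ N - y2 := by linarith
  have hbp : 1 / 2 * (N - y2) ≤ p * (N - y2) := mul_le_mul_of_nonneg_right hp hb
  have hN2 : bb y2 - bb N ≤ 22 * (N - y2) := by
    have h3 := (le_abs_self _).trans (hL y2 N)
    rw [abs_sub_comm, abs_of_nonneg hb] at h3
    exact h3
  have hX : p * y1 + q * y2 - y1 = q * (y2 - y1) := by rw [hp1]; ring
  have hqb : q * (N - y2) ≤ N - y2 := by
    have : q ≤ 1 := by linarith
    exact mul_le_of_le_one_left hb this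
  have hq1 : q * (y2 - y1) ≤ q * (N - y1) := mul_le_mul_of_nonneg_left (by linarith) hq.le
  rcases le_or_gt 1 m with hm | hm
  · have h3 : bb (p * y1 + q * y2) ≤ bb m := hM m _ hm hm2
    have h4 := (le_abs_self _).trans (hL y1 (p * y1 + q * y2))
    have h5 : |y1 - (p * y1 + q * y2)| ≤ q * (N - y1) + q * (N - y2) := by
      rw [abs_sub_comm, hX, abs_le]
      constructor
      · have : q * (y1 - y2) ≤ q * (N - y2) := mul_le_mul_of_nonneg_left (by linarith) hq.le
        nlinarith
      · have : 0 ≤ q * (N - y2) := mul_nonneg hq.le hb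
        linarith
    unfold eh
    linarith
  · have hy2 : y1 ≤ 2 := by
      have : 1 / 2 * y1 ≤ p * y1 := mul_le_mul_of_nonneg_right hp hy1
      linarith
    have h3 : 2 * q ≤ 9 * (q * (N - y1)) := by
      have : 2 ≤ 9 * (N - y1) := by linarith
      have := mul_le_mul_of_nonneg_left this hq.le
      linarith
    have h4 := (le_abs_self _).trans (hL y1 m)
    have h5 : |y1 - m| ≤ 9 * (q * (N - y1)) := by
      rw [abs_le]
      constructor
      · linarith
      · have h6 : q * y1 ≤ q * 2 := mul_le_mul_of_nonneg_left hy2 hq.le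
        have h7 : p * y1 = y1 - q * y1 := by rw [hp1]; ring
        linarith
    unfold eh
    linarith

theorem hCl (hBB : StBB) : StCl := by
  intro N p q y1 y2 k hN5 hN0 hp hq hpq hy1 hy2 h1 h2 hk hk1
  have hN : 2236 / 1000 ≤ N := by
    by_contra h
    push Not at h
    nlinarith
  have hpq0 : 0 < p * q := mul_pos hp hq
  have hX0 : 0 ≤ p * y1 + q * y2 := by positivity
  have hm1 : p * y1 ≤ mix p q y1 y2 k := by
    unfold mix
    refine Real.le_sqrt_of_sq_le ?_
    have : 0 ≤ q ^ 2 * y2 ^ 2 := by positivity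
    have : 0 ≤ 2 * p * q * k := by positivity
    nlinarith
  have hm2 : q * y2 ≤ mix p q y1 y2 k := by
    unfold mix
    refine Real.le_sqrt_of_sq_le ?_
    have : 0 ≤ p ^ 2 * y1 ^ 2 := by positivity
    have : 0 ≤ 2 * p * q * k := by positivity
    nlinarith
  have hm3 : mix p q y1 y2 k ≤ p * y1 + q * y2 := by
    unfold mix
    rw [Real.sqrt_le_left hX0]
    have : p * q * k ≤ p * q * (y1 * y2) := mul_le_mul_of_nonneg_left hk1 hpq0.le
    nlinarith
  have key : eh * (bb y1 + bb y2 - bb (mix p q y1 y2 k) - bb N) ≤ q * (N - y1) + p * (N - y2) := by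
    rcases le_or_gt (1 / 2) p with hp2 | hp2
    · exact Cl_half hBB hN hp2 hq hpq hy1 h1 h2 hm1 hm3
    · have hq2 : 1 / 2 ≤ q := by linarith
      have h3 := Cl_half hBB hN hq2 hp (by linarith) hy2 h2 h1 hm2 (by linarith)
      have e : bb y2 + bb y1 - bb (mix p q y1 y2 k) - bb N =
          bb y1 + bb y2 - bb (mix p q y1 y2 k) - bb N := by ring
      rw [e] at h3
      linarith
  unfold gn HH
  rw [if_pos hk]
  have e : q * (N - y1) + p * (N - y2) = p * y1 + q * y2 - (y1 + y2) + N := by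
    have : q = 1 - p := by linarith
    rw [this]
    ring
  rw [e] at key
  linarith

end Pool.Agent.Helper19.SR
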