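import Pool.Agent.Helper19.SR.St

/-!
# SR, module CntA: injectivity and surjectivity of the chain in `F⁴`
-/

set_option autoImplicit false

namespace Pool.Agent.Helper19.SR

open Real Finset MeasureTheory
open Pool.Agent.Helper77.Steiner

/-- the translated part number `q` of `S` -/
private def CntA_part (k q : ℕ) (S : Finset ℕ) : Finset ℕ :=
  (range k).filter (fun i => q * k + i ∈ S)

private theorem CntA_block {F : Type} [AddCommMonoid F] (k q : ℕ) (S : Finset ℕ) (g : ℕ → F) :
    ∑ i ∈ range k, (if q * k + i ∈ S then g i else 0) = ∑ i ∈ CntA_part k q S, g i := by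
  unfold CntA_part
  rw [Finset.sum_filter]

private theorem CntA_sum {F : Type} [Field F] (k : ℕ) (e : ℕ → F) (S : Finset ℕ)
    (hS : S ⊆ range (4 * k)) : ∑ i ∈ S, sh k e i =
      (∑ i ∈ CntA_part k 0 S, e i, ∑ i ∈ CntA_part k 1 S, e i, ∑ i ∈ CntA_part k 2 S, e i,
        ∑ i ∈ CntA_part k 3 S, e i) := by
  have h1 : ∑ i ∈ S, sh k e i = ∑ i ∈ range (4 * k), if i ∈ S then sh k e i else 0 := by
    rw [← Finset.sum_filter]
    congr 1
    ext i
    simp only [Finset.mem_filter]
    exact ⟨fun h => ⟨hS h, h⟩, fun h => h.2⟩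
  have h4 : 4 * k = k + k + k + k := by ring
  rw [h1, h4, Finset.sum_range_add, Finset.sum_range_add, Finset.sum_range_add]
  have b0 : ∑ i ∈ range k, (if i ∈ S then sh k e i else 0)
      = ∑ i ∈ CntA_part k 0 S, ((e i, 0, 0, 0) : F × F × F × F) := by
    rw [← CntA_block]
    apply Finset.sum_congr rfl
    intro i hi
    have hi' := Finset.mem_range.1 hi
    have e1 : 0 * k + i = i := by ring
    rw [e1]
    split_ifs with h
    · unfold sh
      rw [if_pos hi']
    · rfl
  have b1 : ∑ i ∈ range k, (if k + i ∈ S then sh k e (k + i) else 0)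
      = ∑ i ∈ CntA_part k 1 S, ((0, e i, 0, 0) : F × F × F × F) := by
    rw [← CntA_block]
    apply Finset.sum_congr rfl
    intro i hi
    have hi' := Finset.mem_range.1 hi
    have e1 : 1 * k + i = k + i := by ring
    rw [e1]
    split_ifs with h
    · unfold sh
      rw [if_neg (by omega), if_pos (by omega), Nat.add_sub_cancel_left]
    · rfl
  have b2 : ∑ i ∈ range k, (if k + k + i ∈ S then sh k e (k + k + i) else 0)
      = ∑ i ∈ CntA_part k 2 S, ((0, 0, e i, 0) : F × F × F × F) := by
    rw [← CntA_block]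
    apply Finset.sum_congr rfl
    intro i hi
    have hi' := Finset.mem_range.1 hi
    have e1 : 2 * k + i = k + k + i := by ring
    rw [e1]
    split_ifs with h
    · unfold sh
      have e2 : k + k + i - 2 * k = i := by omega
      rw [if_neg (by omega), if_neg (by omega), if_pos (by omega), e2]
    · rfl
  have b3 : ∑ i ∈ range k, (if k + k + k + i ∈ S then sh k e (k + k + k + i) else 0)
      = ∑ i ∈ CntA_part k 3 S, ((0, 0, 0, e i) : F × F × F × F) := by
    rw [← CntA_block]
    apply Finset.sum_congr rfl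
    intro i hi
    have hi' := Finset.mem_range.1 hi
    have e1 : 3 * k + i = k + k + k + i := by ring
    rw [e1]
    split_ifs with h
    · unfold sh
      have e2 : k + k + k + i - 3 * k = i := by omega
      rw [if_neg (by omega), if_neg (by omega), if_neg (by omega), e2]
    · rfl
  rw [b0, b1, b2, b3]
  refine Prod.ext ?_ (Prod.ext ?_ (Prod.ext ?_ ?_))
  · simp [Prod.fst_sum, Prod.snd_sum]
  · simp [Prod.fst_sum, Prod.snd_sum]
  · simp [Prod.fst_sum, Prod.snd_sum]
  · simp [Prod.fst_sum, Prod.snd_sum]

private theorem CntA_sub (k q : ℕ) (S : Finset ℕ) : CntA_part k q S ⊆ range k :=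
  Finset.filter_subset _ _

private theorem CntA_mem {k q : ℕ} {S : Finset ℕ} {i : ℕ} (hi : i < k) :
    i ∈ CntA_part k q S ↔ q * k + i ∈ S := by
  unfold CntA_part
  rw [Finset.mem_filter, Finset.mem_range]
  exact ⟨fun h => h.2, fun h => ⟨hi, h⟩⟩

private theorem CntA_ext (k : ℕ) (S T : Finset ℕ) (hS : S ⊆ range (4 * k))
    (hT : T ⊆ range (4 * k)) (h0 : CntA_part k 0 S = CntA_part k 0 T)
    (h1 : CntA_part k 1 S = CntA_part k 1 T) (h2 : CntA_part k 2 S = CntA_part k 2 T)
    (h3 : CntA_part k 3 S = CntA_part k 3 T) : S = T := by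
  have key : ∀ q : ℕ, CntA_part k q S = CntA_part k q T → ∀ i < k, (q * k + i ∈ S ↔ q * k + i ∈ T) := by
    intro q hq i hi
    rw [← CntA_mem hi, ← CntA_mem hi, hq]
  ext i
  by_cases hi : i < 4 * k
  · rcases lt_or_ge i k with c0 | c0
    · have := key 0 h0 i c0
      rwa [Nat.zero_mul, Nat.zero_add] at this
    rcases lt_or_ge i (2 * k) with c1 | c1
    · have := key 1 h1 (i - k) (by omega)
      have e : 1 * k + (i - k) = i := by omega
      rwa [e] at this
    rcases lt_or_ge i (3 * k) with c2 | c2
    · have := key 2 h2 (i - 2 * k) (by omega)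
      have e : 2 * k + (i - 2 * k) = i := by omega
      rwa [e] at this
    · have := key 3 h3 (i - 3 * k) (by omega)
      have e : 3 * k + (i - 3 * k) = i := by omega
      rwa [e] at this
  · constructor
    · intro h
      exact absurd (Finset.mem_range.1 (hS h)) hi
    · intro h
      exact absurd (Finset.mem_range.1 (hT h)) hi

private theorem CntA_pts {G : Type} [AddCommGroup G] (h : ℕ → G) : ∀ (J : ℕ) (x : G)
    (S : Finset ℕ), S ⊆ range J → x + ∑ i ∈ S, h i ∈ pts h J x := by
  intro J
  induction J with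
  | zero =>
    intro x S hS
    rw [Finset.range_zero, Finset.subset_empty] at hS
    rw [hS, Finset.sum_empty, add_zero]
    exact Set.mem_singleton x
  | succ J ih =>
    intro x S hS
    by_cases hJ : J ∈ S
    · right
      have hS' : S.erase J ⊆ range J := by
        intro i hi
        have h1 := Finset.mem_range.1 (hS (Finset.mem_of_mem_erase hi))
        have h2 := Finset.ne_of_mem_erase hi
        exact Finset.mem_range.2 (by omega)
      have h1 := ih (x + h J) (S.erase J) hS'
      rw [add_assoc, Finset.add_sum_erase S h hJ] at h1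
      exact h1
    · left
      apply ih
      intro i hi
      have h1 := Finset.mem_range.1 (hS hi)
      have h2 : i ≠ J := fun h => hJ (h ▸ hi)
      exact Finset.mem_range.2 (by omega)

theorem hCntA : StCntA := by
  intro k F _ _ _ _ e hinj hsur
  refine ⟨?_, ?_⟩
  · intro S T hS hT h
    rw [CntA_sum k e S hS, CntA_sum k e T hT, Prod.mk.injEq, Prod.mk.injEq, Prod.mk.injEq] at h
    obtain ⟨h0, h1, h2, h3⟩ := h
    exact CntA_ext k S T hS hT (hinj _ _ (CntA_sub _ _ _) (CntA_sub _ _ _) h0)
      (hinj _ _ (CntA_sub _ _ _) (CntA_sub _ _ _) h1)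
      (hinj _ _ (CntA_sub _ _ _) (CntA_sub _ _ _) h2)
      (hinj _ _ (CntA_sub _ _ _) (CntA_sub _ _ _) h3)
  · rintro ⟨a, b, c, d⟩
    obtain ⟨Sa, ha, ha'⟩ := hsur a
    obtain ⟨Sb, hb, hb'⟩ := hsur b
    obtain ⟨Sc, hc, hc'⟩ := hsur c
    obtain ⟨Sd, hd, hd'⟩ := hsur d
    set S : Finset ℕ := (range (4 * k)).filter (fun i => (i < k ∧ i ∈ Sa) ∨
      (k ≤ i ∧ i < 2 * k ∧ i - k ∈ Sb) ∨ (2 * k ≤ i ∧ i < 3 * k ∧ i - 2 * k ∈ Sc) ∨
      (3 * k ≤ i ∧ i - 3 * k ∈ Sd)) with hSdef
    have hS : S ⊆ range (4 * k) := Finset.filter_subset _ _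
    have p0 : CntA_part k 0 S = Sa := by
      ext i
      by_cases hi : i < k
      · rw [CntA_mem hi, hSdef, Finset.mem_filter, Finset.mem_range, Nat.zero_mul, Nat.zero_add]
        constructor
        · rintro ⟨_, h | h | h | h⟩
          · exact h.2
          · omega
          · omega
          · omega
        · intro h
          exact ⟨by omega, Or.inl ⟨hi, h⟩⟩
      · exact ⟨fun h => absurd (Finset.mem_range.1 (CntA_sub _ _ _ h)) hi,
          fun h => absurd (Finset.mem_range.1 (ha h)) hi⟩
    have p1 : CntA_part k 1 S = Sb := by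
      ext i
      by_cases hi : i < k
      · rw [CntA_mem hi, hSdef, Finset.mem_filter, Finset.mem_range, Nat.one_mul,
          Nat.add_sub_cancel_left]
        constructor
        · rintro ⟨_, h | h | h | h⟩
          · omega
          · exact h.2.2
          · omega
          · omega
        · intro h
          exact ⟨by omega, Or.inr (Or.inl ⟨by omega, by omega, h⟩)⟩
      · exact ⟨fun h => absurd (Finset.mem_range.1 (CntA_sub _ _ _ h)) hi,
          fun h => absurd (Finset.mem_range.1 (hb h)) hi⟩
    have p2 : CntA_part k 2 S = Sc := by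
      ext i
      by_cases hi : i < k
      · rw [CntA_mem hi, hSdef, Finset.mem_filter, Finset.mem_range, Nat.add_sub_cancel_left]
        constructor
        · rintro ⟨_, h | h | h | h⟩
          · omega
          · omega
          · exact h.2.2
          · omega
        · intro h
          exact ⟨by omega, Or.inr (Or.inr (Or.inl ⟨by omega, by omega, h⟩))⟩
      · exact ⟨fun h => absurd (Finset.mem_range.1 (CntA_sub _ _ _ h)) hi,
          fun h => absurd (Finset.mem_range.1 (hc h)) hi⟩
    have p3 : CntA_part k 3 S = Sd := by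
      ext i
      by_cases hi : i < k
      · rw [CntA_mem hi, hSdef, Finset.mem_filter, Finset.mem_range, Nat.add_sub_cancel_left]
        constructor
        · rintro ⟨_, h | h | h | h⟩
          · omega
          · omega
          · omega
          · exact h.2
        · intro h
          exact ⟨by omega, Or.inr (Or.inr (Or.inr ⟨by omega, h⟩))⟩
      · exact ⟨fun h => absurd (Finset.mem_range.1 (CntA_sub _ _ _ h)) hi,
          fun h => absurd (Finset.mem_range.1 (hd h)) hi⟩
    have h1 := CntA_pts (sh k e) (4 * k) 0 S hS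
    rw [zero_add, CntA_sum k e S hS, p0, p1, p2, p3, ha', hb', hc', hd'] at h1
    exact h1

end Pool.Agent.Helper19.SR
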