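import Pool.Agent.Helper19.SR.St

/-!
# SR: module CntB (MP_e46579_co), counting zeros of the form in the layers of the chain
-/

set_option autoImplicit false

namespace Pool.Agent.Helper19.SR

open Finset

/-- one coordinate of the sum -/
noncomputable def CntB_co {F : Type} [Field F] (k : ℕ) (e : ℕ → F) (c : ℕ) (S : Finset ℕ) : F :=
  ∑ i ∈ S.filter (fun i => c ≤ i ∧ i < c + k), e (i - c)

theorem CntB_sh {F : Type} [Field F] (k : ℕ) (e : ℕ → F) (i : ℕ) (hi : i < 4 * k) :
    sh k e i = ((if 0 ≤ i ∧ i < 0 + k then e (i - 0) else 0),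
      (if k ≤ i ∧ i < k + k then e (i - k) else 0),
      (if 2 * k ≤ i ∧ i < 2 * k + k then e (i - 2 * k) else 0),
      (if 3 * k ≤ i ∧ i < 3 * k + k then e (i - 3 * k) else 0)) := by
  unfold sh
  rcases lt_or_ge i k with h1 | h1
  · rw [if_pos h1, if_pos ⟨by omega, by omega⟩, if_neg (by omega), if_neg (by omega),
      if_neg (by omega), Nat.sub_zero]
  rw [if_neg (by omega)]
  rcases lt_or_ge i (2 * k) with h2 | h2
  · rw [if_pos h2, if_neg (by omega), if_pos ⟨by omega, by omega⟩, if_neg (by omega),
      if_neg (by omega)]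
  rw [if_neg (by omega)]
  rcases lt_or_ge i (3 * k) with h3 | h3
  · rw [if_pos h3, if_neg (by omega), if_neg (by omega), if_pos ⟨by omega, by omega⟩,
      if_neg (by omega)]
  · rw [if_neg (by omega), if_neg (by omega), if_neg (by omega), if_neg (by omega),
      if_pos ⟨by omega, by omega⟩]

theorem CntB_sum {F : Type} [Field F] (k : ℕ) (e : ℕ → F) (T : Finset ℕ)
    (hT : T ⊆ range (4 * k)) :
    ∑ i ∈ T, sh k e i = (CntB_co k e 0 T, CntB_co k e k T, CntB_co k e (2 * k) T,
      CntB_co k e (3 * k) T) := by
  rw [Finset.sum_congr rfl fun i hi => CntB_sh k e i (mem_range.1 (hT hi))]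
  refine Prod.ext ?_ (Prod.ext ?_ (Prod.ext ?_ ?_))
  · rw [Prod.fst_sum]
    simp only [CntB_co, Finset.sum_filter]
  · rw [Prod.snd_sum, Prod.fst_sum]
    simp only [CntB_co, Finset.sum_filter]
  · rw [Prod.snd_sum, Prod.snd_sum, Prod.fst_sum]
    simp only [CntB_co, Finset.sum_filter]
  · rw [Prod.snd_sum, Prod.snd_sum, Prod.snd_sum]
    simp only [CntB_co, Finset.sum_filter]

theorem CntB_inj {F : Type} [Field F] (k : ℕ) (e : ℕ → F)
    (he : ∀ S T : Finset ℕ, S ⊆ range k → T ⊆ range k → ∑ i ∈ S, e i = ∑ i ∈ T, e i → S = T)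
    (c : ℕ) (A B : Finset ℕ) (h : CntB_co k e c A = CntB_co k e c B) :
    A.filter (fun i => c ≤ i ∧ i < c + k) = B.filter (fun i => c ≤ i ∧ i < c + k) := by
  have key : ∀ A : Finset ℕ, CntB_co k e c A =
      ∑ i ∈ (A.filter (fun i => c ≤ i ∧ i < c + k)).image (fun i => i - c), e i := by
    intro A
    rw [CntB_co, Finset.sum_image]
    intro x hx y hy hxy
    have h1 := (mem_filter.1 (Finset.mem_coe.1 hx)).2
    have h2 := (mem_filter.1 (Finset.mem_coe.1 hy)).2
    simp only at hxy
    omega
  have hr : ∀ A : Finset ℕ, (A.filter (fun i => c ≤ i ∧ i < c + k)).image (fun i => i - c) ⊆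
      range k := by
    intro A x hx
    obtain ⟨i, hi, rfl⟩ := mem_image.1 hx
    have h1 := (mem_filter.1 hi).2
    rw [mem_range]
    omega
  rw [key, key] at h
  have h2 := he _ _ (hr A) (hr B) h
  have h3 : ∀ A B : Finset ℕ, (A.filter (fun i => c ≤ i ∧ i < c + k)).image (fun i => i - c) =
      (B.filter (fun i => c ≤ i ∧ i < c + k)).image (fun i => i - c) →
      A.filter (fun i => c ≤ i ∧ i < c + k) ⊆ B.filter (fun i => c ≤ i ∧ i < c + k) := by
    intro A B hAB x hx
    have h4 : x - c ∈ (B.filter (fun i => c ≤ i ∧ i < c + k)).image (fun i => i - c) := by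
      rw [← hAB]
      exact mem_image_of_mem _ hx
    obtain ⟨y, hy, hyx⟩ := mem_image.1 h4
    have h5 := (mem_filter.1 hx).2
    have h6 := (mem_filter.1 hy).2
    have h7 : y = x := by omega
    rw [← h7]
    exact hy
  exact subset_antisymm (h3 A B h2) (h3 B A h2.symm)

theorem CntB_zero {F : Type} [Field F] (k : ℕ) (e : ℕ → F)
    (he : ∀ S T : Finset ℕ, S ⊆ range k → T ⊆ range k → ∑ i ∈ S, e i = ∑ i ∈ T, e i → S = T)
    (c : ℕ) (A : Finset ℕ) (h : CntB_co k e c A = 0) (x : ℕ) (hx : x ∈ A) (h1 : c ≤ x)
    (h2 : x < c + k) : False := by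
  have h3 : CntB_co k e c A = CntB_co k e c ∅ := by
    rw [h]
    simp [CntB_co]
  have h4 := CntB_inj k e he c A ∅ h3
  have h5 : x ∈ A.filter (fun i => c ≤ i ∧ i < c + k) := mem_filter.2 ⟨hx, h1, h2⟩
  rw [h4] at h5
  simp at h5

theorem CntB_form {F : Type} [Field F] (δ : F) (hδ : ∀ x : F, x ^ 2 + x + δ ≠ 0) (u v : F)
    (h : u ^ 2 + u * v + δ * v ^ 2 = 0) : u = 0 ∧ v = 0 := by
  by_cases hv : v = 0
  · subst hv
    simp at h
    exact ⟨h, rfl⟩
  · exfalso
    apply hδ (u / v)
    field_simp
    linear_combination h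

theorem CntB_out {F : Type} [Field F] (k : ℕ) (e : ℕ → F) (c : ℕ) (A : Finset ℕ)
    (h : ∀ x ∈ A, ¬ (c ≤ x ∧ x < c + k)) : CntB_co k e c A = 0 := by
  rw [CntB_co, Finset.filter_false_of_mem h, Finset.sum_empty]

theorem hCntB : StCntB := by
  intro k F _ _ _ _ δ e hδ he
  have hz : ∀ j < 4 * k, ∀ S ∈ (range j).powerset, sh k e j + ∑ i ∈ S, sh k e i =
      (CntB_co k e 0 (insert j S), CntB_co k e k (insert j S), CntB_co k e (2 * k) (insert j S),
        CntB_co k e (3 * k) (insert j S)) := by
    intro j hj S hS
    rw [mem_powerset] at hS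
    have hjS : j ∉ S := fun h => absurd (mem_range.1 (hS h)) (lt_irrefl _)
    rw [← Finset.sum_insert hjS, CntB_sum]
    intro x hx
    rw [mem_range]
    rcases mem_insert.1 hx with rfl | h
    · exact hj
    · have := mem_range.1 (hS h)
      omega
  refine ⟨?_, ?_, ?_⟩
  · intro j hj
    rw [card_eq_zero, filter_eq_empty_iff]
    intro S hS hQ
    rw [hz j (by omega) S hS] at hQ
    rw [mem_powerset] at hS
    have hT : ∀ x ∈ insert j S, x ≤ j := by
      intro x hx
      rcases mem_insert.1 hx with rfl | h
      · exact le_rfl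
      · exact (mem_range.1 (hS h)).le
    have h2 : CntB_co k e (2 * k) (insert j S) = 0 := CntB_out k e _ _ fun x hx => by
      have := hT x hx
      omega
    simp only [Qf, h2, zero_mul, add_zero] at hQ
    obtain ⟨hu, hv⟩ := CntB_form δ hδ _ _ hQ
    rcases lt_or_ge j k with h | h
    · exact CntB_zero k e he 0 _ hu j (mem_insert_self _ _) (by omega) (by omega)
    · exact CntB_zero k e he k _ hv j (mem_insert_self _ _) (by omega) (by omega)
  · intro j hj1 hj2
    have h1 : (range j).powerset.filter
        (fun S => Qf δ (sh k e j + ∑ i ∈ S, sh k e i) = 0) ⊆ (Ico (2 * k) j).powerset := by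
      intro S hS
      obtain ⟨hS, hQ⟩ := mem_filter.1 hS
      rw [hz j (by omega) S hS] at hQ
      rw [mem_powerset] at hS ⊢
      have hT : ∀ x ∈ insert j S, x ≤ j := by
        intro x hx
        rcases mem_insert.1 hx with rfl | h
        · exact le_rfl
        · exact (mem_range.1 (hS h)).le
      have h2 : CntB_co k e (3 * k) (insert j S) = 0 := CntB_out k e _ _ fun x hx => by
        have := hT x hx
        omega
      simp only [Qf, h2, mul_zero, add_zero] at hQ
      obtain ⟨hu, hv⟩ := CntB_form δ hδ _ _ hQ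
      intro x hx
      rw [mem_Ico]
      refine ⟨?_, mem_range.1 (hS hx)⟩
      by_contra hc
      rcases lt_or_ge x k with h | h
      · exact CntB_zero k e he 0 _ hu x (mem_insert_of_mem hx) (by omega) (by omega)
      · exact CntB_zero k e he k _ hv x (mem_insert_of_mem hx) (by omega) (by omega)
    refine (card_le_card h1).trans ?_
    rw [card_powerset, Nat.card_Ico]
  · intro j hj1 hj2
    have h1 : ((range j).powerset.filter
        (fun S => Qf δ (sh k e j + ∑ i ∈ S, sh k e i) = 0)).card ≤
        ((range (2 * k)).powerset ×ˢ (Ico (3 * k) j).powerset).card := by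
      refine card_le_card_of_injOn
        (fun S => (S.filter (fun x => x < 2 * k), S.filter (fun x => 3 * k ≤ x))) ?_ ?_
      · intro S hS
        obtain ⟨hS, -⟩ := mem_filter.1 (mem_coe.1 hS)
        rw [mem_powerset] at hS
        rw [mem_coe, mem_product, mem_powerset, mem_powerset]
        refine ⟨fun x hx => ?_, fun x hx => ?_⟩
        · rw [mem_range]
          exact (mem_filter.1 hx).2
        · rw [mem_Ico]
          exact ⟨(mem_filter.1 hx).2, mem_range.1 (hS (mem_filter.1 hx).1)⟩
      · intro S hS S' hS' hSS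
        obtain ⟨hS, hQ⟩ := mem_filter.1 (mem_coe.1 hS)
        obtain ⟨hS', hQ'⟩ := mem_filter.1 (mem_coe.1 hS')
        rw [hz j (by omega) S hS] at hQ
        rw [hz j (by omega) S' hS'] at hQ'
        simp only [Prod.mk.injEq] at hSS
        obtain ⟨e1, e2⟩ := hSS
        -- membership away from the third block
        have m1 : ∀ x, x < 2 * k → (x ∈ S ↔ x ∈ S') := by
          intro x hx
          have h3 : x ∈ S.filter (fun x => x < 2 * k) ↔ x ∈ S'.filter (fun x => x < 2 * k) := by
            rw [e1]
          simpa [hx] using h3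
        have m2 : ∀ x, 3 * k ≤ x → (x ∈ S ↔ x ∈ S') := by
          intro x hx
          have h3 : x ∈ S.filter (fun x => 3 * k ≤ x) ↔ x ∈ S'.filter (fun x => 3 * k ≤ x) := by
            rw [e2]
          simpa [hx] using h3
        have hco : ∀ c, (c + k ≤ 2 * k ∨ 3 * k ≤ c) →
            CntB_co k e c (insert j S) = CntB_co k e c (insert j S') := by
          intro c hc
          unfold CntB_co
          congr 1
          ext x
          simp only [mem_filter, mem_insert]
          constructor
          · rintro ⟨h3, h4⟩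
            refine ⟨?_, h4⟩
            rcases h3 with h3 | h3
            · exact Or.inl h3
            · right
              rcases hc with hc | hc
              · exact (m1 x (by omega)).1 h3
              · exact (m2 x (by omega)).1 h3
          · rintro ⟨h3, h4⟩
            refine ⟨?_, h4⟩
            rcases h3 with h3 | h3
            · exact Or.inl h3
            · right
              rcases hc with hc | hc
              · exact (m1 x (by omega)).2 h3
              · exact (m2 x (by omega)).2 h3
        have c0 := hco 0 (Or.inl (by omega))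
        have c1 := hco k (Or.inl (by omega))
        have c3 := hco (3 * k) (Or.inr le_rfl)
        simp only [Qf] at hQ hQ'
        rw [← c0, ← c1, ← c3] at hQ'
        have hne : CntB_co k e (3 * k) (insert j S) ≠ 0 := fun h =>
          CntB_zero k e he (3 * k) _ h j (mem_insert_self _ _) (by omega) (by omega)
        have c2 : CntB_co k e (2 * k) (insert j S) = CntB_co k e (2 * k) (insert j S') := by
          apply mul_right_cancel₀ hne
          linear_combination hQ - hQ'
        have h5 := CntB_inj k e he (2 * k) _ _ c2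
        ext x
        rcases lt_or_ge x (2 * k) with h | h
        · exact m1 x h
        rcases lt_or_ge x (3 * k) with h' | h'
        · have h6 : x ∈ (insert j S).filter (fun i => 2 * k ≤ i ∧ i < 2 * k + k) ↔
              x ∈ (insert j S').filter (fun i => 2 * k ≤ i ∧ i < 2 * k + k) := by
            rw [h5]
          have h7 : x ≠ j := by omega
          have h8 : x < 2 * k + k := by omega
          simpa [h, h7, h8] using h6
        · exact m2 x h'
    refine h1.trans ?_
    rw [card_product, card_powerset, card_powerset, card_range, Nat.card_Ico, pow_mul]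
    norm_num

end Pool.Agent.Helper19.SR
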