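import Pool.Agent.Helper19.SR.St

set_option autoImplicit false

namespace Pool.Agent.Helper19.SR

open Real Finset

theorem Code_add_eq_zero {F : Type} [Field F] [CharP F 2] {x y : F × F × F × F}
    (h : x + y = 0) : x = y := by
  obtain ⟨x1, x2, x3, x4⟩ := x
  obtain ⟨y1, y2, y3, y4⟩ := y
  simp only [Prod.mk_add_mk, Prod.mk_eq_zero] at h
  obtain ⟨h1, h2, h3, h4⟩ := h
  have g : ∀ a b : F, a + b = 0 → a = b := fun a b hab => CharTwo.add_eq_zero.1 hab
  rw [g _ _ h1, g _ _ h2, g _ _ h3, g _ _ h4]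

theorem Code_self_add {F : Type} [Field F] [CharP F 2] (x : F × F × F × F) : x + x = 0 := by
  obtain ⟨x1, x2, x3, x4⟩ := x
  simp only [Prod.mk_add_mk, Prod.mk_eq_zero]
  exact ⟨CharTwo.add_self_eq_zero _, CharTwo.add_self_eq_zero _, CharTwo.add_self_eq_zero _,
    CharTwo.add_self_eq_zero _⟩

theorem Code_B_add {F : Type} [Field F] (a x y : F × F × F × F) :
    Bf a (x + y) = Bf a x + Bf a y := by
  simp only [Bf, Prod.fst_add, Prod.snd_add]
  ring

theorem Code_B_zero {F : Type} [Field F] (a : F × F × F × F) : Bf a 0 = 0 := by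
  simp [Bf]

theorem Code_B_zero' {F : Type} [Field F] (a : F × F × F × F) : Bf 0 a = 0 := by
  simp [Bf]

theorem Code_norm {E ι : Type} [NormedAddCommGroup E] [InnerProductSpace ℝ E] [Fintype ι]
    (e : ι → E) (he : Orthonormal ℝ e) (l : ι → ℝ) :
    ‖∑ i, l i • e i‖ ^ 2 = ∑ i, l i ^ 2 := by
  rw [← real_inner_self_eq_norm_sq, he.inner_sum]
  apply Finset.sum_congr rfl
  intro i _
  simp [pow_two]

theorem hCode (hFld : StFld) (hQuad : StQuad) : StCode := by
  intro k hk F _ _ _ _ hF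
  obtain ⟨⟨δ, hδ⟩, ψ, hψ1, hψ2, hψ3⟩ := hFld F
  refine ⟨δ, hδ, ?_⟩
  intro E _ _ e he
  have hq := hQuad F δ ψ hδ hψ1 hψ2 hψ3
  set q : ℝ := (Fintype.card F : ℝ) with hqdef
  have hqk : q = 2 ^ k := by rw [hqdef, hF]; push_cast; rfl
  have hq2 : 2 ≤ q := by
    rw [hqk]
    calc (2 : ℝ) = 2 ^ 1 := by norm_num
      _ ≤ 2 ^ k := pow_le_pow_right₀ (by norm_num) hk
  have hψ0 : ψ 0 = 1 := by
    have h := hψ1 0 0
    rw [add_zero] at h
    rcases hψ2 0 with h1 | h1
    · exact h1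
    · rw [h1] at h; norm_num at h
  have hψsq : ∀ x, ψ x ^ 2 = 1 := by
    intro x
    rcases hψ2 x with h1 | h1 <;> rw [h1] <;> norm_num
  set A : Finset (F × F × F × F) := univ.filter (fun a : F × F × F × F => Qf δ a = 0) with hA
  have h0A : (0 : F × F × F × F) ∈ A := by
    rw [hA, Finset.mem_filter]
    exact ⟨Finset.mem_univ _, by simp [Qf]⟩
  set Z : Finset (F × F × F × F) := A.erase 0 with hZ
  have hsum : ∀ z, ∑ a ∈ Z, ψ (Bf a z) = (∑ a ∈ A, ψ (Bf a z)) - 1 := by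
    intro z
    have := Finset.add_sum_erase A (fun a => ψ (Bf a z)) h0A
    rw [← this, Code_B_zero', hψ0]
    ring
  have hcard : (Z.card : ℝ) = (q ^ 2 + 1) * (q - 1) := by
    have h1 := hsum 0
    rw [hq 0] at h1
    simp only [Code_B_zero, hψ0] at h1
    rw [Finset.sum_const, nsmul_eq_mul, mul_one, if_pos trivial, if_pos (by simp [Qf])] at h1
    rw [h1]
    ring
  have hle : Z.card ≤ 8 ^ k := by
    have h8 : ((8 ^ k : ℕ) : ℝ) = q ^ 3 := by
      rw [hqk]; push_cast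
      rw [← pow_mul, mul_comm, pow_mul]; norm_num
    have : (Z.card : ℝ) ≤ ((8 ^ k : ℕ) : ℝ) := by
      rw [hcard, h8]; nlinarith
    exact_mod_cast this
  obtain ⟨ι⟩ : Nonempty (Z ↪ Fin (8 ^ k)) := by
    apply Function.Embedding.nonempty_of_card_le
    rw [Fintype.card_coe, Fintype.card_fin]
    exact hle
  have he' : Orthonormal ℝ (fun a : Z => e (ι a)) := he.comp _ ι.injective
  set c : ℝ := √(1 / (2 * q ^ 2 * (q - 1))) with hc
  have hc2 : c ^ 2 = 1 / (2 * q ^ 2 * (q - 1)) := by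
    rw [hc, Real.sq_sqrt]
    apply div_nonneg (by norm_num)
    have : 0 ≤ q - 1 := by linarith
    positivity
  have hdist : ∀ x y : F × F × F × F,
      ‖(∑ a : Z, (c * ψ (Bf a.1 x)) • e (ι a)) - ∑ a : Z, (c * ψ (Bf a.1 y)) • e (ι a)‖ ^ 2 =
        2 * c ^ 2 * (Z.card - ∑ a ∈ Z, ψ (Bf a (x + y))) := by
    intro x y
    rw [← Finset.sum_sub_distrib]
    simp only [← sub_smul]
    rw [Code_norm _ he']
    have h1 : ∀ a : Z, (c * ψ (Bf a.1 x) - c * ψ (Bf a.1 y)) ^ 2 =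
        2 * c ^ 2 * (1 - ψ (Bf a.1 (x + y))) := by
      intro a
      rw [Code_B_add, hψ1]
      have hx := hψsq (Bf a.1 x)
      have hy := hψsq (Bf a.1 y)
      linear_combination c ^ 2 * hx + c ^ 2 * hy
    rw [Finset.sum_congr rfl (fun a _ => h1 a), ← Finset.mul_sum]
    congr 1
    rw [Finset.sum_coe_sort Z (fun a => 1 - ψ (Bf a (x + y))), Finset.sum_sub_distrib,
      Finset.sum_const, nsmul_eq_mul, mul_one]
  have hq0 : q ≠ 0 := by linarith
  have hq1 : q - 1 ≠ 0 := by linarith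
  -- the two values
  have hv1 : ∀ x y : F × F × F × F, x ≠ y → Qf δ (x + y) ≠ 0 →
      ‖(∑ a : Z, (c * ψ (Bf a.1 x)) • e (ι a)) - ∑ a : Z, (c * ψ (Bf a.1 y)) • e (ι a)‖ ^ 2 = 1 := by
    intro x y hxy hQ
    have hz : x + y ≠ 0 := fun h => hxy (Code_add_eq_zero h)
    rw [hdist, hsum, hq, if_neg hz, if_neg hQ, hcard, hc2]
    field_simp
    ring
  have hv2 : ∀ x y : F × F × F × F, x ≠ y → Qf δ (x + y) = 0 →
      ‖(∑ a : Z, (c * ψ (Bf a.1 x)) • e (ι a)) - ∑ a : Z, (c * ψ (Bf a.1 y)) • e (ι a)‖ ^ 2 =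
        q / (q - 1) := by
    intro x y hxy hQ
    have hz : x + y ≠ 0 := fun h => hxy (Code_add_eq_zero h)
    rw [hdist, hsum, hq, if_neg hz, if_pos hQ, hcard, hc2]
    field_simp
    ring
  have hqp : 0 < q := by linarith
  have hqp1 : 0 < q - 1 := by linarith
  have hr1 : 1 ≤ q / (q - 1) := by
    rw [le_div_iff₀ hqp1]; linarith
  have hr2 : q / (q - 1) ≤ 1 + 2 / q := by
    rw [div_le_iff₀ hqp1]
    have : (1 + 2 / q) * (q - 1) = q + 1 - 2 / q := by field_simp; ring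
    rw [this]
    have h2 : 2 / q ≤ 1 := by rw [div_le_one hqp]; exact hq2
    linarith
  refine ⟨fun x => ∑ a : Z, (c * ψ (Bf a.1 x)) • e (ι a), ?_, ?_, ?_⟩
  · intro x y hxy
    by_cases hQ : Qf δ (x + y) = 0
    · rw [hv2 x y hxy hQ]; exact hr1
    · rw [hv1 x y hxy hQ]
  · intro x y hQ
    by_cases hxy : x = y
    · subst hxy
      simp
    · rw [hv1 x y hxy hQ]
  · intro x y
    rw [← hqk]
    by_cases hxy : x = y
    · subst hxy
      simp only [sub_self, norm_zero]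
      have : 0 ≤ 2 / q := by positivity
      nlinarith
    · by_cases hQ : Qf δ (x + y) = 0
      · rw [hv2 x y hxy hQ]; exact hr2
      · rw [hv1 x y hxy hQ]
        have : 0 ≤ 2 / q := by positivity
        linarith

end Pool.Agent.Helper19.SR
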