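import Pool.Agent.Helper19.SR.St

/-!
# SR, module DDp: elementary facts on powers of the square root of two
-/

set_option autoImplicit false

namespace Pool.Agent.Helper19.SR

open Real

private theorem DDp_a0 : (0 : ℝ) < √(1 / 2) := Real.sqrt_pos.2 (by norm_num)

private theorem DDp_b0 : (0 : ℝ) < √2 := Real.sqrt_pos.2 (by norm_num)

private theorem DDp_a2 : √(1 / 2) ^ 2 = (1 / 2 : ℝ) := Real.sq_sqrt (by norm_num)

private theorem DDp_b2 : √2 ^ 2 = (2 : ℝ) := Real.sq_sqrt (by norm_num)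

private theorem DDp_ab : √(1 / 2) * √2 = (1 : ℝ) := by
  rw [← Real.sqrt_mul (by norm_num)]
  norm_num

private theorem DDp_a1 : √(1 / 2) ≤ (1 : ℝ) := by
  rw [Real.sqrt_le_one]
  norm_num

private theorem DDp_b1 : (1 : ℝ) ≤ √2 := by
  rw [Real.one_le_sqrt]
  norm_num

private theorem DDp_2a : (1 : ℝ) ≤ 2 * √(1 / 2) := by
  have h1 := DDp_ab
  have h2 := DDp_b2
  have h3 := DDp_b1
  have h4 : 2 * √(1 / 2) = √2 := by
    calc 2 * √(1 / 2) = √2 ^ 2 * √(1 / 2) := by rw [h2]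
      _ = √2 * (√(1 / 2) * √2) := by ring
      _ = √2 := by rw [h1, mul_one]
  rw [h4]
  exact h3

private theorem DDp_pos (k j : ℕ) : 0 < DD k j := by
  have ha := DDp_a0
  have hb := DDp_b0
  unfold DD
  split_ifs <;> positivity

private theorem DDp_aj (j : ℕ) : √(1 / 2) ^ j ≤ 2 * √(1 / 2) ^ (j + 1) := by
  have ha := DDp_a0
  have h := DDp_2a
  have hp : 0 < √(1 / 2) ^ j := by positivity
  rw [pow_succ]
  nlinarith

private theorem DDp_bj (j : ℕ) : √2 ^ j ≤ 2 * √2 ^ (j + 1) := by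
  have hb := DDp_b0
  have h := DDp_b1
  have hp : 0 < √2 ^ j := by positivity
  rw [pow_succ]
  nlinarith

private theorem DDp_two (k j : ℕ) (hk : 1 ≤ k) : DD k j ≤ 2 * DD k (j + 1) := by
  have ha := DDp_a0
  have hb := DDp_b0
  have e1 := DDp_aj j
  have e2 := DDp_bj j
  unfold DD
  by_cases h1 : j < 2 * k
  · rw [if_pos h1]
    by_cases h2 : j + 1 < 2 * k
    · rw [if_pos h2]; exact e1
    · rw [if_neg h2, if_pos (by omega)]
      have : 0 ≤ √2 ^ (j + 1) / 8 ^ k := by positivity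
      linarith
  · rw [if_neg h1, if_neg (show ¬ j + 1 < 2 * k by omega)]
    by_cases h3 : j < 3 * k
    · rw [if_pos h3]
      by_cases h4 : j + 1 < 3 * k
      · rw [if_pos h4]
        have : √2 ^ j / 8 ^ k ≤ 2 * √2 ^ (j + 1) / 8 ^ k := by gcongr
        calc √(1 / 2) ^ j + √2 ^ j / 8 ^ k ≤ 2 * √(1 / 2) ^ (j + 1) + 2 * √2 ^ (j + 1) / 8 ^ k :=
              add_le_add e1 this
          _ = 2 * (√(1 / 2) ^ (j + 1) + √2 ^ (j + 1) / 8 ^ k) := by ring
      · rw [if_neg h4]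
        have g1 : √(1 / 2) ^ j ≤ 1 / 2 ^ k := by
          calc √(1 / 2) ^ j ≤ √(1 / 2) ^ (2 * k) :=
                pow_le_pow_of_le_one ha.le DDp_a1 (by omega)
            _ = (1 / 2) ^ k := by rw [pow_mul, DDp_a2]
            _ = 1 / 2 ^ k := by rw [one_div_pow]
        have g2 : √2 ^ j / 8 ^ k ≤ 1 / 2 ^ k := by
          have g3 : √2 ^ j ≤ 4 ^ k := by
            calc √2 ^ j ≤ √2 ^ (4 * k) := pow_le_pow_right₀ DDp_b1 (by omega)
              _ = (√2 ^ 2) ^ (2 * k) := by rw [← pow_mul]; congr 1; ring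
              _ = 2 ^ (2 * k) := by rw [DDp_b2]
              _ = 4 ^ k := by rw [pow_mul]; norm_num
          rw [div_le_div_iff₀ (by positivity) (by positivity), one_mul]
          calc √2 ^ j * 2 ^ k ≤ 4 ^ k * 2 ^ k := by gcongr
            _ = 8 ^ k := by rw [← mul_pow]; norm_num
        have g4 : (0 : ℝ) < 1 / 2 ^ k := by positivity
        calc √(1 / 2) ^ j + √2 ^ j / 8 ^ k ≤ 1 / 2 ^ k + 1 / 2 ^ k := add_le_add g1 g2
          _ ≤ 4 * (1 / 2 ^ k) := by linarith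
          _ = 2 * (2 / 2 ^ k) := by ring
    · rw [if_neg h3, if_neg (show ¬ j + 1 < 3 * k by omega)]
      have g4 : (0 : ℝ) < 2 / 2 ^ k := by positivity
      linarith

theorem hDDp : StDDp := by
  intro k hk
  have ha := DDp_a0
  have hb := DDp_b0
  have hsq : ∀ j : ℕ, (√(1 / 2) ^ j) ^ 2 = (1 / 2 : ℝ) ^ j := by
    intro j
    rw [← pow_mul, mul_comm j 2, pow_mul, DDp_a2]
  refine ⟨DDp_pos k, fun j => DDp_two k j hk, ?_, ?_, ?_⟩
  · intro j hj
    unfold DD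
    rw [if_pos hj, hsq]
  · intro j h1 h2
    unfold DD
    rw [if_neg (by omega), if_pos h2]
    obtain ⟨i, rfl⟩ : ∃ i, j = 2 * k + i := ⟨j - 2 * k, by omega⟩
    rw [Nat.add_sub_cancel_left]
    have e1 : (1 / 2 : ℝ) ^ (2 * k + i) * (1 + 2 / 2 ^ k * 2 ^ i) =
        (1 / 2) ^ (2 * k + i) + 2 / 8 ^ k := by
      have : (1 / 2 : ℝ) ^ (2 * k + i) * (2 / 2 ^ k * 2 ^ i) = 2 / 8 ^ k := by
        have h8 : (8 : ℝ) ^ k = 2 ^ (2 * k) * 2 ^ k := by
          rw [← pow_add, show 2 * k + k = 3 * k by ring, pow_mul]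
          norm_num
        rw [h8, one_div_pow, pow_add]
        field_simp
      rw [mul_add, mul_one, this]
    have e2 : √(1 / 2) ^ (2 * k + i) * √2 ^ (2 * k + i) = 1 := by
      rw [← mul_pow, DDp_ab, one_pow]
    rw [e1]
    calc (1 / 2 : ℝ) ^ (2 * k + i) + 2 / 8 ^ k
        = (√(1 / 2) ^ (2 * k + i)) ^ 2 + 2 * (√(1 / 2) ^ (2 * k + i) * √2 ^ (2 * k + i)) / 8 ^ k := by
          rw [hsq, e2, mul_one]
      _ ≤ (√(1 / 2) ^ (2 * k + i)) ^ 2 + 2 * (√(1 / 2) ^ (2 * k + i) * √2 ^ (2 * k + i)) / 8 ^ k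
          + (√2 ^ (2 * k + i) / 8 ^ k) ^ 2 := le_add_of_nonneg_right (sq_nonneg _)
      _ = (√(1 / 2) ^ (2 * k + i) + √2 ^ (2 * k + i) / 8 ^ k) ^ 2 := by ring
  · intro j h1 h2
    unfold DD
    rw [if_neg (by omega), if_neg (by omega)]
    obtain ⟨i, rfl⟩ : ∃ i, j = 3 * k + i := ⟨j - 3 * k, by omega⟩
    rw [Nat.add_sub_cancel_left]
    have h8 : (2 : ℝ) ^ (3 * k) = 2 ^ k * 4 ^ k := by
      rw [pow_mul, ← mul_pow]
      norm_num
    have h4 : (2 : ℝ) ^ k * 2 ^ k = 4 ^ k := by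
      rw [← mul_pow]
      norm_num
    have e1 : (1 / 2 : ℝ) ^ (3 * k + i) * (2 / 2 ^ k * (4 ^ k * 2 ^ i)) = 2 / 4 ^ k := by
      rw [one_div_pow, pow_add, h8, ← h4]
      field_simp
    have e2 : (1 / 2 : ℝ) ^ (3 * k + i) ≤ 1 / 4 ^ k := by
      calc (1 / 2 : ℝ) ^ (3 * k + i) ≤ (1 / 2) ^ (2 * k) :=
            pow_le_pow_of_le_one (by norm_num) (by norm_num) (by omega)
        _ = 1 / 4 ^ k := by
            rw [one_div_pow, pow_mul]
            norm_num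
    have g4 : (0 : ℝ) < 1 / 4 ^ k := by positivity
    rw [mul_add, mul_one, e1]
    calc (1 / 2 : ℝ) ^ (3 * k + i) + 2 / 4 ^ k ≤ 1 / 4 ^ k + 2 / 4 ^ k := by gcongr
      _ = 3 * (1 / 4 ^ k) := by ring
      _ ≤ 4 * (1 / 4 ^ k) := by linarith
      _ = (2 / 2 ^ k) ^ 2 := by
          rw [div_pow, ← h4]
          ring

end Pool.Agent.Helper19.SR
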