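import Pool.Agent.Helper19.SR.St

set_option autoImplicit false

namespace Pool.Agent.Helper19.SR

open Real Finset MeasureTheory
open Pool.Agent.Helper77.Steiner

section

variable {ι : Type} [Fintype ι] [DecidableEq ι]

lemma Dim_prod (n : ℕ) (g : Fin n → ι → ℝ) :
    ∑ x : Fin n → ι, ∏ k, g k (x k) = ∏ k, ∑ u, g k u := by
  rw [Finset.prod_univ_sum]
  simp [Fintype.piFinset_univ]

lemma Dim_pair (n : ℕ) (μ : ι → ℝ) (h1 : ∑ x, μ x = 1) (i j : Fin n) (hij : i ≠ j)
    (F : ι → ι → ℝ) :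
    ∑ x : Fin n → ι, (∏ k, μ (x k)) * F (x i) (x j) = ∑ y, ∑ z, μ y * μ z * F y z := by
  have e1 : ∀ x : Fin n → ι, (∏ k, μ (x k)) * F (x i) (x j) =
      ∑ y, ∑ z, F y z * ∏ k, (μ (x k) * (if k = i then (if x k = y then 1 else 0) else 1) *
        (if k = j then (if x k = z then 1 else 0) else 1)) := by
    intro x
    have e2 : ∀ y z, ∏ k, (μ (x k) * (if k = i then (if x k = y then (1 : ℝ) else 0) else 1) *
        (if k = j then (if x k = z then 1 else 0) else 1)) =
        (∏ k, μ (x k)) * (if x i = y then 1 else 0) * (if x j = z then 1 else 0) := by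
      intro y z
      rw [Finset.prod_mul_distrib, Finset.prod_mul_distrib]
      congr 1
      · congr 1
        rw [Finset.prod_ite_eq' univ i (fun k => if x k = y then (1 : ℝ) else 0)]
        simp
      · rw [Finset.prod_ite_eq' univ j (fun k => if x k = z then (1 : ℝ) else 0)]
        simp
    simp_rw [e2]
    rw [Finset.sum_eq_single (x i)]
    · rw [Finset.sum_eq_single (x j)]
      · simp
        ring
      · intro z _ hz
        simp [Ne.symm hz]
      · simp
    · intro y _ hy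
      apply Finset.sum_eq_zero
      intro z _
      simp [Ne.symm hy]
    · simp
  simp_rw [e1]
  rw [Finset.sum_comm]
  apply Finset.sum_congr rfl
  intro y _
  rw [Finset.sum_comm]
  apply Finset.sum_congr rfl
  intro z _
  rw [← Finset.mul_sum]
  have e3 := Dim_prod n (fun k u => μ u * (if k = i then (if u = y then (1 : ℝ) else 0) else 1) *
        (if k = j then (if u = z then 1 else 0) else 1))
  rw [e3]
  have e4 : ∀ k, ∑ u, μ u * (if k = i then (if u = y then (1 : ℝ) else 0) else 1) *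
        (if k = j then (if u = z then 1 else 0) else 1) =
        (if k = i then μ y else 1) * (if k = j then μ z else 1) := by
    intro k
    by_cases hi : k = i
    · subst hi
      simp [hij]
    · by_cases hj : k = j
      · simp [hj, hij.symm]
      · simp [hi, hj, h1]
  simp_rw [e4]
  rw [Finset.prod_mul_distrib, Finset.prod_ite_eq' univ i (fun _ => μ y),
    Finset.prod_ite_eq' univ j (fun _ => μ z)]
  simp
  ring

lemma Dim_one (n : ℕ) (μ : ι → ℝ) (h1 : ∑ x, μ x = 1) :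
    ∑ x : Fin n → ι, ∏ k, μ (x k) = 1 := by
  rw [Dim_prod n (fun _ => μ)]
  simp [h1]

end

theorem hDim (hPt : StPt) : StDim := by
  intro d E _ _ _ hfin ι _ _ a L μ hμ h1
  have hd0 : (0 : ℝ) < d + 1 := by positivity
  have hd1 : (0 : ℝ) < 2 * d + 1 := by positivity
  obtain ⟨n, hn⟩ : ∃ n, n = 2 * (d + 1) := ⟨_, rfl⟩
  obtain ⟨W, hW⟩ : ∃ W : (Fin (2 * (d + 1)) → ι) → ℝ, ∀ x, W x = ∏ k, μ (x k) :=
    ⟨_, fun _ => rfl⟩
  have hW0 : ∀ x, 0 ≤ W x := fun x => by rw [hW]; exact prod_nonneg fun k _ => hμ _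
  have hW1 : ∑ x, W x = 1 := by
    simp_rw [hW]
    exact Dim_one _ μ h1
  have hpair : ∀ i j : Fin (2 * (d + 1)), i ≠ j → ∀ F : ι → ι → ℝ,
      ∑ x, W x * F (x i) (x j) = ∑ y, ∑ z, μ y * μ z * F y z := by
    intro i j hij F
    simp_rw [hW]
    exact Dim_pair _ μ h1 i j hij F
  -- number of ordered pairs
  have hcard : ∀ c : ℝ, ∑ i : Fin (2 * (d + 1)), ∑ j : Fin (2 * (d + 1)),
      (if i ≠ j then c else 0) = 2 * ((d + 1) * (2 * d + 1)) * c := by
    intro c
    have e1 : ∀ i : Fin (2 * (d + 1)), ∑ j : Fin (2 * (d + 1)), (if i ≠ j then c else 0) =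
        (2 * d + 1) * c := by
      intro i
      have e2 : ∀ j : Fin (2 * (d + 1)), (if i ≠ j then c else 0) = c - (if i = j then c else 0) := by
        intro j
        by_cases h : i = j
        · simp [h]
        · simp [h]
      simp_rw [e2]
      rw [sum_sub_distrib]
      simp
      ring
    simp_rw [e1]
    simp
    ring
  -- averages of sums over pairs
  have hpairs : ∀ F : ι → ι → ℝ, ∑ x, W x * (∑ i, ∑ j, if i ≠ j then F (x i) (x j) else 0) =
      2 * ((d + 1) * (2 * d + 1)) * ∑ y, ∑ z, μ y * μ z * F y z := by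
    intro F
    rw [← hcard]
    simp_rw [mul_sum]
    rw [Finset.sum_comm]
    apply sum_congr rfl
    intro i _
    rw [Finset.sum_comm]
    apply sum_congr rfl
    intro j _
    by_cases hij : i = j
    · simp [hij]
    · simp only [ne_eq, hij, not_false_eq_true, if_true]
      rw [hpair i j hij F]
  have hmain : ∑ x, W x * ∑ l ∈ range L.K, (L.t (l + 1) ^ 2 - L.t l ^ 2) * max 0 ((d + 1 : ℝ) -
      1 / 2 * ∑ i, ∑ j, if i ≠ j ∧ L.cls l (x i) = L.cls l (x j) then (1 : ℝ) else 0) ≤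
      ∑ x, W x * (1 / 2 * ∑ i, ∑ j, if i ≠ j then ‖a (x i) - a (x j)‖ ^ 2 - ∑ l ∈ range L.K,
      (L.t (l + 1) ^ 2 - L.t l ^ 2) * (if L.cls l (x i) = L.cls l (x j) then 0 else 1) else 0) :=
    sum_le_sum fun x _ => mul_le_mul_of_nonneg_left (hPt d E hfin ι a L x) (hW0 x)
  have hR : ∑ x, W x * (1 / 2 * ∑ i, ∑ j, if i ≠ j then ‖a (x i) - a (x j)‖ ^ 2 -
      ∑ l ∈ range L.K, (L.t (l + 1) ^ 2 - L.t l ^ 2) *
        (if L.cls l (x i) = L.cls l (x j) then 0 else 1) else 0) =
      (d + 1) * (2 * d + 1) * (Lev.V a μ - L.U μ) := by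
    have e := hpairs (fun y z => ‖a y - a z‖ ^ 2 - ∑ l ∈ range L.K,
      (L.t (l + 1) ^ 2 - L.t l ^ 2) * (if L.cls l y = L.cls l z then 0 else 1))
    have e2 : ∀ x, W x * (1 / 2 * ∑ i, ∑ j, if i ≠ j then ‖a (x i) - a (x j)‖ ^ 2 -
      ∑ l ∈ range L.K, (L.t (l + 1) ^ 2 - L.t l ^ 2) *
        (if L.cls l (x i) = L.cls l (x j) then 0 else 1) else 0) =
        1 / 2 * (W x * ∑ i, ∑ j, if i ≠ j then ‖a (x i) - a (x j)‖ ^ 2 -
      ∑ l ∈ range L.K, (L.t (l + 1) ^ 2 - L.t l ^ 2) *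
        (if L.cls l (x i) = L.cls l (x j) then 0 else 1) else 0) := fun x => by ring
    simp_rw [e2]
    rw [← mul_sum, e]
    have hU : L.U μ = ∑ x, ∑ y, μ x * μ y * (∑ j ∈ range L.K, (L.t (j + 1) ^ 2 - L.t j ^ 2) *
        (if L.cls j x = L.cls j y then 0 else 1)) := by
      unfold Lev.U
      simp_rw [mul_sum]
      have : ∀ x : ι, ∑ y, ∑ j ∈ range L.K, μ x * μ y * ((L.t (j + 1) ^ 2 - L.t j ^ 2) *
          (if L.cls j x = L.cls j y then 0 else 1)) = ∑ j ∈ range L.K, ∑ y, μ x * μ y *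
          ((L.t (j + 1) ^ 2 - L.t j ^ 2) * (if L.cls j x = L.cls j y then 0 else 1)) :=
        fun x => Finset.sum_comm
      simp_rw [this]
      rw [Finset.sum_comm]
      apply sum_congr rfl
      intro j _
      rw [Lev.q_eq]
      have h2 : (1 : ℝ) = ∑ x, ∑ y, μ x * μ y := by
        rw [← Finset.sum_mul_sum, h1, one_mul]
      conv_lhs => rw [h2]
      rw [← sum_sub_distrib, mul_sum]
      apply sum_congr rfl
      intro x _
      rw [← sum_sub_distrib, mul_sum]
      apply sum_congr rfl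
      intro y _
      split_ifs <;> ring
    rw [hU]
    unfold Lev.V
    have e3 : ∑ y, ∑ z, μ y * μ z * (‖a y - a z‖ ^ 2 - ∑ l ∈ range L.K,
        (L.t (l + 1) ^ 2 - L.t l ^ 2) * (if L.cls l y = L.cls l z then 0 else 1)) =
        ∑ x, ∑ y, μ x * μ y * ‖a x - a y‖ ^ 2 - ∑ x, ∑ y, μ x * μ y *
        ∑ l ∈ range L.K, (L.t (l + 1) ^ 2 - L.t l ^ 2) *
          (if L.cls l x = L.cls l y then 0 else 1) := by
      rw [← sum_sub_distrib]
      apply sum_congr rfl
      intro x _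
      rw [← sum_sub_distrib]
      apply sum_congr rfl
      intro y _
      ring
    rw [e3]
    ring
  have hL : (d + 1) * (2 * d + 1) * ∑ l ∈ range L.K, (L.t (l + 1) ^ 2 - L.t l ^ 2) *
      max 0 (1 / (2 * (d : ℝ) + 1) - L.q l μ μ) ≤
      ∑ x, W x * ∑ l ∈ range L.K, (L.t (l + 1) ^ 2 - L.t l ^ 2) * max 0 ((d + 1 : ℝ) -
      1 / 2 * ∑ i, ∑ j, if i ≠ j ∧ L.cls l (x i) = L.cls l (x j) then (1 : ℝ) else 0) := by
    rw [mul_sum]
    have e0 : ∀ x, W x * ∑ l ∈ range L.K, (L.t (l + 1) ^ 2 - L.t l ^ 2) * max 0 ((d + 1 : ℝ) -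
        1 / 2 * ∑ i, ∑ j, if i ≠ j ∧ L.cls l (x i) = L.cls l (x j) then (1 : ℝ) else 0) =
        ∑ l ∈ range L.K, W x * ((L.t (l + 1) ^ 2 - L.t l ^ 2) * max 0 ((d + 1 : ℝ) -
        1 / 2 * ∑ i, ∑ j, if i ≠ j ∧ L.cls l (x i) = L.cls l (x j) then (1 : ℝ) else 0)) :=
      fun x => mul_sum _ _ _
    rw [sum_congr rfl (fun x _ => e0 x), Finset.sum_comm]
    apply sum_le_sum
    intro l _
    have tnn : 0 ≤ L.t l := by
      have := L.mono (Nat.zero_le l); rwa [L.t0] at this
    have hτ : 0 ≤ L.t (l + 1) ^ 2 - L.t l ^ 2 :=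
      sub_nonneg.2 (pow_le_pow_left₀ tnn (L.mono (Nat.le_succ l)) 2)
    have e := hpairs (fun y z => if L.cls l y = L.cls l z then 1 else 0)
    have hq : ∑ y, ∑ z, μ y * μ z * (if L.cls l y = L.cls l z then (1 : ℝ) else 0) = L.q l μ μ := by
      rw [Lev.q_eq]
      apply sum_congr rfl
      intro y _
      apply sum_congr rfl
      intro z _
      split_ifs <;> simp
    rw [hq] at e
    set S : (Fin (2 * (d + 1)) → ι) → ℝ := fun x => ∑ i, ∑ j,
      if i ≠ j ∧ L.cls l (x i) = L.cls l (x j) then (1 : ℝ) else 0 with hS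
    have hS' : ∀ x, S x = ∑ i, ∑ j, if i ≠ j then
        (if L.cls l (x i) = L.cls l (x j) then (1 : ℝ) else 0) else 0 := by
      intro x
      simp only [hS]
      apply sum_congr rfl
      intro i _
      apply sum_congr rfl
      intro j _
      by_cases h : i = j
      · simp [h]
      · simp [h]
    have eS : ∑ x, W x * S x = 2 * ((d + 1) * (2 * d + 1)) * L.q l μ μ := by
      rw [← e]
      apply sum_congr rfl
      intro x _
      rw [hS']
    have hav : max 0 ((d + 1 : ℝ) - (d + 1) * (2 * d + 1) * L.q l μ μ) ≤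
        ∑ x, W x * max 0 ((d + 1 : ℝ) - 1 / 2 * S x) := by
      apply max_le
      · exact sum_nonneg fun x _ => mul_nonneg (hW0 x) (le_max_left _ _)
      · have e5 : (d + 1 : ℝ) - (d + 1) * (2 * d + 1) * L.q l μ μ =
            ∑ x, W x * ((d + 1 : ℝ) - 1 / 2 * S x) := by
          have e6 : ∀ x, W x * ((d + 1 : ℝ) - 1 / 2 * S x) =
              (d + 1) * W x - 1 / 2 * (W x * S x) := fun x => by ring
          simp_rw [e6]
          rw [sum_sub_distrib, ← mul_sum, ← mul_sum, hW1, eS]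
          ring
        rw [e5]
        exact sum_le_sum fun x _ => mul_le_mul_of_nonneg_left (le_max_right _ _) (hW0 x)
    have hmax : (d + 1) * (2 * d + 1) * max 0 (1 / (2 * (d : ℝ) + 1) - L.q l μ μ) =
        max 0 ((d + 1 : ℝ) - (d + 1) * (2 * d + 1) * L.q l μ μ) := by
      rw [mul_max_of_nonneg _ _ (by positivity)]
      congr 1
      · ring
      · field_simp
    calc (d + 1) * (2 * d + 1) * ((L.t (l + 1) ^ 2 - L.t l ^ 2) *
          max 0 (1 / (2 * (d : ℝ) + 1) - L.q l μ μ)) =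
          (L.t (l + 1) ^ 2 - L.t l ^ 2) *
            ((d + 1) * (2 * d + 1) * max 0 (1 / (2 * (d : ℝ) + 1) - L.q l μ μ)) := by ring
      _ ≤ (L.t (l + 1) ^ 2 - L.t l ^ 2) * ∑ x, W x * max 0 ((d + 1 : ℝ) - 1 / 2 * S x) := by
          rw [hmax]
          exact mul_le_mul_of_nonneg_left hav hτ
      _ = _ := by
          rw [mul_sum]
          apply sum_congr rfl
          intro x _
          ring
  have hfin' := hL.trans (hmain.trans_eq hR)
  have hpos : (0 : ℝ) < (d + 1) * (2 * d + 1) := by positivity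
  have := le_of_mul_le_mul_left hfin' hpos
  linarith

end Pool.Agent.Helper19.SR
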