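import Pool.Agent.Helper19.SR.St

set_option autoImplicit false

namespace Pool.Agent.Helper19.SR

open Real Finset MeasureTheory
open Pool.Agent.Helper77.Steiner

theorem hFar (hBB : StBB) (hOm : StOm) (hSl : StSl) : StFar := by
  intro p q x1 x2 hp hq hpq hx1 hx2 h
  have hsl := hSl p q x1 x2 hp hq hpq hx1 hx2
  have hom := hOm p q x1 x2 0 hp hq hpq hx1 hx2 le_rfl (mul_nonneg hx1 hx2)
  obtain ⟨hb0, _, hb2, _⟩ := hBB
  have hlt := sqrt2_lt
  have hgt := sqrt2_gt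
  have hp1 : p ≤ 1 := by linarith
  have hq1 : q ≤ 1 := by linarith
  have hpq0 : 0 < p * q := by positivity
  have hpq1 : p * q ≤ 1 / 4 := by nlinarith [sq_nonneg (p - q)]
  have hg0 : 0 ≤ gl p q x1 x2 := by
    unfold gl
    have h1 : 0 ≤ 1 - p * (√2 / 2) := by nlinarith
    have h2 : 0 ≤ 1 - q * (√2 / 2) := by nlinarith
    positivity
  have hgX : gl p q x1 x2 ≤ x1 + x2 := by
    unfold gl
    have h1 : 0 ≤ x1 * (p * (√2 / 2)) := by positivity
    have h2 : 0 ≤ x2 * (q * (√2 / 2)) := by positivity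
    linarith
  have hB : bd p q x1 x2 ≤ 2 * (x1 + x2) := by
    unfold bd
    have h1 := hb2 x1 hx1
    have h2 := hb2 x2 hx2
    have h3 := hb0 (mix p q x1 x2 0)
    linarith
  have hc0 : 0 < cst ^ 2 / 2 := by have := cst_pos; positivity
  have hc1 : cst ^ 2 / 2 ≤ 12 / 10 := by
    rw [cst_sq]
    linarith
  obtain ⟨c, hc⟩ : ∃ c, c = cst ^ 2 / 2 * (1 - p * q) := ⟨_, rfl⟩
  rw [← hc] at hsl ⊢
  have hcc0 : 0 ≤ c := by rw [hc]; exact mul_nonneg hc0.le (by linarith)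
  have hcc1 : c ≤ 12 / 10 := by
    rw [hc]
    nlinarith
  unfold en
  generalize gl p q x1 x2 = g at *
  generalize bd p q x1 x2 = B at *
  generalize om p q x1 x2 0 = w at *
  obtain ⟨X, hX⟩ : ∃ X, X = x1 + x2 := ⟨_, rfl⟩
  rw [← hX] at h hgX hB hsl
  have hX0 : 0 ≤ X := by linarith
  have hS : x1 ^ 2 + x2 ^ 2 ≤ X ^ 2 := by
    rw [hX]
    nlinarith [mul_nonneg hx1 hx2]
  have hS0 : 0 ≤ x1 ^ 2 + x2 ^ 2 := by positivity
  have h1 : max 0 (g + eh * B) ≤ g + 2 * eh * X := by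
    apply max_le
    · have : 0 ≤ 2 * eh * X := by unfold eh; positivity
      linarith
    · have : eh * B ≤ eh * (2 * X) := mul_le_mul_of_nonneg_left hB (by unfold eh; norm_num)
      linarith
  have h2 : (max 0 (g + eh * B)) ^ 2 ≤ (g + 2 * eh * X) ^ 2 :=
    pow_le_pow_left₀ (le_max_left _ _) h1 2
  have h3 : (g + 2 * eh * X) ^ 2 ≤ g ^ 2 + 5 * eh * X ^ 2 := by
    have e1 : (g + 2 * eh * X) ^ 2 = g ^ 2 + 4 * eh * (g * X) + 4 * eh ^ 2 * X ^ 2 := by ring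
    rw [e1]
    have e2 : g * X ≤ X ^ 2 := by nlinarith
    unfold eh
    have hXX := sq_nonneg X
    linarith
  have h4 : -(12 / 10 * ch * X ^ 2) ≤ c * w := by
    have e1 : c * (-(ch * (x1 ^ 2 + x2 ^ 2 - 2 * 0))) ≤ c * w := mul_le_mul_of_nonneg_left hom hcc0
    have e2 : c * (ch * (x1 ^ 2 + x2 ^ 2)) ≤ 12 / 10 * (ch * X ^ 2) := by
      apply mul_le_mul hcc1 _ (by unfold ch; positivity) (by norm_num)
      exact mul_le_mul_of_nonneg_left hS (by unfold ch; norm_num)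
    linarith
  have h5 : 5 * eh * X ^ 2 + 12 / 10 * ch * X ^ 2 ≤ 1 / 5000 * X ^ 2 := by
    unfold eh ch
    have hXX := sq_nonneg X
    linarith
  have h6 : c * (x1 ^ 2 + x2 ^ 2 - 2 * 0 + w) = c * (x1 ^ 2 + x2 ^ 2) + c * w := by ring
  rw [h6]
  linarith

end Pool.Agent.Helper19.SR
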