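import Pool.Agent.Helper19.SR.St

/-!
# SR, module Fld: finite fields of characteristic two
-/

set_option autoImplicit false

namespace Pool.Agent.Helper19.SR

open Real Finset

theorem Fld_quad (F : Type) [Field F] [Fintype F] [CharP F 2] : ∃ δ : F, ∀ x : F, x ^ 2 + x + δ ≠ 0 := by
  have hni : ¬ Function.Injective (fun x : F => x ^ 2 + x) := by
    intro h
    have h1 : (fun x : F => x ^ 2 + x) 0 = (fun x : F => x ^ 2 + x) 1 := by
      show (0 : F) ^ 2 + 0 = 1 ^ 2 + 1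
      rw [one_pow, CharTwo.add_self_eq_zero]
      simp
    exact zero_ne_one (h h1)
  have hns : ¬ Function.Surjective (fun x : F => x ^ 2 + x) :=
    fun h => hni (Finite.injective_iff_surjective.2 h)
  unfold Function.Surjective at hns
  push Not at hns
  obtain ⟨δ, hδ⟩ := hns
  refine ⟨δ, fun x hx => hδ x ?_⟩
  have h1 : x ^ 2 + x = -δ := eq_neg_of_add_eq_zero_left hx
  show x ^ 2 + x = δ
  rw [h1, CharTwo.neg_eq]

theorem Fld_char (F : Type) [Field F] [Fintype F] [DecidableEq F] [CharP F 2] :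
    ∃ ψ : F → ℝ, (∀ x y, ψ (x + y) = ψ x * ψ y) ∧ (∀ x, ψ x = 1 ∨ ψ x = -1) ∧ ψ 1 = -1 := by
  have : Algebra (ZMod 2) F := ZMod.algebra F 2
  have h1 : ∃ φ : Module.Dual (ZMod 2) F, φ 1 ≠ 0 := by
    by_contra hcon
    push Not at hcon
    exact one_ne_zero ((Module.forall_dual_apply_eq_zero_iff (ZMod 2) (1 : F)).1 hcon)
  obtain ⟨φ, hφ⟩ := h1
  have h01 : ∀ a : ZMod 2, a = 0 ∨ a = 1 := by decide
  refine ⟨fun x => if φ x = 0 then 1 else -1, ?_, ?_, if_neg hφ⟩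
  · intro x y
    show (if φ (x + y) = 0 then (1 : ℝ) else -1) = _
    rw [map_add]
    have h2 : (1 : ZMod 2) + 1 = 0 := by decide
    rcases h01 (φ x) with hx | hx <;> rcases h01 (φ y) with hy | hy <;> simp [hx, hy, h2]
  · intro x
    show (if φ x = 0 then (1 : ℝ) else -1) = 1 ∨ (if φ x = 0 then (1 : ℝ) else -1) = -1
    split_ifs
    · exact Or.inl rfl
    · exact Or.inr rfl

theorem hFld : StFld := by
  intro F _ _ _ _
  refine ⟨Fld_quad F, ?_⟩
  obtain ⟨ψ, h1, h2, h3⟩ := Fld_char F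
  refine ⟨ψ, h1, h2, ?_⟩
  intro c hc
  have e1 : ∑ x, ψ (c * x) = ∑ x, ψ x := Equiv.sum_comp (Equiv.mulLeft₀ c hc) ψ
  have e2 : ∑ x, ψ (x + 1) = ∑ x, ψ x := Equiv.sum_comp (Equiv.addRight (1 : F)) ψ
  have e3 : ∑ x, ψ (x + 1) = - ∑ x, ψ x := by
    rw [← Finset.sum_neg_distrib]
    apply Finset.sum_congr rfl
    intro x _
    rw [h1, h3]
    ring
  rw [e1]
  linarith

end Pool.Agent.Helper19.SR
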