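import Pool.Agent.Helper19.SR.St

/-! Module Gau of project SR (MP_e46579_co): Gauss sums of the elliptic quadric. -/

set_option autoImplicit false

namespace Pool.Agent.Helper19.SR

open Finset

section

set_option linter.unusedSectionVars false

variable {F : Type} [Field F] [Fintype F] [DecidableEq F] [CharP F 2] {ψ : F → ℝ}

theorem Gau_psi_zero (hadd : ∀ x y, ψ (x + y) = ψ x * ψ y) (hpm : ∀ x, ψ x = 1 ∨ ψ x = -1) :
    ψ 0 = 1 := by
  have h := hadd 0 0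
  rw [add_zero] at h
  rcases hpm 0 with h0 | h0
  · exact h0
  · rw [h0] at h
    norm_num at h

theorem Gau_sum_psi_mul (hadd : ∀ x y, ψ (x + y) = ψ x * ψ y) (hpm : ∀ x, ψ x = 1 ∨ ψ x = -1)
    (h0 : ∀ c : F, c ≠ 0 → ∑ x, ψ (c * x) = 0) (c : F) :
    ∑ x, ψ (c * x) = if c = 0 then (Fintype.card F : ℝ) else 0 := by
  split_ifs with h
  · subst h
    simp [Gau_psi_zero hadd hpm, Finset.card_univ]
  · exact h0 c h

theorem Gau_sq_bij : Function.Bijective (fun x : F => x ^ 2) := by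
  rw [← Finite.injective_iff_bijective]
  exact frobenius_inj F 2

theorem Gau_sum_swap_zero {A B : F → ℝ} (h : ∀ s, s ≠ 0 → A s = B s) :
    ∑ s, A s = A 0 - B 0 + ∑ s, B s := by
  have h1 : ∑ s, (A s - B s) = A 0 - B 0 := by
    refine Finset.sum_eq_single 0 ?_ ?_
    · intro b _ hb
      rw [h b hb, sub_self]
    · intro hb
      exact absurd (Finset.mem_univ _) hb
  rw [Finset.sum_sub_distrib] at h1
  linarith

theorem Gau_sum_hyp (hadd : ∀ x y, ψ (x + y) = ψ x * ψ y) (hpm : ∀ x, ψ x = 1 ∨ ψ x = -1)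
    (h0 : ∀ c : F, c ≠ 0 → ∑ x, ψ (c * x) = 0) {s : F} (hs : s ≠ 0) :
    ∑ t, ∑ t', ψ (s * (t * t')) = (Fintype.card F : ℝ) := by
  have h1 : ∀ t : F, ∑ t', ψ (s * (t * t')) = if t = 0 then (Fintype.card F : ℝ) else 0 := by
    intro t
    have := Gau_sum_psi_mul hadd hpm h0 (s * t)
    simp only [mul_eq_zero, hs, false_or] at this
    rw [← this]
    refine Finset.sum_congr rfl fun x _ => ?_
    rw [mul_assoc]
  rw [Finset.sum_congr rfl fun t _ => h1 t, Finset.sum_ite_eq' univ 0]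
  simp

theorem Gau_sum_ell (hadd : ∀ x y, ψ (x + y) = ψ x * ψ y) (hpm : ∀ x, ψ x = 1 ∨ ψ x = -1)
    (h0 : ∀ c : F, c ≠ 0 → ∑ x, ψ (c * x) = 0) {δ : F} (hδ : ∀ x : F, x ^ 2 + x + δ ≠ 0)
    {s : F} (hs : s ≠ 0) :
    ∑ v, ∑ u, ψ (s * (u ^ 2 + u * v + δ * v ^ 2)) = -(Fintype.card F : ℝ) := by
  have hA : ∀ v : F, v ≠ 0 → ∑ u, ψ (s * (u ^ 2 + u * v + δ * v ^ 2)) =
      ∑ w, ψ ((s * (w ^ 2 + w + δ)) * v ^ 2) := by
    intro v hv
    rw [← Function.Bijective.sum_comp (Equiv.mulLeft₀ v hv).bijective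
      (fun u => ψ (s * (u ^ 2 + u * v + δ * v ^ 2)))]
    refine Finset.sum_congr rfl fun w _ => ?_
    congr 1
    simp only [Equiv.mulLeft₀_apply]
    ring
  rw [Gau_sum_swap_zero (A := fun v => ∑ u, ψ (s * (u ^ 2 + u * v + δ * v ^ 2)))
    (B := fun v => ∑ w, ψ ((s * (w ^ 2 + w + δ)) * v ^ 2)) hA]
  have e1 : ∑ u, ψ (s * (u ^ 2 + u * 0 + δ * 0 ^ 2)) = 0 := by
    have : ∑ u : F, ψ (s * (u ^ 2 + u * 0 + δ * 0 ^ 2)) = ∑ u : F, ψ (s * u) := by
      rw [← Function.Bijective.sum_comp Gau_sq_bij (fun u => ψ (s * u))]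
      refine Finset.sum_congr rfl fun w _ => ?_
      congr 1
      ring
    rw [this, h0 s hs]
  have e2 : ∑ w, ψ ((s * (w ^ 2 + w + δ)) * 0 ^ 2) = (Fintype.card F : ℝ) := by
    have : ∀ w : F, ψ ((s * (w ^ 2 + w + δ)) * 0 ^ 2) = 1 := by
      intro w
      rw [show (s * (w ^ 2 + w + δ)) * 0 ^ 2 = (0 : F) by ring]
      exact Gau_psi_zero hadd hpm
    rw [Finset.sum_congr rfl fun w _ => this w]
    simp [Finset.card_univ]
  have e3 : ∑ v, ∑ w, ψ ((s * (w ^ 2 + w + δ)) * v ^ 2) = 0 := by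
    rw [Finset.sum_comm]
    refine Finset.sum_eq_zero fun w _ => ?_
    rw [Function.Bijective.sum_comp Gau_sq_bij (fun v => ψ ((s * (w ^ 2 + w + δ)) * v))]
    exact h0 _ (mul_ne_zero hs (hδ w))
  simp only [e1, e2, e3]
  ring

end

/-- Module Gau. -/
theorem hGau : StGau := by
  intro F _ _ _ _ δ ψ hδ hadd hpm h0 s hs
  have e1 : ∀ a : F × F × F × F, ψ (s * Qf δ a) =
      ψ (s * (a.1 ^ 2 + a.1 * a.2.1 + δ * a.2.1 ^ 2)) * ψ (s * (a.2.2.1 * a.2.2.2)) := by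
    intro a
    rw [← hadd]
    congr 1
    unfold Qf
    ring
  rw [Finset.sum_congr rfl fun a _ => e1 a, Fintype.sum_prod_type]
  simp only [Fintype.sum_prod_type]
  have e2 : ∀ u v : F, ∑ t, ∑ t', ψ (s * (u ^ 2 + u * v + δ * v ^ 2)) * ψ (s * (t * t')) =
      ψ (s * (u ^ 2 + u * v + δ * v ^ 2)) * (Fintype.card F : ℝ) := by
    intro u v
    rw [← Gau_sum_hyp hadd hpm h0 hs, Finset.mul_sum]
    refine Finset.sum_congr rfl fun t _ => ?_
    rw [Finset.mul_sum]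
  simp only [e2]
  rw [Finset.sum_comm]
  simp only [← Finset.sum_mul]
  rw [Gau_sum_ell hadd hpm h0 hδ hs]
  ring

end Pool.Agent.Helper19.SR
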