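import Pool.Agent.Helper19.SR.St

set_option autoImplicit false

namespace Pool.Agent.Helper19.SR

open Real Finset MeasureTheory Classical
open Pool.Agent.Helper77.Steiner
open scoped ENNReal

lemma Low_HH (d : ℕ) (hd : 2 ≤ d) : 0 < NN d ∧
    1 + eh / 10 * (d : ℝ) ^ (-(3 / 2) : ℝ) ≤ HH (NN d) / NN d := by
  have hd' : (2 : ℝ) ≤ d := by exact_mod_cast hd
  have hd0 : (0 : ℝ) < d := by linarith
  have hN2 : NN d ^ 2 = 2 * d + 1 := by
    unfold NN
    exact Real.sq_sqrt (by positivity)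
  have hN0' : 0 ≤ NN d := by unfold NN; positivity
  have hN1 : 1 ≤ NN d := by nlinarith
  have hN0 : 0 < NN d := by linarith
  refine ⟨hN0, ?_⟩
  have e1 : HH (NN d) / NN d = 1 + eh / NN d ^ 3 := by
    unfold HH bb
    rw [if_pos hN1]
    field_simp
  rw [e1]
  have hs : √(d : ℝ) ^ 2 = d := Real.sq_sqrt hd0.le
  have hs0 : 0 < √(d : ℝ) := Real.sqrt_pos.2 hd0
  have e2 : (d : ℝ) ^ (-(3 / 2) : ℝ) = (√(d : ℝ) ^ 3)⁻¹ := by
    rw [Real.rpow_neg hd0.le, show (3 / 2 : ℝ) = (1 / 2) * 3 by norm_num, Real.rpow_mul hd0.le,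
      ← Real.sqrt_eq_rpow]
    norm_cast
  have h7 : NN d ≤ 7 / 4 * √(d : ℝ) := by
    apply le_of_sq_le_sq _ (by positivity)
    rw [hN2, mul_pow, hs]
    nlinarith
  have h8 : NN d ^ 3 ≤ 10 * √(d : ℝ) ^ 3 := by
    calc NN d ^ 3 ≤ (7 / 4 * √(d : ℝ)) ^ 3 := pow_le_pow_left₀ hN0' h7 3
      _ = (7 / 4) ^ 3 * √(d : ℝ) ^ 3 := by ring
      _ ≤ 10 * √(d : ℝ) ^ 3 := mul_le_mul_of_nonneg_right (by norm_num) (by positivity)
  rw [e2]
  have h9 : eh / 10 * (√(d : ℝ) ^ 3)⁻¹ = eh / (10 * √(d : ℝ) ^ 3) := by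
    field_simp
  rw [h9]
  have : eh / (10 * √(d : ℝ) ^ 3) ≤ eh / NN d ^ 3 :=
    div_le_div_of_nonneg_left (by unfold eh; norm_num) (by positivity) h8
  linarith

theorem Low_mst (hNet : StNet) (d : ℕ) (hd : 2 ≤ d) (A : Finset (EuclideanSpace ℝ (Fin d)))
    (hA : A.Nonempty) (S : Set (EuclideanSpace ℝ (Fin d)))
    (hS : IsConnected (S ∪ (A : Set (EuclideanSpace ℝ (Fin d))))) (hfin : μH[1] S ≠ ⊤) :
    (HH (NN d) / NN d) * mstLen A ≤ cst * (μH[1] S).toReal := by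
  have : Nonempty A := hA.to_subtype
  have hA0 : μH[1] (A : Set (EuclideanSpace ℝ (Fin d))) = 0 := by
    have := Measure.nullSingletonClass_hausdorff (EuclideanSpace ℝ (Fin d)) (d := 1) one_pos
    exact A.finite_toSet.measure_zero _
  have hSA : μH[1] (S ∪ (A : Set (EuclideanSpace ℝ (Fin d)))) ≤ μH[1] S := by
    refine (measure_union_le _ _).trans ?_
    rw [hA0, add_zero]
  have hSAfin : μH[1] (S ∪ (A : Set (EuclideanSpace ℝ (Fin d)))) ≠ ⊤ :=
    ne_top_of_le_ne_top hfin hSA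
  have hc := cst_pos
  obtain ⟨hN0, hHH⟩ := Low_HH d hd
  have hX : 0 ≤ HH (NN d) / NN d := by
    refine le_trans ?_ hHH
    unfold eh
    positivity
  apply le_of_forall_pos_le_add
  intro ε hε
  obtain ⟨V, l, hN, hAV, hl⟩ := exists_net hS.isPreconnected A hA
    (fun x hx => Or.inr (by exact_mod_cast hx)) hSAfin (η := ε / cst) (by positivity)
  obtain ⟨L, T, hT, hsum⟩ := exists_lev_tree (fun x : A => (x : EuclideanSpace ℝ (Fin d)))
    (edgeLen A) (fun x y => rfl)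
  have h1 := mstLen_le A T hT
  have h2 := @hNet d hd (EuclideanSpace ℝ (Fin d)) _ _ _ (by simp) A _
    (fun a b => Classical.propDecidable (a = b)) _ (fun x : A => (x : EuclideanSpace ℝ (Fin d)))
    L V l hN (fun x => hAV x.2)
  have h3 : (μH[1] (S ∪ (A : Set (EuclideanSpace ℝ (Fin d))))).toReal ≤ (μH[1] S).toReal :=
    ENNReal.toReal_mono hfin hSA
  calc (HH (NN d) / NN d) * mstLen A ≤ cst * l := by
        refine le_trans (mul_le_mul_of_nonneg_left (h1.trans hsum) hX) h2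
    _ ≤ cst * ((μH[1] S).toReal + ε / cst) :=
        mul_le_mul_of_nonneg_left (by linarith) hc.le
    _ = cst * (μH[1] S).toReal + ε := by
        field_simp

theorem hLow (hNet : StNet) : StLow := by
  intro d hd
  unfold steinerRatio steinerRatioOf
  refine le_iInf₂ fun A hA => ?_
  have hAne : A.Nonempty := Finset.card_pos.1 (by omega)
  have hpos := mstLen_pos A hA
  rw [ENNReal.le_div_iff_mul_le (Or.inl (by simpa using hpos)) (Or.inl ENNReal.ofReal_ne_top)]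
  unfold steinerLen
  refine le_iInf fun S => le_iInf₂ fun _ hS => ?_
  by_cases hfin : μH[1] S = ⊤
  · rw [hfin]; exact le_top
  · have h := Low_mst hNet d hd A hAne S hS hfin
    obtain ⟨hN0, hHH⟩ := Low_HH d hd
    have hlt := sqrt2_lt
    have h3p : 0 < √3 := Real.sqrt_pos.2 (by norm_num)
    have hd0 : (0 : ℝ) ≤ (d : ℝ) ^ (-(3 / 2) : ℝ) := Real.rpow_nonneg (by positivity) _
    have hf : 0 ≤ 1 + eh / 10 * (d : ℝ) ^ (-(3 / 2) : ℝ) := by
      unfold eh
      positivity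
    rw [← ENNReal.ofReal_mul (by
      apply mul_nonneg _ hf
      apply div_nonneg <;> linarith)]
    apply ENNReal.ofReal_le_of_le_toReal
    have h5 : (1 + eh / 10 * (d : ℝ) ^ (-(3 / 2) : ℝ)) * mstLen A ≤
        cst * (μH[1] S).toReal :=
      le_trans (mul_le_mul_of_nonneg_right hHH hpos.le) h
    generalize 1 + eh / 10 * (d : ℝ) ^ (-(3 / 2) : ℝ) = f at *
    unfold cst at h5
    rw [div_mul_eq_mul_div, le_div_iff₀ h3p] at h5
    rw [div_mul_eq_mul_div, div_mul_eq_mul_div, div_le_iff₀ (by linarith)]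
    linarith

end Pool.Agent.Helper19.SR
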