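import Pool.Agent.Helper19.SR.St

set_option autoImplicit false

namespace Pool.Agent.Helper19.SR

open Real Finset MeasureTheory
open Pool.Agent.Helper77.Steiner

theorem hMerge (hPair : StPair) : StMerge := by
  intro N K t p q s y1 y2 k hN hN0 ht0 ht hs hp hq hpq hy1 hy2 hk hy10 hy20 hy11 hy21 hk0 hk1
  set G := ∑ j ∈ range K, (t (j + 1) - t j) * max (gn N p q (y1 j) (y2 j) (k j)) 0 with hG
  set D := ∑ j ∈ range K, (t (j + 1) ^ 2 - t j ^ 2) * en p q (y1 j) (y2 j) (k j) with hD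
  have hc := cst_pos
  have h1 : ∑ j ∈ range K, (t (j + 1) - t j) * gn N p q (y1 j) (y2 j) (k j) ≤ G := by
    apply sum_le_sum
    intro j _
    exact mul_le_mul_of_nonneg_left (le_max_left _ _) (sub_nonneg.2 (ht (Nat.le_succ j)))
  have h2 : G ^ 2 ≤ cst ^ 2 / 2 * (1 - p * q) * D := by
    have := sum_sq_le t (fun j => max (gn N p q (y1 j) (y2 j) (k j)) 0)
      (fun j => cst ^ 2 / 2 * (1 - p * q) * en p q (y1 j) (y2 j) (k j)) ht0 ht K
      (fun i j hij _ => hPair N p q (y1 i) (y2 i) (k i) (y1 j) (y2 j) (k j) hN hN0 hp hq hpq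
        (hk0 i) (hy10 i) (hy20 i) (hy1 hij) (hy2 hij) (hk hij) (hy11 j) (hy21 j) (hk1 j))
    refine this.trans (le_of_eq ?_)
    rw [hD, mul_sum]
    apply sum_congr rfl
    intro j _
    ring
  set X := s * (1 - p * q) with hX
  have h3 : 2 / cst * G ≤ X + 1 / (2 * s) * D := by
    have hR0 : 0 ≤ X + 1 / (2 * s) * D := by
      have hq' : q = 1 - p := by linarith
      have h1pq : 0 < 1 - p * q := by rw [hq']; nlinarith [sq_nonneg (p - 1/2)]
      have hD0 : 0 ≤ D := by
        have : 0 ≤ cst ^ 2 / 2 * (1 - p * q) * D := (sq_nonneg G).trans h2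
        have h5 : 0 < cst ^ 2 / 2 * (1 - p * q) := by positivity
        exact nonneg_of_mul_nonneg_right this h5
      positivity
    apply le_of_sq_le_sq _ hR0
    calc (2 / cst * G) ^ 2 = 4 / cst ^ 2 * G ^ 2 := by ring
      _ ≤ 4 / cst ^ 2 * (cst ^ 2 / 2 * (1 - p * q) * D) :=
          mul_le_mul_of_nonneg_left h2 (by positivity)
      _ = 4 * X * (1 / (2 * s) * D) := by
          rw [hX]; field_simp
      _ ≤ (X + 1 / (2 * s) * D) ^ 2 := by
          nlinarith [sq_nonneg (X - 1 / (2 * s) * D)]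
  have h4 : 2 / cst * ∑ j ∈ range K, (t (j + 1) - t j) * gn N p q (y1 j) (y2 j) (k j) ≤
      2 / cst * G := mul_le_mul_of_nonneg_left h1 (by positivity)
  exact h4.trans h3

end Pool.Agent.Helper19.SR
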