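import Pool.Agent.Helper19.SR.St

/-!
# SR, module Mon: the gain at a finer level, disjoint parts
-/

set_option autoImplicit false

namespace Pool.Agent.Helper19.SR

open Real

theorem Mon_sq (p q x1 x2 : ℝ) :
    mix p q x1 x2 0 ^ 2 = p ^ 2 * x1 ^ 2 + q ^ 2 * x2 ^ 2 := by
  unfold mix
  rw [Real.sq_sqrt]
  · ring
  · have h1 : 0 ≤ p ^ 2 * x1 ^ 2 := by positivity
    have h2 : 0 ≤ q ^ 2 * x2 ^ 2 := by positivity
    linarith

theorem Mon_nonneg (p q x1 x2 : ℝ) : 0 ≤ mix p q x1 x2 0 := Real.sqrt_nonneg _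

theorem Mon_c : (√2 / 2 : ℝ) ^ 2 = 1 / 2 ∧ 0 ≤ (√2 / 2 : ℝ) ∧ (√2 / 2 : ℝ) ≤ 3 / 4 := by
  have h2 : (√2 : ℝ) ^ 2 = 2 := Real.sq_sqrt (by norm_num)
  have h0 : 0 ≤ (√2 : ℝ) := Real.sqrt_nonneg _
  refine ⟨by nlinarith, by positivity, ?_⟩
  nlinarith [sq_nonneg (√2 - 3 / 2)]

theorem Mon_low (p q x1 x2 : ℝ) :
    (p * x1 + q * x2) * (√2 / 2) ≤ mix p q x1 x2 0 := by
  obtain ⟨hc1, hc2, -⟩ := Mon_c
  apply (abs_le_of_sq_le_sq' _ (Mon_nonneg p q x1 x2)).2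
  rw [Mon_sq, mul_pow, hc1]
  nlinarith [sq_nonneg (p * x1 - q * x2)]

/-- MODULE Mon -/
theorem hMon (hBB : StBB) : StMon := by
  obtain ⟨-, -, -, -, hL, -, -⟩ := hBB
  intro N p q x1 x2 y1 y2 hp hq hpq hx1 hx2 h1 h2
  have hlow := Mon_low p q x1 x2
  obtain ⟨hc1, hc2, hc3⟩ := Mon_c
  have hmx := Mon_sq p q x1 x2
  have hmy := Mon_sq p q y1 y2
  have hnx := Mon_nonneg p q x1 x2
  have hny := Mon_nonneg p q y1 y2
  set mx := mix p q x1 x2 0 with hmxdef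
  set my := mix p q y1 y2 0 with hmydef
  set c : ℝ := √2 / 2 with hcdef
  have hp1 : p ≤ 1 := by linarith
  have hq1 : q ≤ 1 := by linarith
  have hd1 : 0 ≤ y1 - x1 := by linarith
  have hd2 : 0 ≤ y2 - x2 := by linarith
  -- the norm in the plane
  have e1 : p * x1 ≤ mx := by
    apply abs_le_of_sq_le_sq' _ hnx |>.2
    rw [hmx, mul_pow]
    linarith [mul_nonneg (sq_nonneg q) (sq_nonneg x2)]
  have e2 : q * x2 ≤ mx := by
    apply abs_le_of_sq_le_sq' _ hnx |>.2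
    rw [hmx, mul_pow]
    linarith [mul_nonneg (sq_nonneg p) (sq_nonneg x1)]
  have f1 : 0 ≤ p * (y1 - x1) := mul_nonneg hp.le hd1
  have f2 : 0 ≤ q * (y2 - x2) := mul_nonneg hq.le hd2
  have hup : my ≤ mx + (p * (y1 - x1) + q * (y2 - x2)) := by
    apply abs_le_of_sq_le_sq' _ (by positivity) |>.2
    rw [hmy]
    have g1 := mul_le_mul_of_nonneg_right e1 f1
    have g2 := mul_le_mul_of_nonneg_right e2 f2
    have g3 := mul_nonneg f1 f2
    have g4 : (mx + (p * (y1 - x1) + q * (y2 - x2))) ^ 2 = mx ^ 2 +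
        2 * (mx * (p * (y1 - x1))) + 2 * (mx * (q * (y2 - x2))) + (p * (y1 - x1)) ^ 2 +
        (q * (y2 - x2)) ^ 2 + 2 * (p * (y1 - x1) * (q * (y2 - x2))) := by ring
    have g5 : p ^ 2 * y1 ^ 2 = p ^ 2 * x1 ^ 2 + 2 * (p * x1 * (p * (y1 - x1))) +
        (p * (y1 - x1)) ^ 2 := by ring
    have g6 : q ^ 2 * y2 ^ 2 = q ^ 2 * x2 ^ 2 + 2 * (q * x2 * (q * (y2 - x2))) +
        (q * (y2 - x2)) ^ 2 := by ring
    rw [g4, g5, g6, hmx]
    linarith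
  have hlo : mx ≤ my := by
    apply abs_le_of_sq_le_sq' _ hny |>.2
    rw [hmx, hmy]
    have g1 : x1 ^ 2 ≤ y1 ^ 2 := pow_le_pow_left₀ hx1 h1 2
    have g2 : x2 ^ 2 ≤ y2 ^ 2 := pow_le_pow_left₀ hx2 h2 2
    linarith [mul_le_mul_of_nonneg_left g1 (sq_nonneg p), mul_le_mul_of_nonneg_left g2 (sq_nonneg q)]
  have f3 : p * (y1 - x1) ≤ y1 - x1 := mul_le_of_le_one_left hd1 hp1
  have f4 : q * (y2 - x2) ≤ y2 - x2 := mul_le_of_le_one_left hd2 hq1
  have hm : |mx - my| ≤ (y1 - x1) + (y2 - x2) := by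
    rw [abs_le]
    constructor
    · linarith
    · linarith
  have b1 := (abs_le.1 (hL x1 y1)).2
  have b2 := (abs_le.1 (hL x2 y2)).2
  have b3 := (abs_le.1 (hL mx my)).1
  have a1 : |x1 - y1| = y1 - x1 := by rw [abs_sub_comm]; exact abs_of_nonneg hd1
  have a2 : |x2 - y2| = y2 - x2 := by rw [abs_sub_comm]; exact abs_of_nonneg hd2
  rw [a1] at b1
  rw [a2] at b2
  have hgn : gn N p q x1 x2 0 = x1 + x2 - mx + eh * (bb x1 + bb x2 - bb mx) := by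
    unfold gn HH
    simp only [lt_irrefl, if_false, ← hmxdef]
    ring
  have hbd : bd p q y1 y2 = bb y1 + bb y2 - bb my := rfl
  have hgl : gl p q y1 y2 = y1 * (1 - p * c) + y2 * (1 - q * c) := rfl
  rw [hgn, hbd, hgl]
  have heh : (0 : ℝ) ≤ eh := by unfold eh; norm_num
  have heh2 : (44 : ℝ) * eh ≤ 1 / 4 := by unfold eh; norm_num
  have key : (bb x1 + bb x2 - bb mx) - (bb y1 + bb y2 - bb my) ≤ 44 * ((y1 - x1) + (y2 - x2)) := by
    linarith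
  have key2 : eh * ((bb x1 + bb x2 - bb mx) - (bb y1 + bb y2 - bb my)) ≤
      1 / 4 * ((y1 - x1) + (y2 - x2)) := by
    have h5 := mul_le_mul_of_nonneg_left key heh
    have h6 : 0 ≤ (y1 - x1) + (y2 - x2) := by linarith
    have h7 := mul_le_mul_of_nonneg_right heh2 h6
    linarith
  have k1 : 1 / 4 * (y1 - x1) ≤ (y1 - x1) * (1 - p * c) := by
    have h5 : p * c ≤ 3 / 4 := (mul_le_of_le_one_left hc2 hp1).trans hc3
    have h6 : 1 / 4 ≤ 1 - p * c := by linarith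
    have h7 := mul_le_mul_of_nonneg_left h6 hd1
    linarith
  have k2 : 1 / 4 * (y2 - x2) ≤ (y2 - x2) * (1 - q * c) := by
    have h5 : q * c ≤ 3 / 4 := (mul_le_of_le_one_left hc2 hq1).trans hc3
    have h6 : 1 / 4 ≤ 1 - q * c := by linarith
    have h7 := mul_le_mul_of_nonneg_left h6 hd2
    linarith
  linarith

end Pool.Agent.Helper19.SR
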