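import Pool.Agent.Helper19.SR.St

set_option autoImplicit false

namespace Pool.Agent.Helper19.SR

open Real Finset MeasureTheory
open Pool.Agent.Helper77.Steiner

private theorem N1_gl {p q x1 x2 : ℝ} (hp : 0 < p) (hq : 0 < q) (hpq : p + q = 1) (h1 : 0 ≤ x1)
    (h2 : 0 ≤ x2) : 0 ≤ gl p q x1 x2 ∧ gl p q x1 x2 ≤ x1 + x2 := by
  have hs0 : 0 ≤ √2 := Real.sqrt_nonneg 2
  have hs2 : √2 ≤ 2 := by
    rw [Real.sqrt_le_left (by norm_num)]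
    norm_num
  have hp1 : p ≤ 1 := by linarith
  have hq1 : q ≤ 1 := by linarith
  have a1 : 0 ≤ p * (√2 / 2) := by positivity
  have a2 : p * (√2 / 2) ≤ 1 := by nlinarith
  have b1 : 0 ≤ q * (√2 / 2) := by positivity
  have b2 : q * (√2 / 2) ≤ 1 := by nlinarith
  unfold gl
  constructor
  · have := mul_nonneg h1 (sub_nonneg.2 a2)
    have := mul_nonneg h2 (sub_nonneg.2 b2)
    linarith
  · have := mul_nonneg h1 a1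
    have := mul_nonneg h2 b1
    nlinarith

private theorem N1_sq {p q x1 x2 : ℝ} (hpq : p + q = 1) (h1 : 0 ≤ x1) (h2 : 0 ≤ x2) :
    (p * x1 ^ 2 - q * x2 ^ 2) ^ 2 ≤
      (x1 - x2) ^ 2 * (x1 + x2) ^ 2 / 2 + 2 * (p - 1 / 2) ^ 2 * (x1 + x2) ^ 4 := by
  have hq : q = 1 - p := by linarith
  subst hq
  have e : p * x1 ^ 2 - (1 - p) * x2 ^ 2 = (x1 - x2) * (x1 + x2) / 2 + (p - 1 / 2) * (x1 ^ 2 + x2 ^ 2) := by
    ring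
  rw [e]
  have h3 : (x1 ^ 2 + x2 ^ 2) ^ 2 ≤ (x1 + x2) ^ 4 := by
    have h4 : x1 ^ 2 + x2 ^ 2 ≤ (x1 + x2) ^ 2 := by nlinarith [mul_nonneg h1 h2]
    have h5 := pow_le_pow_left₀ (by positivity) h4 2
    calc (x1 ^ 2 + x2 ^ 2) ^ 2 ≤ ((x1 + x2) ^ 2) ^ 2 := h5
      _ = (x1 + x2) ^ 4 := by ring
  have h6 : ((p - 1 / 2) * (x1 ^ 2 + x2 ^ 2)) ^ 2 ≤ (p - 1 / 2) ^ 2 * (x1 + x2) ^ 4 := by
    rw [mul_pow]
    exact mul_le_mul_of_nonneg_left h3 (sq_nonneg _)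
  nlinarith [sq_nonneg ((x1 - x2) * (x1 + x2) / 2 - (p - 1 / 2) * (x1 ^ 2 + x2 ^ 2))]

private theorem N1_num {D X e S : ℝ} (hX2 : 2 ≤ X) (hS : S = 1 / 50 * D ^ 2 + 1 / 40 * e ^ 2 * X ^ 2) :
    3 * eh * X * (D ^ 2 * X ^ 2 / 2 + 2 * e ^ 2 * X ^ 4) ≤ S * ((1 / 25) * X ^ 4) := by
  rw [hS]
  unfold eh
  have hX0 : 0 ≤ X := by linarith
  have l3 : 0 ≤ D ^ 2 * X ^ 3 * (X - 2) := mul_nonneg (by positivity) (by linarith)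
  have l4 : 0 ≤ e ^ 2 * X ^ 5 * (X - 2) := mul_nonneg (by positivity) (by linarith)
  have l1 : 0 ≤ D ^ 2 * X ^ 3 := by positivity
  have l2 : 0 ≤ e ^ 2 * X ^ 5 := by positivity
  linear_combination (1 / 1250) * l3 + (2 / 1250 - 3 / 200000000) * l1 + (1 / 1000) * l4 +
    (2 / 1000 - 6 / 100000000) * l2

private theorem N1_B {p q x1 x2 m : ℝ} (hpq : p + q = 1) (hx1 : 1 ≤ x1) (hx2 : 1 ≤ x2) (hm : 1 ≤ m)
    (hmsq : m ^ 2 = p ^ 2 * x1 ^ 2 + q ^ 2 * x2 ^ 2) :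
    (1 / x1 ^ 2 + 1 / x2 ^ 2 - 1 / m ^ 2) * (x1 ^ 2 * x2 ^ 2 * m ^ 2) =
      (p * x1 ^ 2 - q * x2 ^ 2) ^ 2 := by
  have hx10 : x1 ≠ 0 := by positivity
  have hx20 : x2 ≠ 0 := by positivity
  have hm0 : m ≠ 0 := by positivity
  have hq' : q = 1 - p := by linarith
  have e1 : (1 / x1 ^ 2 + 1 / x2 ^ 2 - 1 / m ^ 2) * (x1 ^ 2 * x2 ^ 2 * m ^ 2) =
      (x1 ^ 2 + x2 ^ 2) * m ^ 2 - x1 ^ 2 * x2 ^ 2 := by
    field_simp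
    ring
  rw [e1, hmsq, hq']
  ring

private theorem N1_inv {x : ℝ} (hx : 1 ≤ x) : 1 / x ^ 2 ≤ 1 := by
  rw [div_le_one (by positivity)]
  exact one_le_pow₀ hx

private theorem N1_D {x1 x2 m X : ℝ} (hX : 0 ≤ X) (a1 : 9 / 20 * X ≤ x1) (a2 : 9 / 20 * X ≤ x2)
    (hm : 1 ≤ m) : (1 / 25) * X ^ 4 ≤ x1 ^ 2 * x2 ^ 2 * m ^ 2 := by
  have d1 : (9 / 20 * X) ^ 2 ≤ x1 ^ 2 := pow_le_pow_left₀ (by linarith) a1 2
  have d2 : (9 / 20 * X) ^ 2 ≤ x2 ^ 2 := pow_le_pow_left₀ (by linarith) a2 2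
  have d3 : (1 : ℝ) ≤ m ^ 2 := one_le_pow₀ hm
  have d4 : (9 / 20 * X) ^ 2 * (9 / 20 * X) ^ 2 ≤ x1 ^ 2 * x2 ^ 2 :=
    mul_le_mul d1 d2 (sq_nonneg _) (sq_nonneg _)
  have d5 : x1 ^ 2 * x2 ^ 2 * 1 ≤ x1 ^ 2 * x2 ^ 2 * m ^ 2 :=
    mul_le_mul_of_nonneg_left d3 (mul_nonneg (sq_nonneg _) (sq_nonneg _))
  have d6 : 0 ≤ X ^ 4 := pow_nonneg hX 4
  have d7 : (9 / 20 * X) ^ 2 * (9 / 20 * X) ^ 2 = 6561 / 160000 * X ^ 4 := by ring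
  linarith

private theorem N1_key {p q x1 x2 m B X S : ℝ} (hX2 : 2 ≤ X) (hXd : X = x1 + x2)
    (hS : S = 1 / 50 * (x1 - x2) ^ 2 + 1 / 40 * (p - 1 / 2) ^ 2 * X ^ 2)
    (hD0 : 0 < x1 ^ 2 * x2 ^ 2 * m ^ 2) (hDlow : (1 / 25) * X ^ 4 ≤ x1 ^ 2 * x2 ^ 2 * m ^ 2)
    (hBD : B * (x1 ^ 2 * x2 ^ 2 * m ^ 2) = (p * x1 ^ 2 - q * x2 ^ 2) ^ 2)
    (hsq : (p * x1 ^ 2 - q * x2 ^ 2) ^ 2 ≤
      (x1 - x2) ^ 2 * (x1 + x2) ^ 2 / 2 + 2 * (p - 1 / 2) ^ 2 * (x1 + x2) ^ 4) :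
    3 * eh * X * B ≤ S := by
  have hS0 : 0 ≤ S := by
    rw [hS]
    positivity
  rw [← hXd] at hsq
  by_contra hcon
  have k1 : S * (x1 ^ 2 * x2 ^ 2 * m ^ 2) < 3 * eh * X * B * (x1 ^ 2 * x2 ^ 2 * m ^ 2) :=
    mul_lt_mul_of_pos_right (lt_of_not_ge hcon) hD0
  have k2 : 3 * eh * X * B * (x1 ^ 2 * x2 ^ 2 * m ^ 2) =
      3 * eh * X * (p * x1 ^ 2 - q * x2 ^ 2) ^ 2 := by
    rw [← hBD, mul_assoc]
  have k3 : S * ((1 / 25) * X ^ 4) ≤ S * (x1 ^ 2 * x2 ^ 2 * m ^ 2) :=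
    mul_le_mul_of_nonneg_left hDlow hS0
  have k4 : 3 * eh * X * (p * x1 ^ 2 - q * x2 ^ 2) ^ 2 ≤
      3 * eh * X * ((x1 - x2) ^ 2 * X ^ 2 / 2 + 2 * (p - 1 / 2) ^ 2 * X ^ 4) := by
    refine mul_le_mul_of_nonneg_left hsq ?_
    have h0 : 0 ≤ X := by linarith
    unfold eh
    positivity
  have k5 := N1_num (D := x1 - x2) (e := p - 1 / 2) hX2 hS
  linarith

private theorem N1_fin {g B X S R : ℝ} (g0 : 0 ≤ g) (gX : g ≤ X) (hX2 : 2 ≤ X) (hB0 : 0 ≤ B)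
    (hB2 : B ≤ 2) (hkey : 3 * eh * X * B ≤ S) (hsl : g ^ 2 + S ≤ R) :
    (max 0 (g + eh * B)) ^ 2 ≤ R := by
  have he0 : (0 : ℝ) ≤ eh := by
    unfold eh
    norm_num
  have he1 : eh ≤ 1 / 2 := by
    unfold eh
    norm_num
  have heB : 0 ≤ eh * B := mul_nonneg he0 hB0
  have heB1 : eh * B ≤ 1 := by nlinarith
  rw [max_eq_right (by linarith)]
  have f1 : (g + eh * B) ^ 2 = g ^ 2 + eh * B * (2 * g + eh * B) := by ring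
  have f3 : eh * B * (2 * g + eh * B) ≤ eh * B * (3 * X) :=
    mul_le_mul_of_nonneg_left (by linarith) heB
  have f4 : eh * B * (3 * X) = 3 * eh * X * B := by ring
  rw [f1]
  linarith

theorem hN1 (_hBB : StBB) (hSl : StSl) (hNear : StNear) : StN1 := by
  intro p q x1 x2 hp hq hpq h1 h2 hlt hm
  obtain ⟨-, a1, a2, -, -, -, b2⟩ := hNear p q x1 x2 hp hq hpq h1 h2 hlt
  have hsl := hSl p q x1 x2 hp hq hpq h1 h2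
  obtain ⟨g0, gX⟩ := N1_gl hp hq hpq h1 h2
  have hX2 : 2 ≤ x1 + x2 := by linarith
  have hx1 : 1 ≤ x1 := by linarith
  have hx2 : 1 ≤ x2 := by linarith
  have hmsq : mix p q x1 x2 0 ^ 2 = p ^ 2 * x1 ^ 2 + q ^ 2 * x2 ^ 2 := by
    unfold mix
    rw [Real.sq_sqrt (by positivity)]
    ring
  have hww : ∀ x : ℝ, 1 ≤ x → ww x = 0 := by
    intro x hx
    unfold ww
    rw [max_eq_left (by linarith)]
    ring
  have hen : en p q x1 x2 0 = x1 ^ 2 + x2 ^ 2 := by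
    unfold en om
    rw [hww _ hm, hww x1 hx1, hww x2 hx2]
    ring
  have hbb : ∀ x : ℝ, 1 ≤ x → bb x = 1 / x ^ 2 := fun x hx => by
    unfold bb
    rw [if_pos hx]
  have hBeq : bd p q x1 x2 = 1 / x1 ^ 2 + 1 / x2 ^ 2 - 1 / mix p q x1 x2 0 ^ 2 := by
    unfold bd
    rw [hbb _ hm, hbb x1 hx1, hbb x2 hx2]
  rw [hen, hBeq]
  have hBD := N1_B hpq hx1 hx2 hm hmsq
  have hm0 : 0 < mix p q x1 x2 0 := by linarith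
  have hD0 : 0 < x1 ^ 2 * x2 ^ 2 * mix p q x1 x2 0 ^ 2 :=
    mul_pos (mul_pos (pow_pos (by linarith) 2) (pow_pos (by linarith) 2)) (pow_pos hm0 2)
  have hB0 : 0 ≤ 1 / x1 ^ 2 + 1 / x2 ^ 2 - 1 / mix p q x1 x2 0 ^ 2 := by
    by_contra hneg
    have h3 := mul_neg_of_neg_of_pos (lt_of_not_ge hneg) hD0
    have h4 := sq_nonneg (p * x1 ^ 2 - q * x2 ^ 2)
    linarith
  have hB2 : 1 / x1 ^ 2 + 1 / x2 ^ 2 - 1 / mix p q x1 x2 0 ^ 2 ≤ 2 := by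
    have c1 := N1_inv hx1
    have c2 := N1_inv hx2
    have c3 : 0 ≤ 1 / mix p q x1 x2 0 ^ 2 := div_nonneg zero_le_one (sq_nonneg _)
    linarith
  exact N1_fin g0 gX hX2 hB0 hB2 (N1_key hX2 rfl rfl hD0 (N1_D (by linarith) a1 a2 hm) hBD
    (N1_sq hpq h1 h2)) hsl

end Pool.Agent.Helper19.SR
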