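import Pool.Agent.Helper19.SR.St

/-!
# SR: module N2 (the balanced case with `mix < 1 ≤ x1, x2`)
-/

set_option autoImplicit false

namespace Pool.Agent.Helper19.SR

open Real Finset MeasureTheory
open Pool.Agent.Helper77.Steiner

theorem N2_B0 {p q x1 x2 m X : ℝ} (hpq : p + q = 1) (hX : X = x1 + x2) (hx1 : 0 < x1)
    (hx2 : 0 < x2) (hm : 3 / 5 ≤ m) (hm2 : m ^ 2 = p ^ 2 * x1 ^ 2 + q ^ 2 * x2 ^ 2) (hX2 : 2 ≤ X)
    (h1 : 9 / 20 * X ≤ x1) (h2 : 9 / 20 * X ≤ x2) :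
    X * (1 / x1 ^ 2 + 1 / x2 ^ 2 - 1 / m ^ 2) ≤
      17 * (x1 - x2) ^ 2 + 68 * ((p - 1 / 2) ^ 2 * X ^ 2) := by
  have hm0 : 0 < m := by linarith
  have hX0 : 0 < X := by linarith
  have hid : 1 / x1 ^ 2 + 1 / x2 ^ 2 - 1 / m ^ 2 =
      (p * x1 ^ 2 - q * x2 ^ 2) ^ 2 / (x1 ^ 2 * x2 ^ 2 * m ^ 2) := by
    have hq : q = 1 - p := by linarith
    rw [eq_div_iff (by positivity)]
    have e1 : (1 / x1 ^ 2 + 1 / x2 ^ 2 - 1 / m ^ 2) * (x1 ^ 2 * x2 ^ 2 * m ^ 2) =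
        (x1 ^ 2 + x2 ^ 2) * m ^ 2 - x1 ^ 2 * x2 ^ 2 := by
      field_simp
      ring
    rw [e1, hm2, hq]
    ring
  rw [hid, ← mul_div_assoc, div_le_iff₀ (by positivity)]
  set S : ℝ := (x1 - x2) ^ 2 / 2 + 2 * ((p - 1 / 2) ^ 2 * X ^ 2) with hS
  have hS0 : 0 ≤ S := by positivity
  have hN : (p * x1 ^ 2 - q * x2 ^ 2) ^ 2 ≤ X ^ 2 * S := by
    have e1 : p * x1 ^ 2 - q * x2 ^ 2 =
        (x1 - x2) * X / 2 + (p - 1 / 2) * (x1 ^ 2 + x2 ^ 2) := by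
      rw [hX]
      have hq : q = 1 - p := by linarith
      rw [hq]; ring
    have e2 : (p * x1 ^ 2 - q * x2 ^ 2) ^ 2 ≤
        2 * (((x1 - x2) * X / 2) ^ 2 + ((p - 1 / 2) * (x1 ^ 2 + x2 ^ 2)) ^ 2) := by
      rw [e1]
      nlinarith [sq_nonneg ((x1 - x2) * X / 2 - (p - 1 / 2) * (x1 ^ 2 + x2 ^ 2))]
    have e3 : (x1 ^ 2 + x2 ^ 2) ^ 2 ≤ (X ^ 2) ^ 2 := by
      apply pow_le_pow_left₀ (by positivity)
      rw [hX]
      nlinarith [mul_pos hx1 hx2]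
    have e4 : ((p - 1 / 2) * (x1 ^ 2 + x2 ^ 2)) ^ 2 ≤ (p - 1 / 2) ^ 2 * (X ^ 2) ^ 2 := by
      rw [mul_pow]
      exact mul_le_mul_of_nonneg_left e3 (sq_nonneg _)
    have e5 : X ^ 2 * S = 2 * (((x1 - x2) * X / 2) ^ 2 + (p - 1 / 2) ^ 2 * (X ^ 2) ^ 2) := by
      rw [hS]; ring
    rw [e5]
    linarith
  have hden : X ^ 3 ≤ 34 * (x1 ^ 2 * x2 ^ 2 * m ^ 2) := by
    have f1 : (9 / 20 * X) * (9 / 20 * X) ≤ x1 * x2 :=
      mul_le_mul h1 h2 (by positivity) hx1.le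
    have f2 : ((9 / 20 * X) * (9 / 20 * X)) ^ 2 ≤ (x1 * x2) ^ 2 :=
      pow_le_pow_left₀ (by positivity) f1 2
    have f3 : (3 / 5 : ℝ) ^ 2 ≤ m ^ 2 := pow_le_pow_left₀ (by norm_num) hm 2
    have f4 : ((9 / 20 * X) * (9 / 20 * X)) ^ 2 * (3 / 5 : ℝ) ^ 2 ≤ (x1 * x2) ^ 2 * m ^ 2 :=
      mul_le_mul f2 f3 (by positivity) (by positivity)
    have f5 : X ^ 3 * 2 ≤ X ^ 3 * X := mul_le_mul_of_nonneg_left hX2 (by positivity)
    have f6 : ((9 / 20 * X) * (9 / 20 * X)) ^ 2 * (3 / 5 : ℝ) ^ 2 = 59049 / 4000000 * (X ^ 3 * X) := by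
      ring
    have f7 : x1 ^ 2 * x2 ^ 2 * m ^ 2 = (x1 * x2) ^ 2 * m ^ 2 := by ring
    have f8 : 0 < X ^ 3 := pow_pos hX0 3
    rw [f6] at f4
    rw [f7]
    linarith
  have hfin : X * (X ^ 2 * S) ≤ 34 * S * (x1 ^ 2 * x2 ^ 2 * m ^ 2) := by
    have h3 := mul_le_mul_of_nonneg_left hden hS0
    have f9 : X * (X ^ 2 * S) = S * X ^ 3 := by ring
    rw [f9]
    linarith
  calc X * (p * x1 ^ 2 - q * x2 ^ 2) ^ 2 ≤ X * (X ^ 2 * S) :=
        mul_le_mul_of_nonneg_left hN hX0.le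
    _ ≤ 34 * S * (x1 ^ 2 * x2 ^ 2 * m ^ 2) := hfin
    _ = _ := by rw [hS]; ring

theorem N2_m {m : ℝ} (h1 : 3 / 5 ≤ m) (h2 : m < 1) : 1 / m ^ 2 ≤ 1 + 2 * (1 - m) + 9 * (1 - m) ^ 2 := by
  have hm0 : 0 < m := by linarith
  rw [div_le_iff₀ (by positivity)]
  obtain ⟨u, hu⟩ : ∃ u : ℝ, u = 1 - m := ⟨_, rfl⟩
  have hm : m = 1 - u := by linarith
  have hu0 : 0 < u := by linarith
  have hu1 : u ≤ 2 / 5 := by linarith
  subst hm
  have e : (1 + 2 * (1 - (1 - u)) + 9 * (1 - (1 - u)) ^ 2) * (1 - u) ^ 2 - 1 =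
      u ^ 2 * (6 - 16 * u + 9 * u ^ 2) := by ring
  have h3 : 0 ≤ 6 - 16 * u + 9 * u ^ 2 := by nlinarith
  nlinarith [mul_nonneg (sq_nonneg u) h3]

/-- **N2.** -/
theorem hN2 (hBB : StBB) (hSl : StSl) (hNear : StNear) : StN2 := by
  intro p q x1 x2 hp hq hpq hx1 hx2 hne hmix h11 h12
  obtain ⟨-, -, -, -, -, -, hbm⟩ := hBB
  obtain ⟨-, n1, n2, -, -, n5, n6⟩ := hNear p q x1 x2 hp hq hpq hx1 hx2 hne
  have hSl' := hSl p q x1 x2 hp hq hpq hx1 hx2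
  set m : ℝ := mix p q x1 x2 0 with hmd
  obtain ⟨X, hX⟩ : ∃ X : ℝ, X = x1 + x2 := ⟨_, rfl⟩
  rw [← hX] at n1 n2 n5 n6 hSl'
  have hX2 : 2 ≤ X := by linarith
  have hm35 : 3 / 5 ≤ m := by linarith
  have hm0 : 0 < m := by linarith
  have hX34 : X ≤ 17 / 5 := by linarith
  have hm2 : m ^ 2 = p ^ 2 * x1 ^ 2 + q ^ 2 * x2 ^ 2 := by
    rw [hmd]
    unfold mix
    rw [Real.sq_sqrt (by positivity)]
    ring
  have hpq1 : 0 < p * q := mul_pos hp hq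
  have hpq4 : p * q ≤ 1 / 4 := by nlinarith [sq_nonneg (p - q)]
  obtain ⟨u, hu⟩ : ∃ u : ℝ, u = 1 - m := ⟨_, rfl⟩
  -- the debt
  have hbd : bd p q x1 x2 ≤ (1 / x1 ^ 2 + 1 / x2 ^ 2 - 1 / m ^ 2) + 109 * u ^ 2 := by
    unfold bd
    rw [← hmd]
    have b1 : bb x1 = 1 / x1 ^ 2 := by unfold bb; rw [if_pos h11]
    have b2 : bb x2 = 1 / x2 ^ 2 := by unfold bb; rw [if_pos h12]
    have b3 := hbm m hmix.le
    have b4 := N2_m hm35 hmix
    rw [b1, b2, hu]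
    linarith
  have hbd2 : bd p q x1 x2 ≤ 2 := by
    unfold bd
    have b1 : bb x1 = 1 / x1 ^ 2 := by unfold bb; rw [if_pos h11]
    have b2 : bb x2 = 1 / x2 ^ 2 := by unfold bb; rw [if_pos h12]
    have b3 : (0 : ℝ) ≤ bb (mix p q x1 x2 0) := by
      unfold bb
      split_ifs
      · positivity
      · exact le_max_left _ _
    have b4 : 1 / x1 ^ 2 ≤ 1 := by
      rw [div_le_one (by positivity)]; exact one_le_pow₀ h11
    have b5 : 1 / x2 ^ 2 ≤ 1 := by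
      rw [div_le_one (by positivity)]; exact one_le_pow₀ h12
    rw [b1, b2]
    linarith
  -- the right side
  have hom : 3 * (ch * u ^ 2) ≤ (1 - p * q) * om p q x1 x2 0 := by
    unfold om
    rw [← hmd]
    have w1 : ww x1 = 0 := by
      unfold ww
      rw [max_eq_left (by linarith)]; ring
    have w2 : ww x2 = 0 := by
      unfold ww
      rw [max_eq_left (by linarith)]; ring
    have w3 : ww m = ch * u ^ 2 := by
      unfold ww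
      rw [max_eq_right (by linarith), hu]
    rw [w1, w2, w3, ← mul_div_assoc, le_div_iff₀ hpq1]
    have hc : 0 ≤ ch * u ^ 2 := by unfold ch; positivity
    have h9 : p * q * (ch * u ^ 2) ≤ 1 / 4 * (ch * u ^ 2) := mul_le_mul_of_nonneg_right hpq4 hc
    have h10 : (1 - p * q) * (ch * u ^ 2 - p * 0 - q * 0) = ch * u ^ 2 - p * q * (ch * u ^ 2) := by
      ring
    have h11' : 3 * (ch * u ^ 2) * (p * q) = 3 * (p * q * (ch * u ^ 2)) := by ring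
    rw [h10, h11']
    linarith
  have hcst : 1 ≤ cst ^ 2 / 2 := by
    have h1 := cst_sq
    have h2 : √2 ≤ 3 / 2 := by
      rw [Real.sqrt_le_left (by norm_num)]; norm_num
    linarith
  have hom0 : 0 ≤ (1 - p * q) * om p q x1 x2 0 := by
    refine le_trans ?_ hom
    unfold ch
    positivity
  have hR : gl p q x1 x2 ^ 2 + (1 / 50 * (x1 - x2) ^ 2 + 1 / 40 * (p - 1 / 2) ^ 2 * X ^ 2) +
      3 * (ch * u ^ 2) ≤ cst ^ 2 / 2 * (1 - p * q) * en p q x1 x2 0 := by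
    have e1 : cst ^ 2 / 2 * (1 - p * q) * en p q x1 x2 0 =
        cst ^ 2 / 2 * (1 - p * q) * (x1 ^ 2 + x2 ^ 2) +
          cst ^ 2 / 2 * ((1 - p * q) * om p q x1 x2 0) := by
      unfold en; ring
    rw [e1]
    have e2 : 1 * ((1 - p * q) * om p q x1 x2 0) ≤
        cst ^ 2 / 2 * ((1 - p * q) * om p q x1 x2 0) := mul_le_mul_of_nonneg_right hcst hom0
    linarith
  refine le_trans ?_ hR
  -- the left side
  have hs1 : √2 / 2 ≤ 1 := by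
    have h2 : √2 ≤ 3 / 2 := by
      rw [Real.sqrt_le_left (by norm_num)]; norm_num
    linarith
  have hs0 : 0 ≤ √2 / 2 := by positivity
  have hp1 : p ≤ 1 := by linarith
  have hq1 : q ≤ 1 := by linarith
  have ha : 0 ≤ p * (√2 / 2) ∧ p * (√2 / 2) ≤ 1 := ⟨by positivity, mul_le_one₀ hp1 hs0 hs1⟩
  have hb : 0 ≤ q * (√2 / 2) ∧ q * (√2 / 2) ≤ 1 := ⟨by positivity, mul_le_one₀ hq1 hs0 hs1⟩
  have hg0 : 0 ≤ gl p q x1 x2 := by
    unfold gl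
    have := mul_nonneg hx1 (sub_nonneg.2 ha.2)
    have := mul_nonneg hx2 (sub_nonneg.2 hb.2)
    linarith
  have hgX : gl p q x1 x2 ≤ X := by
    unfold gl
    have := mul_nonneg hx1 ha.1
    have := mul_nonneg hx2 hb.1
    rw [hX]
    linarith
  set g : ℝ := gl p q x1 x2 with hg
  set B : ℝ := bd p q x1 x2 with hB
  have hch : 0 ≤ 3 * (ch * u ^ 2) := by unfold ch; positivity
  have hsl0 : 0 ≤ 1 / 50 * (x1 - x2) ^ 2 + 1 / 40 * (p - 1 / 2) ^ 2 * X ^ 2 := by positivity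
  rcases le_or_gt B 0 with hB0 | hB0
  · have h1 : max 0 (g + eh * B) ≤ g := by
      apply max_le hg0
      have : eh * B ≤ 0 := mul_nonpos_of_nonneg_of_nonpos (by unfold eh; norm_num) hB0
      linarith
    have h2 : (max 0 (g + eh * B)) ^ 2 ≤ g ^ 2 := pow_le_pow_left₀ (le_max_left _ _) h1 2
    linarith
  · have heh : 0 < eh := by unfold eh; norm_num
    have h1 : max 0 (g + eh * B) = g + eh * B := max_eq_right (by positivity)
    rw [h1]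
    have hB0' := N2_B0 hpq hX (by linarith) (by linarith) hm35 hm2 hX2 n1 n2
    have h2 : X * B ≤ 17 * (x1 - x2) ^ 2 + 68 * ((p - 1 / 2) ^ 2 * X ^ 2) + 371 * u ^ 2 := by
      have h3 : X * B ≤ X * ((1 / x1 ^ 2 + 1 / x2 ^ 2 - 1 / m ^ 2) + 109 * u ^ 2) :=
        mul_le_mul_of_nonneg_left hbd (by linarith)
      have h4 : X * u ^ 2 ≤ 17 / 5 * u ^ 2 := mul_le_mul_of_nonneg_right hX34 (sq_nonneg u)
      have e4 : X * ((1 / x1 ^ 2 + 1 / x2 ^ 2 - 1 / m ^ 2) + 109 * u ^ 2) =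
          X * (1 / x1 ^ 2 + 1 / x2 ^ 2 - 1 / m ^ 2) + 109 * (X * u ^ 2) := by ring
      rw [e4] at h3
      have k3 : 0 ≤ u ^ 2 := sq_nonneg _
      linarith
    have h3 : (g + eh * B) ^ 2 ≤ g ^ 2 + 3 * eh * (X * B) := by
      have h4 : g * B ≤ X * B := mul_le_mul_of_nonneg_right hgX hB0.le
      have h5 : eh * B ≤ X := by
        have : eh * B ≤ 1 * 2 := mul_le_mul (by unfold eh; norm_num) hbd2 hB0.le (by norm_num)
        linarith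
      have h6 : eh * B * (eh * B) ≤ X * (eh * B) :=
        mul_le_mul_of_nonneg_right h5 (by positivity)
      have h7 : eh * (g * B) ≤ eh * (X * B) := mul_le_mul_of_nonneg_left h4 heh.le
      have e5 : (g + eh * B) ^ 2 = g ^ 2 + 2 * (eh * (g * B)) + eh * B * (eh * B) := by ring
      have e6 : X * (eh * B) = eh * (X * B) := by ring
      have e7 : 3 * eh * (X * B) = 3 * (eh * (X * B)) := by ring
      rw [e5, e7]
      rw [e6] at h6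
      linarith
    have h4 : 3 * eh * (X * B) ≤ 3 * eh * (17 * (x1 - x2) ^ 2 + 68 * ((p - 1 / 2) ^ 2 * X ^ 2) +
        371 * u ^ 2) := mul_le_mul_of_nonneg_left h2 (by positivity)
    have h5 : 3 * eh * (17 * (x1 - x2) ^ 2 + 68 * ((p - 1 / 2) ^ 2 * X ^ 2) + 371 * u ^ 2) ≤
        (1 / 50 * (x1 - x2) ^ 2 + 1 / 40 * (p - 1 / 2) ^ 2 * X ^ 2) + 3 * (ch * u ^ 2) := by
      unfold eh ch
      have k1 : 0 ≤ (x1 - x2) ^ 2 := sq_nonneg _
      have k2 : 0 ≤ (p - 1 / 2) ^ 2 * X ^ 2 := by positivity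
      have k3 : 0 ≤ u ^ 2 := sq_nonneg _
      have e8 : 1 / 40 * (p - 1 / 2) ^ 2 * X ^ 2 = 1 / 40 * ((p - 1 / 2) ^ 2 * X ^ 2) := by ring
      rw [e8]
      generalize (x1 - x2) ^ 2 = a at k1 ⊢
      generalize (p - 1 / 2) ^ 2 * X ^ 2 = b at k2 ⊢
      generalize u ^ 2 = c at k3 ⊢
      linarith
    linarith

end Pool.Agent.Helper19.SR
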