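import Pool.Agent.Helper19.SR.St

/-!
# SR, module N3: the balanced case with a small coordinate
-/

set_option autoImplicit false

namespace Pool.Agent.Helper19.SR

open Real Finset MeasureTheory
open Pool.Agent.Helper77.Steiner

private theorem N3_ww_anti {m x : ℝ} (h : m ≤ x) : ww x ≤ ww m := by
  unfold ww ch
  have h1 : (0 : ℝ) ≤ max 0 (1 - x) := le_max_left _ _
  have h2 : max 0 (1 - x) ≤ max 0 (1 - m) := max_le_max le_rfl (by linarith)
  have h3 := pow_le_pow_left₀ h1 h2 2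
  linarith

private theorem N3_ww_gap {m x : ℝ} (hm : m ≤ 22 / 25) (h : m + 2 / 25 ≤ x) :
    9 / 1000 * ch ≤ ww m - ww x := by
  have h0 := N3_ww_anti h
  have h1 : ww m = ch * (1 - m) ^ 2 := by
    unfold ww; rw [max_eq_right (by linarith)]
  have h2 : ww (m + 2 / 25) = ch * (1 - (m + 2 / 25)) ^ 2 := by
    unfold ww; rw [max_eq_right (by linarith)]
  have h3 : 9 / 1000 * ch ≤ ch * (1 - m) ^ 2 - ch * (1 - (m + 2 / 25)) ^ 2 := by
    unfold ch
    nlinarith
  rw [← h1, ← h2] at h3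
  linarith

private theorem N3_om {p q x1 x2 c : ℝ} (hp : 0 < p) (hq : 0 < q) (hpq : p + q = 1) (hc : 0 ≤ c)
    (h1 : c ≤ ww (mix p q x1 x2 0) - ww x1) (h2 : c ≤ ww (mix p q x1 x2 0) - ww x2) :
    4 * c ≤ om p q x1 x2 0 := by
  unfold om
  have hpq4 : p * q ≤ 1 / 4 := by nlinarith [sq_nonneg (p - q)]
  have hpq0 : 0 < p * q := mul_pos hp hq
  rw [le_div_iff₀ hpq0]
  have h3 : 4 * c * (p * q) ≤ c := by nlinarith
  have h4 := mul_le_mul_of_nonneg_left h1 hp.le
  have h5 := mul_le_mul_of_nonneg_left h2 hq.le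
  have h6 : p * (ww (mix p q x1 x2 0) - ww x1) + q * (ww (mix p q x1 x2 0) - ww x2) =
      (p + q) * ww (mix p q x1 x2 0) - p * ww x1 - q * ww x2 := by ring
  rw [hpq, one_mul] at h6
  have h7 : p * c + q * c = c := by rw [← add_mul, hpq, one_mul]
  linarith

private theorem N3_gl {p q x1 x2 : ℝ} (hp : 0 < p) (hq : 0 < q) (hpq : p + q = 1) (h1 : 0 ≤ x1)
    (h2 : 0 ≤ x2) : 0 ≤ gl p q x1 x2 ∧ gl p q x1 x2 ≤ x1 + x2 := by
  unfold gl
  have hs0 : 0 ≤ √2 := Real.sqrt_nonneg _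
  have hs : √2 ≤ 2 := by
    rw [Real.sqrt_le_left (by norm_num)]; norm_num
  have a1 : 0 ≤ p * (√2 / 2) := by positivity
  have a2 : 0 ≤ q * (√2 / 2) := by positivity
  have b1 : p * (√2 / 2) ≤ 1 := by nlinarith
  have b2 : q * (√2 / 2) ≤ 1 := by nlinarith
  constructor
  · exact add_nonneg (mul_nonneg h1 (by linarith)) (mul_nonneg h2 (by linarith))
  · have c1 := mul_le_mul_of_nonneg_left (by linarith : 1 - p * (√2 / 2) ≤ 1) h1
    have c2 := mul_le_mul_of_nonneg_left (by linarith : 1 - q * (√2 / 2) ≤ 1) h2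
    linarith

private theorem N3_cst {p q : ℝ} (hp : 0 < p) (hq : 0 < q) (hpq : p + q = 1) :
    4 / 5 ≤ cst ^ 2 / 2 * (1 - p * q) := by
  have hpq4 : p * q ≤ 1 / 4 := by nlinarith [sq_nonneg (p - q)]
  have hs2 : √2 ≤ 142 / 100 := by
    rw [Real.sqrt_le_left (by norm_num)]; norm_num
  rw [cst_sq]
  have h1 : (16 : ℝ) / 15 ≤ 3 - 4 * √2 / 3 := by linarith
  nlinarith

theorem hN3 (hBB : StBB) (hSl : StSl) (hNear : StNear) : StN3 := by
  intro p q x1 x2 hp hq hpq h1 h2 hn hlt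
  obtain ⟨_, n1, n2, n3, n4, _, n6⟩ := hNear p q x1 x2 hp hq hpq h1 h2 hn
  obtain ⟨b1, b2, _, b4, _, _, _⟩ := hBB
  have hsl := hSl p q x1 x2 hp hq hpq h1 h2
  obtain ⟨g0, g1⟩ := N3_gl hp hq hpq h1 h2
  have hcst := N3_cst hp hq hpq
  have hslack : 0 ≤ 1 / 50 * (x1 - x2) ^ 2 + 1 / 40 * (p - 1 / 2) ^ 2 * (x1 + x2) ^ 2 := by
    positivity
  set m := mix p q x1 x2 0 with hm
  set g := gl p q x1 x2 with hg
  set K := cst ^ 2 / 2 * (1 - p * q) with hK
  have hX : x1 + x2 < 20 / 9 := by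
    rcases hlt with h | h <;> linarith
  have hm22 : m ≤ 22 / 25 := by linarith
  have hbm : bb m = 0 := b4 m hm22
  have hB : bd p q x1 x2 = bb x1 + bb x2 := by
    unfold bd
    rw [← hm, hbm, sub_zero]
  have hX0 : 0 ≤ x1 + x2 := by linarith
  have hmx1 : m ≤ x1 := by linarith
  have hmx2 : m ≤ x2 := by linarith
  have hen : en p q x1 x2 0 = x1 ^ 2 + x2 ^ 2 + om p q x1 x2 0 := by
    unfold en; ring
  rw [hen, hB]
  by_cases hcase : x1 ≤ 22 / 25 ∧ x2 ≤ 22 / 25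
  · rw [b4 x1 hcase.1, b4 x2 hcase.2, add_zero, mul_zero, add_zero, max_eq_right g0]
    have hom := N3_om (c := 0) hp hq hpq le_rfl
      (by have := N3_ww_anti hmx1; rw [← hm]; linarith)
      (by have := N3_ww_anti hmx2; rw [← hm]; linarith)
    have h3 : 0 ≤ K * om p q x1 x2 0 := mul_nonneg (by linarith) (by linarith)
    calc g ^ 2 ≤ K * (x1 ^ 2 + x2 ^ 2) := by linarith
      _ ≤ K * (x1 ^ 2 + x2 ^ 2 + om p q x1 x2 0) := by rw [mul_add]; linarith
  · have hX16 : 8 / 5 ≤ x1 + x2 := by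
      by_contra hcon
      push Not at hcon
      apply hcase
      constructor <;> linarith
    have hom := N3_om (c := 9 / 1000 * ch) hp hq hpq (by unfold ch; norm_num)
      (by rw [← hm]; exact N3_ww_gap hm22 (by linarith))
      (by rw [← hm]; exact N3_ww_gap hm22 (by linarith))
    set b := bb x1 + bb x2 with hb
    have hb0 : 0 ≤ b := add_nonneg (b1 x1) (b1 x2)
    have hb4 : b ≤ 4 := by have := b2 x1; have := b2 x2; linarith
    have he : (0 : ℝ) < eh := by unfold eh; norm_num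
    have heb : 0 ≤ g + eh * b := add_nonneg g0 (mul_nonneg he.le hb0)
    rw [max_eq_right heb]
    have h3 : g * b ≤ 20 / 9 * 4 := mul_le_mul (by linarith) hb4 hb0 (by norm_num)
    have h4 : b * b ≤ 4 * 4 := mul_le_mul hb4 hb4 hb0 (by norm_num)
    have h5 : (g + eh * b) ^ 2 ≤ g ^ 2 + 18 * eh := by
      have e1 : (g + eh * b) ^ 2 = g ^ 2 + 2 * eh * (g * b) + eh * eh * (b * b) := by ring
      rw [e1]
      have h6 : 2 * eh * (g * b) ≤ 2 * eh * (20 / 9 * 4) :=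
        mul_le_mul_of_nonneg_left h3 (by linarith)
      have h7 : eh * eh * (b * b) ≤ eh * eh * (4 * 4) :=
        mul_le_mul_of_nonneg_left h4 (mul_nonneg he.le he.le)
      have h8 : eh * eh * (4 * 4) ≤ eh * (1 / 1000) := by
        unfold eh; norm_num
      linarith
    have h9 : 18 * eh ≤ K * om p q x1 x2 0 := by
      have h10 : 4 / 5 * (4 * (9 / 1000 * ch)) ≤ K * om p q x1 x2 0 :=
        mul_le_mul hcst hom (by unfold ch; norm_num) (by linarith)
      refine le_trans ?_ h10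
      unfold eh ch
      norm_num
    calc (g + eh * b) ^ 2 ≤ g ^ 2 + 18 * eh := h5
      _ ≤ K * (x1 ^ 2 + x2 ^ 2) + K * om p q x1 x2 0 := by linarith
      _ = K * (x1 ^ 2 + x2 ^ 2 + om p q x1 x2 0) := by ring

end Pool.Agent.Helper19.SR
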