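import Pool.Agent.Helper19.SR.St

set_option autoImplicit false

namespace Pool.Agent.Helper19.SR

open Real Finset MeasureTheory
open Pool.Agent.Helper77.Steiner

theorem hNear : StNear := by
  intro p q x1 x2 hp hq hpq hx1 hx2 h
  have hX0 : 0 ≤ x1 + x2 := by linarith
  have hXpos : 0 < x1 + x2 := by
    rcases hX0.lt_or_eq with h' | h'
    · exact h'
    · rw [← h'] at h
      have : 0 ≤ (x1 - x2) ^ 2 := sq_nonneg _
      nlinarith
  obtain ⟨X, hX⟩ : ∃ X, X = x1 + x2 := ⟨_, rfl⟩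
  obtain ⟨D, hD⟩ : ∃ D, D = x1 - x2 := ⟨_, rfl⟩
  obtain ⟨e, he⟩ : ∃ e, e = p - 1 / 2 := ⟨_, rfl⟩
  rw [← hX] at hX0 hXpos
  rw [← hX, ← hD, ← he] at h
  rw [← hX, ← he]
  have hX2 : 0 < X ^ 2 := by positivity
  have he2 : e ^ 2 < 1 / 125 := by
    by_contra hcon
    rw [not_lt] at hcon
    have h1 := mul_le_mul_of_nonneg_right hcon hX2.le
    have h2 : 0 ≤ D ^ 2 := sq_nonneg D
    nlinarith
  have hD2 : D ^ 2 ≤ (X / 10) ^ 2 := by
    have h2 : 0 ≤ e ^ 2 * X ^ 2 := by positivity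
    nlinarith
  have hDabs : |D| ≤ X / 10 := abs_le_of_sq_le_sq hD2 (by positivity)
  rw [abs_le] at hDabs
  have hx1' : x1 = (X + D) / 2 := by rw [hX, hD]; ring
  have hx2' : x2 = (X - D) / 2 := by rw [hX, hD]; ring
  have b1 : 9 / 20 * X ≤ x1 := by rw [hx1']; linarith
  have b2 : 9 / 20 * X ≤ x2 := by rw [hx2']; linarith
  have b3 : x1 ≤ 11 / 20 * X := by rw [hx1']; linarith
  have b4 : x2 ≤ 11 / 20 * X := by rw [hx2']; linarith
  have c1 : (9 / 20 * X) ^ 2 ≤ x1 ^ 2 := pow_le_pow_left₀ (by positivity) b1 2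
  have c2 : (9 / 20 * X) ^ 2 ≤ x2 ^ 2 := pow_le_pow_left₀ (by positivity) b2 2
  have c3 : x1 ^ 2 ≤ (11 / 20 * X) ^ 2 := pow_le_pow_left₀ hx1 b3 2
  have c4 : x2 ^ 2 ≤ (11 / 20 * X) ^ 2 := pow_le_pow_left₀ hx2 b4 2
  have hpe : p = 1 / 2 + e := by rw [he]; ring
  have hqe : q = 1 / 2 - e := by rw [he]; linarith
  have hpq2 : p ^ 2 + q ^ 2 = 1 / 2 + 2 * e ^ 2 := by rw [hpe, hqe]; ring
  have hms : mix p q x1 x2 0 = √(p ^ 2 * x1 ^ 2 + q ^ 2 * x2 ^ 2) := by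
    unfold mix
    congr 1
    ring
  refine ⟨by linarith, b1, b2, b3, b4, ?_, ?_⟩
  · rw [hms]
    apply Real.le_sqrt_of_sq_le
    have d1 := mul_le_mul_of_nonneg_left c1 (sq_nonneg p)
    have d2 := mul_le_mul_of_nonneg_left c2 (sq_nonneg q)
    have d3 : (1 / 2) * (9 / 20 * X) ^ 2 ≤ (p ^ 2 + q ^ 2) * (9 / 20 * X) ^ 2 := by
      apply mul_le_mul_of_nonneg_right _ (sq_nonneg _)
      rw [hpq2]
      nlinarith [sq_nonneg e]
    nlinarith
  · rw [hms]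
    apply Real.sqrt_le_iff.2 ⟨by positivity, _⟩
    have d1 := mul_le_mul_of_nonneg_left c3 (sq_nonneg p)
    have d2 := mul_le_mul_of_nonneg_left c4 (sq_nonneg q)
    have d3 : (p ^ 2 + q ^ 2) * (11 / 20 * X) ^ 2 ≤ (1 / 2 + 2 / 125) * (11 / 20 * X) ^ 2 := by
      apply mul_le_mul_of_nonneg_right _ (sq_nonneg _)
      rw [hpq2]
      linarith
    nlinarith

end Pool.Agent.Helper19.SR
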