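import Pool.Agent.Helper19.SR.St

set_option autoImplicit false

namespace Pool.Agent.Helper19.SR

open Real Finset MeasureTheory Classical
open Pool.Agent.Helper77.Steiner

section Nets

variable {ι : Type} [Fintype ι] [DecidableEq ι] {E : Type} [NormedAddCommGroup E]
  [InnerProductSpace ℝ E] {a : ι → E} (L : Lev a) (N : ℝ)

/-- the corrected energy -/
noncomputable def Net_U (μ : ι → ℝ) : ℝ :=
  ∑ j ∈ range L.K, (L.t (j + 1) ^ 2 - L.t j ^ 2) *
    (1 - L.q j μ μ + ww (N * √(L.q j μ μ)) / N ^ 2)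

/-- the corrected potential -/
noncomputable def Net_P (μ : ι → ℝ) (B : Finset ι) : ℝ :=
  ∑ j ∈ range L.K, (L.t (j + 1) - L.t j) *
    (((L.ncl j B : ℝ) * HH N - HH (N * √(L.q j μ μ))) / N)

/-- the inequality between the energy and the variance -/
def Net_UV : Prop := ∀ μ : ι → ℝ, (∀ x, 0 ≤ μ x) → ∑ x, μ x = 1 → Net_U L N μ ≤ Lev.V a μ

/-- States. -/
def Net_Good (r : E) (W : ℝ) (B : Finset ι) : Prop :=
  ∃ (μ : ι → ℝ) (α Q : ℝ), 0 < α ∧ (∀ x, 0 ≤ μ x) ∧ ∑ x, μ x = 1 ∧ (∀ x, x ∉ B → μ x = 0) ∧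
    Q + 1 / α * ∑ x, μ x * ‖r - a x‖ ^ 2 ≤ W ∧
    2 / cst * Net_P L N μ B ≤ Q - α + 1 / (2 * α) * Net_U L N μ

variable {L N}

lemma Net_ww_nonneg (x : ℝ) : 0 ≤ ww x := by
  unfold ww ch
  positivity

lemma Net_ww_one {x : ℝ} (h : 1 ≤ x) : ww x = 0 := by
  unfold ww
  rw [max_eq_left (by linarith)]
  simp

lemma Net_Good.mono {r : E} {W W' : ℝ} {B : Finset ι} (h : Net_Good L N r W B) (hW : W ≤ W') :
    Net_Good L N r W' B := by
  obtain ⟨μ, α, Q, h1, h2, h3, h4, h5, h6⟩ := h
  exact ⟨μ, α, Q, h1, h2, h3, h4, h5.trans hW, h6⟩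

lemma Net_good_leaf (hN : 5 ≤ N ^ 2) (hN0 : 0 ≤ N) (x : ι) {ε : ℝ} (hε : 0 < ε) :
    Net_Good L N (a x) ε {x} := by
  have hm : ∀ j c, L.mass j (fun y => if y = x then (1 : ℝ) else 0) c =
      if L.cls j x = c then 1 else 0 := by
    intro j c
    unfold Lev.mass
    rw [Finset.sum_eq_single x]
    · simp
    · intro y _ hy
      simp [hy]
    · simp
  have hq : ∀ j, L.q j (fun y => if y = x then (1 : ℝ) else 0)
      (fun y => if y = x then (1 : ℝ) else 0) = 1 := by
    intro j
    unfold Lev.q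
    simp_rw [hm]
    simp
  have hN1 : 1 ≤ N := by nlinarith
  refine ⟨fun y => if y = x then 1 else 0, ε, ε, hε, ?_, ?_, ?_, ?_, ?_⟩
  · intro y
    show (0 : ℝ) ≤ if y = x then 1 else 0
    split_ifs <;> norm_num
  · simp
  · intro y hy
    have : y ≠ x := by simpa using hy
    simp [this]
  · have : ∑ y, (if y = x then (1 : ℝ) else 0) * ‖a x - a y‖ ^ 2 = 0 := by
      apply sum_eq_zero
      intro y _
      by_cases h : y = x
      · simp [h]
      · simp [h]
    rw [this]
    simp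
  · unfold Net_U Net_P
    simp_rw [hq]
    simp [Lev.ncl, Net_ww_one hN1]

lemma Net_Good.extend (hUV : Net_UV L N) {r : E} {W : ℝ} {B : Finset ι}
    (h : Net_Good L N r W B) (r' : E) {l : ℝ}
    (hl : 0 < l) : Net_Good L N r' (W + l + 1 / l * ‖r - r'‖ ^ 2) B := by
  obtain ⟨μ, α, Q, h1, h2, h3, h4, h5, h6⟩ := h
  refine ⟨μ, α + l, Q + l + (1 / α - 1 / (α + l)) * (Net_U L N μ / 2), by positivity, h2, h3, h4,
    ?_, ?_⟩
  · rw [Lev.F_eq h3] at h5 ⊢
    set m := ∑ x, μ x • a x with hm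
    have hUV' := hUV μ h2 h3
    have ht := Lev.titu (u := ‖r - m‖) (v := ‖r - r'‖) h1 hl
    have htri : ‖r' - m‖ ≤ ‖r - m‖ + ‖r - r'‖ := by
      have : r' - m = (r - m) - (r - r') := by abel
      rw [this]
      exact norm_sub_le _ _
    have htri2 : ‖r' - m‖ ^ 2 ≤ (‖r - m‖ + ‖r - r'‖) ^ 2 :=
      pow_le_pow_left₀ (norm_nonneg _) htri 2
    have h7 : 1 / (α + l) * ‖r' - m‖ ^ 2 ≤ 1 / (α + l) * (‖r - m‖ + ‖r - r'‖) ^ 2 :=
      mul_le_mul_of_nonneg_left htri2 (by positivity)
    have h8 : 0 ≤ 1 / α - 1 / (α + l) := by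
      rw [sub_nonneg]
      exact one_div_le_one_div_of_le h1 (by linarith)
    have h9 : (1 / α - 1 / (α + l)) * (Net_U L N μ / 2) ≤
        (1 / α - 1 / (α + l)) * (Lev.V a μ / 2) :=
      mul_le_mul_of_nonneg_left (by linarith) h8
    nlinarith
  · have e : Q + l + (1 / α - 1 / (α + l)) * (Net_U L N μ / 2) - (α + l) +
        1 / (2 * (α + l)) * Net_U L N μ = Q - α + 1 / (2 * α) * Net_U L N μ := by
      field_simp
      ring
    rw [e]
    exact h6

/-- Moving a state costs twice the distance, up to `ε`. -/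
lemma Net_Good.move (hUV : Net_UV L N) {r : E} {W : ℝ} {B : Finset ι}
    (h : Net_Good L N r W B) (r' : E) {ε : ℝ}
    (hε : 0 < ε) : Net_Good L N r' (W + 2 * dist r r' + ε) B := by
  have h1 := h.extend hUV r' (l := dist r r' + ε) (by positivity)
  apply h1.mono
  rw [← dist_eq_norm]
  have hd : 0 ≤ dist r r' := dist_nonneg
  have : 1 / (dist r r' + ε) * dist r r' ^ 2 ≤ dist r r' := by
    rw [one_div, inv_mul_le_iff₀ (by positivity)]
    nlinarith
  linarith

/-- Merging two states. -/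
lemma Net_Good.merge (hMerge : StMerge) (hN : 5 ≤ N ^ 2) (hN0 : 0 < N) {r : E} {W1 W2 : ℝ}
    {B1 B2 : Finset ι} (h : Net_Good L N r W1 B1)
    (h' : Net_Good L N r W2 B2) : Net_Good L N r (W1 + W2) (B1 ∪ B2) := by
  obtain ⟨μ, α, Q, h1, h2, h3, h4, h5, h6⟩ := h
  obtain ⟨ν, β, R, g1, g2, g3, g4, g5, g6⟩ := h'
  set s := α + β with hs
  have hs0 : 0 < s := by positivity
  set p := β / s with hp
  set u := α / s with hu
  have hp0 : 0 < p := by positivity
  have hu0 : 0 < u := by positivity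
  have hpu : p + u = 1 := by
    rw [hp, hu, ← add_div, hs, add_comm β α]
    exact div_self (by positivity)
  refine ⟨fun x => p * μ x + u * ν x, α * β / s, Q + R, by positivity, ?_, ?_, ?_, ?_, ?_⟩
  · intro x
    have := h2 x
    have := g2 x
    positivity
  · rw [sum_add_distrib, ← mul_sum, ← mul_sum, h3, g3]
    linarith
  · intro x hx
    rw [mem_union, not_or] at hx
    show p * μ x + u * ν x = 0
    rw [h4 x hx.1, g4 x hx.2]
    ring
  · have e : 1 / (α * β / s) * ∑ x, (p * μ x + u * ν x) * ‖r - a x‖ ^ 2 =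
        1 / α * ∑ x, μ x * ‖r - a x‖ ^ 2 + 1 / β * ∑ x, ν x * ‖r - a x‖ ^ 2 := by
      rw [mul_sum, mul_sum, mul_sum, ← sum_add_distrib]
      apply sum_congr rfl
      intro x _
      rw [hp, hu]
      field_simp
    rw [e]
    linarith
  · have hq : ∀ j, L.q j (fun x => p * μ x + u * ν x) (fun x => p * μ x + u * ν x) =
        p ^ 2 * L.q j μ μ + u ^ 2 * L.q j ν ν + 2 * p * u * L.q j μ ν :=
      fun j => L.q_comb j p u μ ν
    have hsq1 : ∀ j, √(L.q j μ μ) ^ 2 = L.q j μ μ := fun j => Real.sq_sqrt (L.q_nonneg h2 h2 j)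
    have hsq2 : ∀ j, √(L.q j ν ν) ^ 2 = L.q j ν ν := fun j => Real.sq_sqrt (L.q_nonneg g2 g2 j)
    -- the coordinates
    obtain ⟨x1, hx1⟩ : ∃ x1 : ℕ → ℝ, ∀ j, x1 j = N * √(L.q j μ μ) := ⟨_, fun _ => rfl⟩
    obtain ⟨x2, hx2⟩ : ∃ x2 : ℕ → ℝ, ∀ j, x2 j = N * √(L.q j ν ν) := ⟨_, fun _ => rfl⟩
    obtain ⟨k, hk⟩ : ∃ k : ℕ → ℝ, ∀ j, k j = N ^ 2 * L.q j μ ν := ⟨_, fun _ => rfl⟩
    have hmix : ∀ j, N * √(L.q j (fun x => p * μ x + u * ν x) (fun x => p * μ x + u * ν x)) =
        mix p u (x1 j) (x2 j) (k j) := by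
      intro j
      unfold mix
      rw [hq, hx1, hx2, hk, mul_pow, mul_pow, hsq1, hsq2]
      have : p ^ 2 * (N ^ 2 * L.q j μ μ) + u ^ 2 * (N ^ 2 * L.q j ν ν) +
          2 * p * u * (N ^ 2 * L.q j μ ν) = N ^ 2 * (p ^ 2 * L.q j μ μ + u ^ 2 * L.q j ν ν +
            2 * p * u * L.q j μ ν) := by ring
      rw [this, Real.sqrt_mul (sq_nonneg N), Real.sqrt_sq hN0.le]
    set D := ∑ j ∈ range L.K, ((L.t (j + 1) / N) ^ 2 - (L.t j / N) ^ 2) *
      en p u (x1 j) (x2 j) (k j) with hD
    -- energy identity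
    have hen : (Q + R) - α * β / s + 1 / (2 * (α * β / s)) *
        Net_U L N (fun x => p * μ x + u * ν x) =
        (Q - α + 1 / (2 * α) * Net_U L N μ) + (R - β + 1 / (2 * β) * Net_U L N ν) +
          (s * (1 - p * u) + 1 / (2 * s) * D) := by
      have e1 : α * β / s = s * (p * u) := by
        rw [hp, hu]; field_simp
      have e2 : 1 / (2 * (α * β / s)) * Net_U L N (fun x => p * μ x + u * ν x) =
          1 / (2 * α) * Net_U L N μ + 1 / (2 * β) * Net_U L N ν + 1 / (2 * s) * D := by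
        rw [hD]
        unfold Net_U
        simp_rw [hmix]
        rw [mul_sum, mul_sum, mul_sum, mul_sum, ← sum_add_distrib, ← sum_add_distrib]
        apply sum_congr rfl
        intro j _
        rw [hq, ← hx1, ← hx2]
        unfold en om
        have hX1 : x1 j ^ 2 = N ^ 2 * L.q j μ μ := by rw [hx1, mul_pow, hsq1]
        have hX2 : x2 j ^ 2 = N ^ 2 * L.q j ν ν := by rw [hx2, mul_pow, hsq2]
        rw [hX1, hX2, hk]
        generalize ww (mix p u (x1 j) (x2 j) (N ^ 2 * L.q j μ ν)) = w0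
        generalize ww (x1 j) = w1
        generalize ww (x2 j) = w2
        generalize L.q j μ μ = q1
        generalize L.q j ν ν = q2
        generalize L.q j μ ν = q12
        generalize L.t (j + 1) = T1
        generalize L.t j = T0
        rw [hp, hu, hs]
        field_simp
        ring
      rw [e2, e1]
      have : s = α + β := hs
      linarith
    -- merge inequality
    have hm := hMerge N L.K (fun j => L.t j / N) p u s x1 x2 k hN hN0.le (by simp [L.t0])
      (fun i j hij => div_le_div_of_nonneg_right (L.mono hij) hN0.le) hs0 hp0 hu0 hpu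
      (fun i j hij => by
        rw [hx1, hx1]
        exact mul_le_mul_of_nonneg_left (Real.sqrt_le_sqrt (L.q_mono h2 h2 hij)) hN0.le)
      (fun i j hij => by
        rw [hx2, hx2]
        exact mul_le_mul_of_nonneg_left (Real.sqrt_le_sqrt (L.q_mono g2 g2 hij)) hN0.le)
      (fun i j hij => by
        rw [hk, hk]
        exact mul_le_mul_of_nonneg_left (L.q_mono h2 g2 hij) (sq_nonneg N))
      (fun j => by rw [hx1]; positivity) (fun j => by rw [hx2]; positivity)
      (fun j => by
        rw [hx1]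
        exact mul_le_of_le_one_right hN0.le (Real.sqrt_le_one.2 (L.q_le_one h2 h3 j)))
      (fun j => by
        rw [hx2]
        exact mul_le_of_le_one_right hN0.le (Real.sqrt_le_one.2 (L.q_le_one g2 g3 j)))
      (fun j => by rw [hk]; exact mul_nonneg (sq_nonneg N) (L.q_nonneg h2 g2 j))
      (fun j => by
        rw [hk, hx1, hx2]
        have := mul_le_mul_of_nonneg_left (L.q_cs h2 g2 j) (sq_nonneg N)
        nlinarith)
    rw [hen]
    have hc := cst_pos
    have hsum : Net_P L N (fun x => p * μ x + u * ν x) (B1 ∪ B2) ≤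
        Net_P L N μ B1 + Net_P L N ν B2 +
        ∑ j ∈ range L.K, (L.t (j + 1) / N - L.t j / N) * gn N p u (x1 j) (x2 j) (k j) := by
      unfold Net_P
      rw [← sum_add_distrib, ← sum_add_distrib]
      apply sum_le_sum
      intro j _
      have e0 : (L.t (j + 1) / N - L.t j / N) * gn N p u (x1 j) (x2 j) (k j) =
          (L.t (j + 1) - L.t j) * (gn N p u (x1 j) (x2 j) (k j) / N) := by ring
      rw [e0, ← mul_add, ← mul_add]
      apply mul_le_mul_of_nonneg_left _ (sub_nonneg.2 (L.mono (Nat.le_succ j)))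
      rw [← add_div, ← add_div]
      apply div_le_div_of_nonneg_right _ hN0.le
      rw [hmix, ← hx1, ← hx2]
      unfold gn
      have hkpos : (0 < k j) = (0 < L.q j μ ν) := by
        rw [hk]
        exact propext (mul_pos_iff_of_pos_left (by positivity))
      have hHN : 0 ≤ HH N := by
        unfold HH eh bb
        have : (0:ℝ) ≤ if 1 ≤ N then 1 / N ^ 2 else
            max 0 (1 + 2 * (1 - N) - 100 * (1 - N) ^ 2) := by
          split_ifs
          · positivity
          · exact le_max_left _ _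
        nlinarith
      have hcard : (L.ncl j (B1 ∪ B2) : ℝ) ≤ L.ncl j B1 + L.ncl j B2 -
          (if 0 < L.q j μ ν then 1 else 0) := by
        unfold Lev.ncl
        have h7 := Finset.card_union_add_card_inter (B1.image (L.cls j)) (B2.image (L.cls j))
        rw [← Finset.image_union] at h7
        have h7' : (((B1 ∪ B2).image (L.cls j)).card : ℝ) +
            ((B1.image (L.cls j) ∩ B2.image (L.cls j)).card : ℝ) =
            (B1.image (L.cls j)).card + (B2.image (L.cls j)).card := by exact_mod_cast h7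
        by_cases hpos : 0 < L.q j μ ν
        · rw [if_pos hpos]
          obtain ⟨x, y, hx, hy, hxy⟩ := L.exists_of_q_pos hpos
          have hxB : x ∈ B1 := by
            by_contra hcon
            exact hx (h4 x hcon)
          have hyB : y ∈ B2 := by
            by_contra hcon
            exact hy (g4 y hcon)
          have h8 : 0 < (B1.image (L.cls j) ∩ B2.image (L.cls j)).card := by
            apply Finset.card_pos.2
            refine ⟨L.cls j x, mem_inter.2 ⟨mem_image_of_mem _ hxB, ?_⟩⟩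
            rw [hxy]
            exact mem_image_of_mem _ hyB
          have h9 : (1 : ℝ) ≤ (B1.image (L.cls j) ∩ B2.image (L.cls j)).card := by
            exact_mod_cast h8
          linarith
        · rw [if_neg hpos]
          have h9 : (0 : ℝ) ≤ (B1.image (L.cls j) ∩ B2.image (L.cls j)).card := by positivity
          linarith
      have h10 := mul_le_mul_of_nonneg_right hcard hHN
      by_cases hpos : 0 < L.q j μ ν
      · have hpos' : 0 < k j := by rw [hkpos]; exact hpos
        rw [if_pos hpos'] 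
        rw [if_pos hpos] at h10
        linarith
      · have hpos' : ¬ 0 < k j := by rw [hkpos]; exact hpos
        rw [if_neg hpos']
        rw [if_neg hpos] at h10
        linarith
    have h10 := mul_le_mul_of_nonneg_left hsum (show 0 ≤ 2 / cst by positivity)
    rw [mul_add, mul_add] at h10
    linarith

/-- The value of a state is large. -/
lemma Net_Good.le (hUV : Net_UV L N) (hN0 : 0 < N)
    (hH : ∀ y : ℝ, 0 ≤ y → y ≤ 1 → HH (N * y) ≤ HH N) {r : E} {W : ℝ} {B : Finset ι}
    (h : Net_Good L N r W B) :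
    2 / cst * ((HH N / N) * ∑ j ∈ range L.K, (L.t (j + 1) - L.t j) * ((L.ncl j B : ℝ) - 1)) ≤
      W := by
  obtain ⟨μ, α, Q, h1, h2, h3, h4, h5, h6⟩ := h
  have hc := cst_pos
  rw [Lev.F_eq h3] at h5
  have hUV' := hUV μ h2 h3
  have e : 1 / (2 * α) * Net_U L N μ ≤
      1 / α * (‖r - ∑ x, μ x • a x‖ ^ 2 + Lev.V a μ / 2) := by
    have e1 : 1 / (2 * α) * Net_U L N μ = 1 / α * (Net_U L N μ / 2) := by field_simp
    rw [e1]
    apply mul_le_mul_of_nonneg_left _ (by positivity)
    have := sq_nonneg ‖r - ∑ x, μ x • a x‖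
    linarith
  have h7 : 2 / cst * ((HH N / N) *
      ∑ j ∈ range L.K, (L.t (j + 1) - L.t j) * ((L.ncl j B : ℝ) - 1)) ≤
      2 / cst * Net_P L N μ B := by
    apply mul_le_mul_of_nonneg_left _ (by positivity)
    unfold Net_P
    rw [mul_sum]
    apply sum_le_sum
    intro j _
    have e0 : HH N / N * ((L.t (j + 1) - L.t j) * ((L.ncl j B : ℝ) - 1)) =
        (L.t (j + 1) - L.t j) * (((L.ncl j B : ℝ) * HH N - HH N) / N) := by ring
    rw [e0]
    apply mul_le_mul_of_nonneg_left _ (sub_nonneg.2 (L.mono (Nat.le_succ j)))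
    apply div_le_div_of_nonneg_right _ hN0.le
    have := hH _ (Real.sqrt_nonneg _) (Real.sqrt_le_one.2 (L.q_le_one h2 h3 j))
    linarith
  linarith

variable (L N) in
/-- States, with the empty state allowed. -/
def Net_Good' (r : E) (W : ℝ) (B : Finset ι) : Prop := (B = ∅ ∧ 0 ≤ W) ∨ Net_Good L N r W B

lemma Net_HH_nonneg (hN0 : 0 < N) : 0 ≤ HH N := by
  unfold HH eh bb
  have : (0:ℝ) ≤ if 1 ≤ N then 1 / N ^ 2 else
      max 0 (1 + 2 * (1 - N) - 100 * (1 - N) ^ 2) := by
    split_ifs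
    · positivity
    · exact le_max_left _ _
  nlinarith

lemma Net_Good.nonneg (hUV : Net_UV L N) (hN0 : 0 < N)
    (hH : ∀ y : ℝ, 0 ≤ y → y ≤ 1 → HH (N * y) ≤ HH N) {r : E} {W : ℝ} {B : Finset ι}
    (h : Net_Good L N r W B) : 0 ≤ W := by
  have h0 := h.le hUV hN0 hH
  obtain ⟨μ, α, Q, h1, h2, h3, h4, h5, h6⟩ := h
  have hB : B.Nonempty := by
    by_contra hcon
    rw [Finset.not_nonempty_iff_eq_empty] at hcon
    have : ∑ x, μ x = 0 := sum_eq_zero fun x _ => h4 x (by simp [hcon])
    rw [this] at h3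
    exact zero_ne_one h3
  refine le_trans ?_ h0
  have hc := cst_pos
  have hHN := Net_HH_nonneg hN0
  apply mul_nonneg (by positivity)
  apply mul_nonneg (by positivity)
  apply sum_nonneg
  intro j _
  apply mul_nonneg (sub_nonneg.2 (L.mono (Nat.le_succ j)))
  have : 1 ≤ L.ncl j B := Finset.card_pos.2 (hB.image _)
  have : (1 : ℝ) ≤ L.ncl j B := by exact_mod_cast this
  linarith

lemma Net_Good'.mono {r : E} {W W' : ℝ} {B : Finset ι} (h : Net_Good' L N r W B) (hW : W ≤ W') :
    Net_Good' L N r W' B := by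
  rcases h with h | h
  · exact Or.inl ⟨h.1, h.2.trans hW⟩
  · exact Or.inr (h.mono hW)

lemma Net_Good'.nonneg (hUV : Net_UV L N) (hN0 : 0 < N)
    (hH : ∀ y : ℝ, 0 ≤ y → y ≤ 1 → HH (N * y) ≤ HH N) {r : E} {W : ℝ} {B : Finset ι}
    (h : Net_Good' L N r W B) : 0 ≤ W := by
  rcases h with h | h
  · exact h.2
  · exact h.nonneg hUV hN0 hH

lemma Net_Good'.move (hUV : Net_UV L N) {r : E} {W : ℝ} {B : Finset ι}
    (h : Net_Good' L N r W B) (r' : E) {ε : ℝ}
    (hε : 0 < ε) : Net_Good' L N r' (W + 2 * dist r r' + ε) B := by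
  rcases h with h | h
  · have : 0 ≤ dist r r' := dist_nonneg
    exact Or.inl ⟨h.1, by linarith [h.2]⟩
  · exact Or.inr (h.move hUV r' hε)

lemma Net_Good'.merge (hMerge : StMerge) (hUV : Net_UV L N) (hN : 5 ≤ N ^ 2) (hN0 : 0 < N)
    (hH : ∀ y : ℝ, 0 ≤ y → y ≤ 1 → HH (N * y) ≤ HH N)
    {r : E} {W1 W2 : ℝ} {B1 B2 : Finset ι} (h : Net_Good' L N r W1 B1)
    (h' : Net_Good' L N r W2 B2) : Net_Good' L N r (W1 + W2) (B1 ∪ B2) := by
  have n1 := h.nonneg hUV hN0 hH
  have n2 := h'.nonneg hUV hN0 hH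
  rcases h with h | h
  · rw [h.1, empty_union]
    exact h'.mono (by linarith)
  · rcases h' with h' | h'
    · rw [h'.1, union_empty]
      exact Or.inr (h.mono (by linarith))
    · exact Or.inr (h.merge hMerge hN hN0 h')

lemma Net_good'_leaves (hMerge : StMerge) (hUV : Net_UV L N) (hN : 5 ≤ N ^ 2) (hN0 : 0 < N)
    (hH : ∀ y : ℝ, 0 ≤ y → y ≤ 1 → HH (N * y) ≤ HH N)
    (v : E) {ε : ℝ} (hε : 0 < ε) (B : Finset ι) (hB : ∀ x ∈ B, a x = v) :
    Net_Good' L N v (B.card * ε) B := by
  induction B using Finset.induction_on with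
  | empty => exact Or.inl ⟨rfl, by simp⟩
  | insert x B hx ih =>
    have h1 : Net_Good' L N v ε {x} := by
      have := Net_good_leaf (L := L) hN hN0.le x hε
      rw [hB x (mem_insert_self _ _)] at this
      exact Or.inr this
    have h2 := ih (fun y hy => hB y (mem_insert_of_mem hy))
    have h3 := h1.merge hMerge hUV hN hN0 hH h2
    rw [card_insert_of_notMem hx]
    rw [← Finset.insert_eq] at h3
    apply h3.mono
    push_cast
    linarith

/-- Contracting a network. -/
lemma Net_contract (hMerge : StMerge) (hUV : Net_UV L N) (hN : 5 ≤ N ^ 2) (hN0 : 0 < N)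
    (hH : ∀ y : ℝ, 0 ≤ y → y ≤ 1 → HH (N * y) ≤ HH N) {V : Finset E} {l : ℝ} (h : Net V l) :
    ∀ (W : E → ℝ) (B : E → Finset ι), (∀ v ∈ V, Net_Good' L N v (W v) (B v)) → ∀ ε : ℝ, 0 < ε →
      ∃ r, Net_Good' L N r (∑ v ∈ V, W v + 2 * l + ε) (V.biUnion B) := by
  induction h with
  | single v =>
    intro W B hB ε hε
    refine ⟨v, ?_⟩
    rw [sum_singleton, singleton_biUnion]
    exact (hB v (mem_singleton_self v)).mono (by linarith)
  | @step V l h p hp w ih =>
    intro W B hB ε hε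
    by_cases hw : w ∈ V
    · rw [insert_eq_self.2 hw] at hB ⊢
      obtain ⟨r, hr⟩ := ih W B hB ε hε
      refine ⟨r, hr.mono ?_⟩
      have : 0 ≤ dist p w := dist_nonneg
      linarith
    · set X := W w + 2 * dist w p + ε / 2 with hX
      obtain ⟨r, hr⟩ := ih (fun v => W v + if v = p then X else 0)
        (fun v => B v ∪ if v = p then B w else ∅) (by
          intro v hv
          have h1 := hB v (mem_insert_of_mem hv)
          by_cases hvp : v = p
          · subst hvp
            simp only [if_true]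
            have h2 := (hB w (mem_insert_self _ _)).move hUV v (half_pos hε)
            exact h1.merge hMerge hUV hN hN0 hH h2
          · simpa [hvp] using h1) (ε / 2) (half_pos hε)
      refine ⟨r, ?_⟩
      have e1 : ∑ v ∈ V, (W v + if v = p then X else 0) = ∑ v ∈ V, W v + X := by
        rw [sum_add_distrib, Finset.sum_ite_eq' V p (fun _ => X), if_pos hp]
      have e2 : (V.biUnion fun v => B v ∪ if v = p then B w else ∅) = (insert w V).biUnion B := by
        ext x
        simp only [mem_biUnion, mem_union, mem_insert]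
        constructor
        · rintro ⟨v, hv, h1 | h1⟩
          · exact ⟨v, Or.inr hv, h1⟩
          · split_ifs at h1 with h2
            · exact ⟨w, Or.inl rfl, h1⟩
            · simp at h1
        · rintro ⟨v, rfl | hv, h1⟩
          · exact ⟨p, hp, Or.inr (by simpa using h1)⟩
          · exact ⟨v, hv, Or.inl h1⟩
      rw [e1, e2] at hr
      apply hr.mono
      rw [sum_insert hw, hX, dist_comm w p]
      linarith

/-- Lower bound for the length of a network. -/
theorem Net_net_lower (hMerge : StMerge) (hUV : Net_UV L N) (hN : 5 ≤ N ^ 2) (hN0 : 0 < N)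
    (hH : ∀ y : ℝ, 0 ≤ y → y ≤ 1 → HH (N * y) ≤ HH N) [Nonempty ι] {V : Finset E} {l : ℝ}
    (h : Net V l) (hV : ∀ x, a x ∈ V) :
    (HH N / N) * ∑ j ∈ range L.K, (L.t (j + 1) - L.t j) * ((L.ncl j univ : ℝ) - 1) ≤
      cst * l := by
  have hc := cst_pos
  have key : 2 / cst * ((HH N / N) *
      ∑ j ∈ range L.K, (L.t (j + 1) - L.t j) * ((L.ncl j univ : ℝ) - 1)) ≤ 2 * l := by
    apply le_of_forall_pos_le_add
    intro ε hε
    obtain ⟨B, hB⟩ : ∃ B : E → Finset ι, ∀ v x, x ∈ B v ↔ a x = v :=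
      ⟨fun v => univ.filter (fun x => a x = v), fun v x => by
        rw [mem_filter]; exact ⟨fun h => h.2, fun h => ⟨mem_univ x, h⟩⟩⟩
    obtain ⟨C, hC⟩ : ∃ C : ℝ, C = ∑ v ∈ V, ((B v).card : ℝ) := ⟨_, rfl⟩
    have hC0 : 0 ≤ C := by
      rw [hC]
      exact sum_nonneg fun v _ => Nat.cast_nonneg _
    obtain ⟨δ, hδ⟩ : ∃ δ : ℝ, δ = ε / (2 * (C + 1)) := ⟨_, rfl⟩
    have hδ0 : 0 < δ := by rw [hδ]; exact div_pos hε (by linarith)
    obtain ⟨r, hr⟩ := Net_contract (L := L) hMerge hUV hN hN0 hH h (fun v => (B v).card * δ) B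
      (fun v _ => Net_good'_leaves hMerge hUV hN hN0 hH v hδ0 (B v) (fun x hx => (hB v x).1 hx))
      (ε / 2) (half_pos hε)
    have hun : V.biUnion B = univ := by
      ext x
      rw [mem_biUnion]
      exact ⟨fun _ => mem_univ x, fun _ => ⟨a x, hV x, (hB _ _).2 rfl⟩⟩
    rw [hun] at hr
    rcases hr with hr | hr
    · exact absurd hr.1 (Finset.univ_nonempty.ne_empty)
    · refine (hr.le hUV hN0 hH).trans ?_
      have e : ∑ v ∈ V, ((B v).card : ℝ) * δ = C * δ := by rw [hC, sum_mul]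
      rw [e]
      have : C * δ ≤ ε / 2 := by
        rw [hδ, mul_div_assoc', div_le_div_iff₀ (by linarith) (by norm_num)]
        nlinarith
      linarith
  have h2 : 2 / cst * ((HH N / N) *
      ∑ j ∈ range L.K, (L.t (j + 1) - L.t j) * ((L.ncl j univ : ℝ) - 1)) =
      2 * ((HH N / N) * ∑ j ∈ range L.K, (L.t (j + 1) - L.t j) * ((L.ncl j univ : ℝ) - 1)) /
        cst := by ring
  rw [h2, div_le_iff₀ hc] at key
  linarith

end Nets

theorem hNet (hBB : StBB) (hDim : StDim) (hMerge : StMerge) : StNet := by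
  intro d hd E _ _ _ hfin ι _ _ _ a L V l hnet hV
  have hN2 : NN d ^ 2 = 2 * d + 1 := by
    unfold NN
    exact Real.sq_sqrt (by positivity)
  have hd' : (2 : ℝ) ≤ d := by exact_mod_cast hd
  have hN5 : 5 ≤ NN d ^ 2 := by rw [hN2]; linarith
  have hN0' : 0 ≤ NN d := by unfold NN; positivity
  have hN0 : 0 < NN d := by
    rcases hN0'.lt_or_eq with h | h
    · exact h
    · rw [← h] at hN5; norm_num at hN5
  have hN1 : 1 ≤ NN d := by nlinarith
  obtain ⟨hb0, hb2, _, _, hLip, _, _⟩ := hBB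
  refine Net_net_lower hMerge ?_ hN5 hN0 ?_ hnet hV
  · intro μ hμ h1
    refine le_trans ?_ (hDim d E hfin ι a L μ hμ h1)
    unfold Net_U Lev.U
    rw [← sum_add_distrib]
    apply sum_le_sum
    intro j _
    rw [← mul_add]
    have tnn : 0 ≤ L.t j := by
      have := L.mono (Nat.zero_le j); rwa [L.t0] at this
    have hτ : 0 ≤ L.t (j + 1) ^ 2 - L.t j ^ 2 :=
      sub_nonneg.2 (pow_le_pow_left₀ tnn (L.mono (Nat.le_succ j)) 2)
    apply mul_le_mul_of_nonneg_left _ hτ
    have hq0 := L.q_nonneg hμ hμ j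
    have hsq : √(L.q j μ μ) ^ 2 = L.q j μ μ := Real.sq_sqrt hq0
    have hs0 := Real.sqrt_nonneg (L.q j μ μ)
    generalize hy : √(L.q j μ μ) = y at *
    have key : ww (NN d * y) / NN d ^ 2 ≤ max 0 (1 / (2 * (d : ℝ) + 1) - L.q j μ μ) := by
      rw [← hN2, ← hsq]
      unfold ww
      by_cases h : NN d * y ≤ 1
      · rw [max_eq_right (by linarith : (0 : ℝ) ≤ 1 - NN d * y)]
        apply le_max_of_le_right
        rw [div_le_iff₀ (by positivity)]
        have e : (1 / NN d ^ 2 - y ^ 2) * NN d ^ 2 = 1 - (NN d * y) ^ 2 := by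
          field_simp
        rw [e]
        have hz : 0 ≤ NN d * y := by positivity
        unfold ch
        nlinarith
      · rw [max_eq_left (by linarith : 1 - NN d * y ≤ 0)]
        have : ch * (0 : ℝ) ^ 2 / NN d ^ 2 = 0 := by simp
        rw [this]
        exact le_max_left _ _
    linarith
  · intro y hy0 hy1
    unfold HH
    have h := hLip (NN d) (NN d * y)
    have h' := neg_abs_le (bb (NN d) - bb (NN d * y))
    have hle : NN d * y ≤ NN d := by nlinarith
    have habs : |NN d - NN d * y| = NN d - NN d * y := abs_of_nonneg (by linarith)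
    rw [habs] at h
    have : eh * (bb (NN d * y) - bb (NN d)) ≤ eh * (22 * (NN d - NN d * y)) := by
      apply mul_le_mul_of_nonneg_left _ (by unfold eh; norm_num)
      linarith
    have h22 : eh * (22 * (NN d - NN d * y)) ≤ NN d - NN d * y := by
      unfold eh
      nlinarith
    nlinarith

end Pool.Agent.Helper19.SR
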