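import Pool.Agent.Helper19.SR.St

set_option autoImplicit false

namespace Pool.Agent.Helper19.SR

open Real Finset MeasureTheory
open Pool.Agent.Helper77.Steiner

/-- `F x = ch x² - ww x` -/
noncomputable def Om_F (x : ℝ) : ℝ := ch * x ^ 2 - ww x

lemma Om_ch : (0 : ℝ) < ch := by unfold ch; norm_num

lemma Om_F_ge {x : ℝ} (h : 1 ≤ x) : Om_F x = ch * x ^ 2 := by
  unfold Om_F ww
  rw [max_eq_left (by linarith)]
  ring

lemma Om_F_le {x : ℝ} (h : x ≤ 1) : Om_F x = ch * (2 * x - 1) := by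
  unfold Om_F ww
  rw [max_eq_right (by linarith)]
  ring

lemma Om_low {m : ℝ} (hm : 1 ≤ m) (x : ℝ) : ch * (2 * m * x - m ^ 2) ≤ Om_F x := by
  rcases le_total x 1 with h | h
  · rw [Om_F_le h]
    apply mul_le_mul_of_nonneg_left _ Om_ch.le
    nlinarith
  · rw [Om_F_ge h]
    apply mul_le_mul_of_nonneg_left _ Om_ch.le
    nlinarith [sq_nonneg (x - m)]

lemma Om_mono {x y : ℝ} (hxy : x ≤ y) : Om_F x ≤ Om_F y := by
  rcases le_total y 1 with hy | hy
  · rw [Om_F_le hy, Om_F_le (hxy.trans hy)]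
    apply mul_le_mul_of_nonneg_left _ Om_ch.le
    linarith
  · rcases le_total x 1 with hx | hx
    · rw [Om_F_le hx, Om_F_ge hy]
      apply mul_le_mul_of_nonneg_left _ Om_ch.le
      nlinarith
    · rw [Om_F_ge hx, Om_F_ge hy]
      apply mul_le_mul_of_nonneg_left _ Om_ch.le
      nlinarith

theorem hOm : StOm := by
  intro p q x1 x2 k hp hq hpq hx1 hx2 hk0 hk
  set X := p * x1 + q * x2 with hX
  have hX0 : 0 ≤ X := by positivity
  have hq' : q = 1 - p := by linarith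
  have hpq0 : 0 < p * q := by positivity
  have hroot : 0 ≤ p ^ 2 * x1 ^ 2 + q ^ 2 * x2 ^ 2 + 2 * p * q * k := by positivity
  have hmix2 : mix p q x1 x2 k ^ 2 = p ^ 2 * x1 ^ 2 + q ^ 2 * x2 ^ 2 + 2 * p * q * k :=
    Real.sq_sqrt hroot
  have hmixX : mix p q x1 x2 k ≤ X := by
    apply Real.sqrt_le_iff.2 ⟨hX0, _⟩
    rw [hX]
    have : p * q * k ≤ p * q * (x1 * x2) := mul_le_mul_of_nonneg_left hk hpq0.le
    nlinarith
  have hF : Om_F (mix p q x1 x2 k) ≤ p * Om_F x1 + q * Om_F x2 := by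
    refine (Om_mono hmixX).trans ?_
    rcases le_total X 1 with h | h
    · rw [Om_F_le h]
      have h1 := Om_low (m := 1) le_rfl x1
      have h2 := Om_low (m := 1) le_rfl x2
      have e : ch * (2 * X - 1) = p * (ch * (2 * 1 * x1 - 1 ^ 2)) +
          q * (ch * (2 * 1 * x2 - 1 ^ 2)) := by
        rw [hX, hq']
        ring
      rw [e]
      exact add_le_add (mul_le_mul_of_nonneg_left h1 hp.le) (mul_le_mul_of_nonneg_left h2 hq.le)
    · rw [Om_F_ge h]
      have h1 := Om_low (m := X) h x1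
      have h2 := Om_low (m := X) h x2
      have e : ch * X ^ 2 = p * (ch * (2 * X * x1 - X ^ 2)) +
          q * (ch * (2 * X * x2 - X ^ 2)) := by
        have : p * (ch * (2 * X * x1 - X ^ 2)) + q * (ch * (2 * X * x2 - X ^ 2)) =
            ch * (2 * X * (p * x1 + q * x2) - (p + q) * X ^ 2) := by ring
        rw [this, ← hX, hpq]
        ring
      rw [e]
      exact add_le_add (mul_le_mul_of_nonneg_left h1 hp.le) (mul_le_mul_of_nonneg_left h2 hq.le)
  unfold om
  rw [le_div_iff₀ hpq0]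
  unfold Om_F at hF
  rw [hmix2] at hF
  have e : -(ch * (x1 ^ 2 + x2 ^ 2 - 2 * k)) * (p * q) =
      ch * (p ^ 2 * x1 ^ 2 + q ^ 2 * x2 ^ 2 + 2 * p * q * k) -
        ch * (p * x1 ^ 2 + q * x2 ^ 2) := by
    rw [hq']
    ring
  rw [e]
  linarith

end Pool.Agent.Helper19.SR
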