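import Pool.Agent.Helper19.SR.St

/-!
# SR, module Pt: the inequality for `2 (d + 1)` points
-/

set_option autoImplicit false

namespace Pool.Agent.Helper19.SR

open Real Finset MeasureTheory
open Pool.Agent.Helper77.Steiner
open scoped ENNReal

noncomputable section

variable {n : ℕ} {κ : Type} [Fintype κ] [DecidableEq κ]

/-- the projection matrix -/
def Pt_P (f : κ → Fin n → ℝ) (i j : Fin n) : ℝ := ∑ k, f k i * f k j

theorem Pt_bessel (f : κ → Fin n → ℝ) (hf : ∀ k l, ∑ i, f k i * f l i = if k = l then 1 else 0)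
    (w : Fin n → ℝ) : ∑ k, (∑ i, f k i * w i) ^ 2 ≤ ∑ i, w i ^ 2 := by
  set c : κ → ℝ := fun k => ∑ i, f k i * w i with hc
  have h0 : 0 ≤ ∑ i, (w i - ∑ k, c k * f k i) ^ 2 := sum_nonneg fun i _ => sq_nonneg _
  have h1 : ∑ i, (w i - ∑ k, c k * f k i) ^ 2 =
      ∑ i, w i ^ 2 - 2 * ∑ i, w i * ∑ k, c k * f k i + ∑ i, (∑ k, c k * f k i) ^ 2 := by
    rw [mul_sum, ← sum_sub_distrib, ← sum_add_distrib]
    exact sum_congr rfl fun i _ => by ring
  have h2 : ∑ i, w i * ∑ k, c k * f k i = ∑ k, c k ^ 2 := by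
    simp_rw [mul_sum]
    rw [sum_comm]
    refine sum_congr rfl fun k _ => ?_
    have : c k ^ 2 = c k * ∑ i, f k i * w i := by rw [sq]
    rw [this, mul_sum]
    exact sum_congr rfl fun i _ => by ring
  have h3 : ∑ i, (∑ k, c k * f k i) ^ 2 = ∑ k, c k ^ 2 := by
    have e1 : ∀ i, (∑ k, c k * f k i) ^ 2 = ∑ k, ∑ l, c k * c l * (f k i * f l i) := by
      intro i
      rw [sq, Finset.sum_mul_sum]
      exact sum_congr rfl fun k _ => sum_congr rfl fun l _ => by ring
    simp_rw [e1]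
    rw [sum_comm]
    refine sum_congr rfl fun k _ => ?_
    rw [sum_comm]
    have e2 : ∀ l, ∑ i, c k * c l * (f k i * f l i) = c k * c l * (if k = l then 1 else 0) := by
      intro l
      rw [← mul_sum, hf]
    simp_rw [e2]
    simp [sq]
  rw [h1, h2, h3] at h0
  linarith

theorem Pt_half (f : κ → Fin n → ℝ) (hf : ∀ k l, ∑ i, f k i * f l i = if k = l then 1 else 0)
    (i j : Fin n) (hij : i ≠ j) : |Pt_P f i j| ≤ 1 / 2 := by
  have hplus := Pt_bessel f hf (fun m => (if m = i then 1 else 0) + (if m = j then 1 else 0))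
  have hminus := Pt_bessel f hf (fun m => (if m = i then 1 else 0) - (if m = j then 1 else 0))
  have e1 : ∀ k, ∑ m, f k m * ((if m = i then (1 : ℝ) else 0) + (if m = j then 1 else 0)) =
      f k i + f k j := by
    intro k
    simp_rw [mul_add]
    rw [sum_add_distrib]
    simp
  have e2 : ∀ k, ∑ m, f k m * ((if m = i then (1 : ℝ) else 0) - (if m = j then 1 else 0)) =
      f k i - f k j := by
    intro k
    simp_rw [mul_sub]
    rw [sum_sub_distrib]
    simp
  have e3 : ∑ m, ((if m = i then (1 : ℝ) else 0) + (if m = j then 1 else 0)) ^ 2 = 2 := by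
    have : ∀ m, ((if m = i then (1 : ℝ) else 0) + (if m = j then 1 else 0)) ^ 2 =
        (if m = i then 1 else 0) + (if m = j then 1 else 0) := by
      intro m
      by_cases h1 : m = i
      · have h2 : m ≠ j := fun h => hij (h1.symm.trans h)
        simp [h1, hij]
      · by_cases h2 : m = j
        · simp [h2, hij.symm]
        · simp [h1, h2]
    simp_rw [this]
    rw [sum_add_distrib]
    simp
    norm_num
  have e4 : ∑ m, ((if m = i then (1 : ℝ) else 0) - (if m = j then 1 else 0)) ^ 2 = 2 := by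
    have : ∀ m, ((if m = i then (1 : ℝ) else 0) - (if m = j then 1 else 0)) ^ 2 =
        (if m = i then 1 else 0) + (if m = j then 1 else 0) := by
      intro m
      by_cases h1 : m = i
      · simp [h1, hij]
      · by_cases h2 : m = j
        · simp [h2, hij.symm]
        · simp [h1, h2]
    simp_rw [this]
    rw [sum_add_distrib]
    simp
    norm_num
  simp_rw [e1] at hplus
  simp_rw [e2] at hminus
  rw [e3] at hplus
  rw [e4] at hminus
  have h1 : ∑ k, (f k i + f k j) ^ 2 = Pt_P f i i + Pt_P f j j + 2 * Pt_P f i j := by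
    unfold Pt_P
    rw [mul_sum, ← sum_add_distrib, ← sum_add_distrib]
    exact sum_congr rfl fun k _ => by ring
  have h2 : ∑ k, (f k i - f k j) ^ 2 = Pt_P f i i + Pt_P f j j - 2 * Pt_P f i j := by
    unfold Pt_P
    rw [mul_sum, ← sum_add_distrib, ← sum_sub_distrib]
    exact sum_congr rfl fun k _ => by ring
  have h3 : 0 ≤ ∑ k, (f k i + f k j) ^ 2 := sum_nonneg fun k _ => sq_nonneg _
  have h4 : 0 ≤ ∑ k, (f k i - f k j) ^ 2 := sum_nonneg fun k _ => sq_nonneg _
  rw [h1] at hplus h3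
  rw [h2] at hminus h4
  rw [abs_le]
  constructor <;> linarith

theorem Pt_trace (f : κ → Fin n → ℝ) (hf : ∀ k l, ∑ i, f k i * f l i = if k = l then 1 else 0) :
    ∑ i, Pt_P f i i = Fintype.card κ := by
  unfold Pt_P
  rw [sum_comm]
  have : ∀ k, ∑ i, f k i * f k i = 1 := fun k => by rw [hf k k, if_pos rfl]
  simp_rw [this]
  simp

theorem Pt_row (f : κ → Fin n → ℝ) (h0 : ∀ k, ∑ i, f k i = 0) (i : Fin n) :
    ∑ j, Pt_P f i j = 0 := by
  unfold Pt_P
  rw [sum_comm]
  refine sum_eq_zero fun k _ => ?_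
  rw [← mul_sum, h0, mul_zero]

theorem Pt_symm (f : κ → Fin n → ℝ) (i j : Fin n) : Pt_P f i j = Pt_P f j i := by
  unfold Pt_P
  exact sum_congr rfl fun k _ => mul_comm _ _

theorem Pt_class {ι : Type} [Fintype ι] [DecidableEq ι] (f : κ → Fin n → ℝ)
    (hf : ∀ k l, ∑ i, f k i * f l i = if k = l then 1 else 0) (c : Fin n → ι) :
    max 0 ((Fintype.card κ : ℝ) - 1 / 2 * ∑ i, ∑ j, if i ≠ j ∧ c i = c j then (1 : ℝ) else 0) ≤
      ∑ i, ∑ j, Pt_P f i j * (if c i = c j then 1 else 0) := by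
  apply max_le
  · have h1 : ∑ i, ∑ j, Pt_P f i j * (if c i = c j then (1 : ℝ) else 0) =
        ∑ k, ∑ γ, (∑ i, if c i = γ then f k i else 0) ^ 2 := by
      unfold Pt_P
      have e1 : ∀ k γ, (∑ i, if c i = γ then f k i else 0) ^ 2 =
          ∑ i, ∑ j, (if c i = γ then f k i else 0) * (if c j = γ then f k j else 0) := by
        intro k γ
        rw [sq, Finset.sum_mul_sum]
      simp_rw [e1, sum_mul]
      have e2 : ∀ k, ∑ γ, ∑ i, ∑ j, (if c i = γ then f k i else 0) *
          (if c j = γ then f k j else 0) =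
          ∑ i, ∑ j, f k i * f k j * (if c i = c j then (1 : ℝ) else 0) := by
        intro k
        rw [sum_comm]
        refine sum_congr rfl fun i _ => ?_
        rw [sum_comm]
        refine sum_congr rfl fun j _ => ?_
        rw [Finset.sum_eq_single (c i)]
        · by_cases h : c i = c j
          · simp [h]
          · simp [h, Ne.symm h]
        · intro γ _ hγ
          simp [Ne.symm hγ]
        · simp
      simp_rw [e2]
      rw [sum_comm]
      have e3 : ∀ i, ∑ k, ∑ j, f k i * f k j * (if c i = c j then (1 : ℝ) else 0) =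
          ∑ j, ∑ k, f k i * f k j * (if c i = c j then (1 : ℝ) else 0) := fun i => sum_comm
      rw [Finset.sum_comm]
      refine Eq.symm ?_
      rw [sum_comm]
      refine sum_congr rfl fun i _ => ?_
      rw [e3]
    rw [h1]
    exact sum_nonneg fun k _ => sum_nonneg fun γ _ => sq_nonneg _
  · have h2 : ∀ i, Pt_P f i i - 1 / 2 * ∑ j, (if i ≠ j ∧ c i = c j then (1 : ℝ) else 0) ≤
        ∑ j, Pt_P f i j * (if c i = c j then 1 else 0) := by
      intro i
      have e1 : Pt_P f i i = ∑ j, (if i = j then Pt_P f i j else 0) := by simp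
      rw [e1, mul_sum, ← sum_sub_distrib]
      refine sum_le_sum fun j _ => ?_
      by_cases hij : i = j
      · subst hij
        simp
      · have h3 := Pt_half f hf i j hij
        rw [abs_le] at h3
        rw [if_neg hij]
        by_cases hc : c i = c j
        · rw [if_pos ⟨hij, hc⟩, if_pos hc]
          linarith [h3.1]
        · rw [if_neg (fun h => hc h.2), if_neg hc]
          simp
    rw [← Pt_trace f hf, mul_sum, ← sum_sub_distrib]
    exact sum_le_sum fun i _ => h2 i

theorem Pt_zero {E : Type} [NormedAddCommGroup E] [InnerProductSpace ℝ E] (f : κ → Fin n → ℝ)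
    (h0 : ∀ k, ∑ i, f k i = 0) (b : Fin n → E) (hb : ∀ k, ∑ i, f k i • b i = 0) :
    ∑ i, ∑ j, Pt_P f i j * ‖b i - b j‖ ^ 2 = 0 := by
  have h1 : ∀ i j, Pt_P f i j * ‖b i - b j‖ ^ 2 =
      ‖b i‖ ^ 2 * Pt_P f i j - 2 * inner ℝ (b i) (Pt_P f i j • b j) +
        ‖b j‖ ^ 2 * Pt_P f j i := by
    intro i j
    rw [norm_sub_sq_real, real_inner_smul_right, Pt_symm f j i]
    ring
  simp_rw [h1]
  have h2 : ∀ i, ∑ j, Pt_P f i j • b j = 0 := by
    intro i
    unfold Pt_P
    simp_rw [sum_smul]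
    rw [sum_comm]
    refine sum_eq_zero fun k _ => ?_
    have : ∀ j, (f k i * f k j) • b j = f k i • (f k j • b j) := fun j => by rw [mul_smul]
    simp_rw [this]
    rw [← smul_sum, hb, smul_zero]
  have h3 : ∀ i, ∑ j, (‖b i‖ ^ 2 * Pt_P f i j - 2 * inner ℝ (b i) (Pt_P f i j • b j)) = 0 := by
    intro i
    rw [sum_sub_distrib, ← mul_sum, Pt_row f h0, mul_zero, ← mul_sum, ← inner_sum, h2, inner_zero_right]
    ring
  simp_rw [sum_add_distrib]
  have h4 : ∑ i, ∑ j, ‖b j‖ ^ 2 * Pt_P f j i = 0 := by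
    rw [sum_comm]
    refine sum_eq_zero fun j _ => ?_
    rw [← mul_sum, Pt_row f h0, mul_zero]
  rw [h4, add_zero]
  exact sum_eq_zero fun i _ => h3 i

theorem hPt (hOrt : StOrt) : StPt := by
  intro d E _ _ _ hd ι _ _ a L x
  obtain ⟨f, hf, h0, hb⟩ := hOrt (2 * (d + 1)) d E hd (fun i => a (x i))
  set τ : ℕ → ℝ := fun l => L.t (l + 1) ^ 2 - L.t l ^ 2 with hτ
  have tnn : ∀ j, 0 ≤ L.t j := fun j => by
    have := L.mono (Nat.zero_le j); rwa [L.t0] at this
  have hτ0 : ∀ l, 0 ≤ τ l := fun l => by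
    have h1 : L.t l ^ 2 ≤ L.t (l + 1) ^ 2 := pow_le_pow_left₀ (tnn l) (L.mono (Nat.le_succ l)) 2
    simp only [hτ]; linarith
  have hcard : (Fintype.card (Fin (2 * (d + 1) - (d + 1))) : ℝ) = d + 1 := by
    rw [Fintype.card_fin]
    have : 2 * (d + 1) - (d + 1) = d + 1 := by omega
    rw [this]; push_cast; ring
  set u : Fin (2 * (d + 1)) → Fin (2 * (d + 1)) → ℝ := fun i j =>
    ∑ l ∈ range L.K, τ l * (if L.cls l (x i) = L.cls l (x j) then 0 else 1) with hu
  have hΔ : ∀ i j, 0 ≤ ‖a (x i) - a (x j)‖ ^ 2 - u i j := by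
    intro i j
    have := L.ultra_le (x i) (x j) L.K le_rfl
    simp only [hu, hτ]
    linarith
  have hz := Pt_zero f h0 (fun i => a (x i)) hb
  -- the sum with the ultrametric part
  have hsame : ∀ l, ∑ i, ∑ j, Pt_P f i j * (if L.cls l (x i) = L.cls l (x j) then (0 : ℝ) else 1) =
      - ∑ i, ∑ j, Pt_P f i j * (if L.cls l (x i) = L.cls l (x j) then (1 : ℝ) else 0) := by
    intro l
    rw [← sum_neg_distrib]
    refine sum_congr rfl fun i _ => ?_
    have e1 : ∑ j, Pt_P f i j * (if L.cls l (x i) = L.cls l (x j) then (0 : ℝ) else 1) +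
        ∑ j, Pt_P f i j * (if L.cls l (x i) = L.cls l (x j) then (1 : ℝ) else 0) =
        ∑ j, Pt_P f i j := by
      rw [← sum_add_distrib]
      refine sum_congr rfl fun j _ => ?_
      split_ifs <;> ring
    rw [Pt_row f h0] at e1
    linarith
  have hPu : ∑ i, ∑ j, Pt_P f i j * u i j =
      - ∑ l ∈ range L.K, τ l * ∑ i, ∑ j, Pt_P f i j *
        (if L.cls l (x i) = L.cls l (x j) then (1 : ℝ) else 0) := by
    have e1 : ∀ i j, Pt_P f i j * u i j = ∑ l ∈ range L.K, τ l * (Pt_P f i j *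
        (if L.cls l (x i) = L.cls l (x j) then (0 : ℝ) else 1)) := by
      intro i j
      simp only [hu]
      rw [mul_sum]
      exact sum_congr rfl fun l _ => by ring
    simp_rw [e1]
    have e2 : ∀ i, ∑ j, ∑ l ∈ range L.K, τ l * (Pt_P f i j *
        (if L.cls l (x i) = L.cls l (x j) then (0 : ℝ) else 1)) =
        ∑ l ∈ range L.K, ∑ j, τ l * (Pt_P f i j *
        (if L.cls l (x i) = L.cls l (x j) then (0 : ℝ) else 1)) := fun i => sum_comm
    simp_rw [e2]
    rw [sum_comm, ← sum_neg_distrib]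
    refine sum_congr rfl fun l _ => ?_
    simp_rw [← mul_sum]
    rw [hsame l]
    ring
  have hsum : ∑ l ∈ range L.K, τ l * ∑ i, ∑ j, Pt_P f i j *
        (if L.cls l (x i) = L.cls l (x j) then (1 : ℝ) else 0) =
      ∑ i, ∑ j, Pt_P f i j * (‖a (x i) - a (x j)‖ ^ 2 - u i j) := by
    have e1 : ∑ i, ∑ j, Pt_P f i j * (‖a (x i) - a (x j)‖ ^ 2 - u i j) =
        ∑ i, ∑ j, Pt_P f i j * ‖a (x i) - a (x j)‖ ^ 2 - ∑ i, ∑ j, Pt_P f i j * u i j := by
      rw [← sum_sub_distrib]
      refine sum_congr rfl fun i _ => ?_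
      rw [← sum_sub_distrib]
      exact sum_congr rfl fun j _ => by ring
    rw [e1, hz, hPu]
    ring
  calc ∑ l ∈ range L.K, τ l * max 0 ((d + 1 : ℝ) -
      1 / 2 * ∑ i, ∑ j, if i ≠ j ∧ L.cls l (x i) = L.cls l (x j) then (1 : ℝ) else 0)
      ≤ ∑ l ∈ range L.K, τ l * ∑ i, ∑ j, Pt_P f i j *
        (if L.cls l (x i) = L.cls l (x j) then (1 : ℝ) else 0) := by
        refine sum_le_sum fun l _ => mul_le_mul_of_nonneg_left ?_ (hτ0 l)
        have := Pt_class f hf (fun i => L.cls l (x i))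
        rw [hcard] at this
        exact this
    _ = ∑ i, ∑ j, Pt_P f i j * (‖a (x i) - a (x j)‖ ^ 2 - u i j) := hsum
    _ ≤ ∑ i, ∑ j, 1 / 2 * (if i ≠ j then ‖a (x i) - a (x j)‖ ^ 2 - u i j else 0) := by
        refine sum_le_sum fun i _ => sum_le_sum fun j _ => ?_
        by_cases hij : i = j
        · subst hij
          have : u i i = 0 := by simp [hu]
          rw [this]
          simp
        · rw [if_pos hij]
          have h3 := (abs_le.1 (Pt_half f hf i j hij)).2
          exact mul_le_mul_of_nonneg_right h3 (hΔ i j)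
    _ = 1 / 2 * ∑ i, ∑ j, if i ≠ j then ‖a (x i) - a (x j)‖ ^ 2 - u i j else 0 := by
        rw [mul_sum]
        refine sum_congr rfl fun i _ => ?_
        rw [mul_sum]

end

end Pool.Agent.Helper19.SR
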