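import Pool.Agent.Helper19.SR.M_Gau

/-! Module Quad of project SR (MP_e46579_co): exponential sums over the quadric. -/

set_option autoImplicit false

namespace Pool.Agent.Helper19.SR

open Finset

section

set_option linter.unusedSectionVars false

variable {F : Type} [Field F] [Fintype F] [DecidableEq F] [CharP F 2] {ψ : F → ℝ}

theorem Quad_sum_B (hadd : ∀ x y, ψ (x + y) = ψ x * ψ y) (hpm : ∀ x, ψ x = 1 ∨ ψ x = -1)
    (h0 : ∀ c : F, c ≠ 0 → ∑ x, ψ (c * x) = 0) (z : F × F × F × F) :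
    ∑ a, ψ (Bf a z) = if z = 0 then (Fintype.card F : ℝ) ^ 4 else 0 := by
  have e1 : ∀ a : F × F × F × F, ψ (Bf a z) =
      ψ (z.2.1 * a.1) * (ψ (z.1 * a.2.1) * (ψ (z.2.2.2 * a.2.2.1) * ψ (z.2.2.1 * a.2.2.2))) := by
    intro a
    rw [← hadd, ← hadd, ← hadd]
    congr 1
    unfold Bf
    ring
  rw [Finset.sum_congr rfl fun a _ => e1 a]
  simp only [Fintype.sum_prod_type, ← Finset.mul_sum, ← Finset.sum_mul]
  rw [Gau_sum_psi_mul hadd hpm h0, Gau_sum_psi_mul hadd hpm h0, Gau_sum_psi_mul hadd hpm h0,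
    Gau_sum_psi_mul hadd hpm h0]
  obtain ⟨z1, z2, z3, z4⟩ := z
  simp only [Prod.mk_eq_zero]
  by_cases h1 : z1 = 0 <;> by_cases h2 : z2 = 0 <;> by_cases h3 : z3 = 0 <;> by_cases h4 : z4 = 0 <;>
    simp [h1, h2, h3, h4]
  ring

theorem Quad_Qf_add (δ : F) (s : F) (hs : s ≠ 0) (a z : F × F × F × F) :
    s * Qf δ (a + s⁻¹ • z) = s * Qf δ a + Bf a z + s⁻¹ * Qf δ z := by
  have h2 : (2 : F) = 0 := CharTwo.two_eq_zero
  obtain ⟨a1, a2, a3, a4⟩ := a
  obtain ⟨z1, z2, z3, z4⟩ := z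
  simp only [Qf, Bf, Prod.smul_mk, Prod.mk_add_mk, smul_eq_mul]
  field_simp
  linear_combination (a1 * z1 * s + δ * a2 * z2 * s) * h2

end

/-- Module Quad. -/
theorem hQuad (hG : StGau) : StQuad := by
  intro F _ _ _ _ δ ψ hδ hadd hpm h0 z
  set q : ℝ := (Fintype.card F : ℝ) with hq
  have hqpos : 0 < q := by
    rw [hq]
    exact_mod_cast Fintype.card_pos
  -- the indicator of the quadric
  have e0 : q * (∑ a ∈ univ.filter (fun a : F × F × F × F => Qf δ a = 0), ψ (Bf a z)) =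
      ∑ s : F, ∑ a : F × F × F × F, ψ (s * Qf δ a + Bf a z) := by
    rw [Finset.sum_comm, Finset.sum_filter, Finset.mul_sum]
    refine Finset.sum_congr rfl fun a _ => ?_
    have : ∑ s : F, ψ (s * Qf δ a + Bf a z) = (∑ s : F, ψ (Qf δ a * s)) * ψ (Bf a z) := by
      rw [Finset.sum_mul]
      refine Finset.sum_congr rfl fun s _ => ?_
      rw [hadd, mul_comm s]
    rw [this, Gau_sum_psi_mul hadd hpm h0, ← hq]
    split_ifs <;> simp
  have e1 : ∀ s : F, s ≠ 0 → ∑ a : F × F × F × F, ψ (s * Qf δ a + Bf a z) =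
      - q ^ 2 * ψ (Qf δ z * s⁻¹) := by
    intro s hs
    have h1 : ∀ a : F × F × F × F, ψ (s * Qf δ a + Bf a z) =
        ψ (s * Qf δ (a + s⁻¹ • z)) * ψ (Qf δ z * s⁻¹) := by
      intro a
      rw [← hadd, Quad_Qf_add δ s hs a z, mul_comm (Qf δ z) s⁻¹]
      congr 1
      rw [add_assoc, CharTwo.add_self_eq_zero, add_zero]
    have h3 : ∑ a : F × F × F × F, ψ (s * Qf δ (a + s⁻¹ • z)) =
        ∑ a : F × F × F × F, ψ (s * Qf δ a) :=
      Fintype.sum_equiv (Equiv.addRight (s⁻¹ • z)) _ _ (fun a => rfl)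
    rw [Finset.sum_congr rfl fun a _ => h1 a, ← Finset.sum_mul, h3,
      hG F δ ψ hδ hadd hpm h0 s hs]
  have e2 : ∑ s : F, - q ^ 2 * ψ (Qf δ z * s⁻¹) = - q ^ 2 * (if Qf δ z = 0 then q else 0) := by
    rw [← Finset.mul_sum]
    congr 1
    have h3 : ∑ s : F, ψ (Qf δ z * s⁻¹) = ∑ s : F, ψ (Qf δ z * s) :=
      Function.Bijective.sum_comp (inv_involutive (G := F)).bijective (fun s => ψ (Qf δ z * s))
    rw [h3]
    exact Gau_sum_psi_mul hadd hpm h0 _
  rw [Gau_sum_swap_zero e1, e2] at e0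
  have e3 : ∑ a : F × F × F × F, ψ (0 * Qf δ a + Bf a z) = if z = 0 then q ^ 4 else 0 := by
    rw [← Quad_sum_B hadd hpm h0 z]
    refine Finset.sum_congr rfl fun a _ => ?_
    rw [zero_mul, zero_add]
  rw [e3] at e0
  simp only [inv_zero, mul_zero, Gau_psi_zero hadd hpm, mul_one] at e0
  refine mul_left_cancel₀ hqpos.ne' ?_
  rw [e0]
  split_ifs <;> ring

end Pool.Agent.Helper19.SR
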