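import Pool.Agent.Helper19.SR.St

/-! SR module Rat (MP_e46579_co): the ratio in dimension `8 ^ k`. -/

set_option autoImplicit false

namespace Pool.Agent.Helper19.SR

open Real Finset MeasureTheory
open Pool.Agent.Helper77.Steiner
open scoped ENNReal

theorem Rat_add_self {F : Type} [Field F] [CharP F 2] (x : F × F × F × F) : x + x = 0 := by
  obtain ⟨a, b, c, d⟩ := x
  simp [CharTwo.add_self_eq_zero]

theorem Rat_exists_field (k : ℕ) (hk : 1 ≤ k) : ∃ (F : Type) (_ : Field F) (_ : Fintype F) (_ : DecidableEq F)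
    (_ : CharP F 2), Fintype.card F = 2 ^ k := by
  classical
  refine ⟨GaloisField 2 k, inferInstance, Fintype.ofFinite _, Classical.decEq _, inferInstance, ?_⟩
  have h := GaloisField.card 2 k (by omega)
  rw [← h]
  exact Fintype.card_eq_nat_card

theorem Rat_final {n : ℝ} (hn : 16 ≤ n) : (√3 / (4 - √2) * n + 4) / (n - 1) ≤ √3 / (4 - √2) * (1 + 8 / n) := by
  have h2g : 1414 / 1000 < √2 := by rw [Real.lt_sqrt (by norm_num)]; norm_num
  have h2l : √2 < 3 / 2 := by rw [Real.sqrt_lt' (by norm_num)]; norm_num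
  have h3g : 173 / 100 < √3 := by rw [Real.lt_sqrt (by norm_num)]; norm_num
  obtain ⟨ρ, hρ⟩ : ∃ ρ, ρ = √3 / (4 - √2) := ⟨_, rfl⟩
  have hρ1 : 13 / 20 ≤ ρ := by
    rw [hρ, le_div_iff₀ (by linarith)]
    linarith
  rw [← hρ, div_le_iff₀ (by linarith)]
  have hn0 : n ≠ 0 := by positivity
  have e : ρ * (1 + 8 / n) * (n - 1) = ρ * n + ρ * (7 - 8 / n) := by
    field_simp
    ring
  rw [e]
  have h8 : 8 / n ≤ 1 / 2 := by
    rw [div_le_iff₀ (by linarith)]; linarith
  nlinarith

theorem hRat (hTree : StTree) (hCen : StCen) (hCode : StCode) (hBas : StBas) (hCntA : StCntA) (hCntB : StCntB)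
    (hDDp : StDDp) (hNum : StNum) : StRat := by
  intro k d hk hd
  obtain ⟨F, _, _, _, _, hF⟩ := Rat_exists_field k hk
  obtain ⟨δ, hδ, hv⟩ := hCode k hk F hF
  have horth : Orthonormal ℝ (fun i : Fin (8 ^ k) => EuclideanSpace.basisFun (Fin d) ℝ (Fin.castLE hd i)) :=
    (EuclideanSpace.basisFun (Fin d) ℝ).orthonormal.comp _ (Fin.castLE_injective hd)
  obtain ⟨v, hv1, hv2, hv3⟩ := hv (EuclideanSpace ℝ (Fin d)) _ horth
  obtain ⟨e, he1, he2⟩ := hBas k F hF
  obtain ⟨hA1, hA2⟩ := hCntA k F e he1 he2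
  obtain ⟨hB1, hB2, hB3⟩ := hCntB k F δ e hδ he1
  obtain ⟨hD1, hD2, hD3, hD4, hD5⟩ := hDDp k hk
  have h2k : (0 : ℝ) < 2 ^ k := by positivity
  have hdist : ∀ j < 4 * k, ∀ y, ‖cenr v (sh k e) j y - cenr v (sh k e) j (y + sh k e j)‖ ≤ DD k j := by
    intro j hj y
    have h := hCen (EuclideanSpace ℝ (Fin d)) (F × F × F × F) (fun z => Qf δ z = 0) v (sh k e) (2 / 2 ^ k) j
      (by positivity) Rat_add_self hv1 hv2 hv3
      (fun S T hS hT => hA1 S T (hS.trans (range_subset_range.2 hj.le)) (hT.trans (range_subset_range.2 hj.le))) y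
    refine (sq_le_sq₀ (norm_nonneg _) (hD1 j).le).1 (h.trans ?_)
    rcases lt_or_ge j (2 * k) with h1 | h1
    · rw [hB1 j h1]
      simpa using hD3 j h1
    · rcases lt_or_ge j (3 * k) with h2 | h2
      · refine le_trans ?_ (hD4 j h1 h2)
        have := hB2 j h1 h2
        have hc : (((range j).powerset.filter
          fun S => Qf δ (sh k e j + ∑ i ∈ S, sh k e i) = 0).card : ℝ) ≤ 2 ^ (j - 2 * k) := by exact_mod_cast this
        gcongr
      · refine le_trans ?_ (hD5 j h2 hj)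
        have := hB3 j h2 hj
        have hc : (((range j).powerset.filter
          fun S => Qf δ (sh k e j + ∑ i ∈ S, sh k e i) = 0).card : ℝ) ≤ 4 ^ k * 2 ^ (j - 3 * k) := by
          exact_mod_cast this
        gcongr
  obtain ⟨S, hS1, hS2, hS3, hS4⟩ := hTree (EuclideanSpace ℝ (Fin d)) (F × F × F × F) v (sh k e) (DD k) (4 * k) 0
    hD1 hD2 hdist
  have hinj : Function.Injective v := by
    intro x y hxy
    by_contra hne
    have := hv1 x y hne
    rw [hxy, sub_self, norm_zero] at this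
    norm_num at this
  classical
  obtain ⟨A, hAdef⟩ : ∃ A : Finset (EuclideanSpace ℝ (Fin d)), A = univ.image v := ⟨_, rfl⟩
  have hcard : A.card = 16 ^ k := by
    rw [hAdef, card_image_of_injective _ hinj, card_univ, Fintype.card_prod, Fintype.card_prod, Fintype.card_prod, hF,
      ← mul_pow, ← mul_pow, ← mul_pow]
    norm_num
  have h16 : 16 ^ 1 ≤ 16 ^ k := Nat.pow_le_pow_right (by norm_num) hk
  have hA2' : 2 ≤ A.card := by rw [hcard]; omega
  have hAne : A.Nonempty := Finset.card_pos.1 (by omega)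
  have hAS : (A : Set (EuclideanSpace ℝ (Fin d))) ⊆ S := by
    intro x hx
    rw [hAdef, Finset.coe_image] at hx
    obtain ⟨i, _, rfl⟩ := hx
    exact hS3 i (hA2 i)
  have hSA : S ∪ (A : Set (EuclideanSpace ℝ (Fin d))) = S := Set.union_eq_left.2 hAS
  have hst : steinerLen A ≤ ENNReal.ofReal (√3 / (4 - √2) * 16 ^ k + 4) := by
    unfold steinerLen
    refine (iInf_le_of_le S (iInf₂_le_of_le hS1 (by rw [hSA]; exact hS2) hS4)).trans ?_
    exact ENNReal.ofReal_le_ofReal (hNum k hk)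
  have hmst : ((16 : ℝ) ^ k - 1) ≤ mstLen A := by
    have h := le_mstLen A hAne 1 (by
      intro x hx y hy hxy
      rw [hAdef, mem_image] at hx hy
      obtain ⟨i, _, rfl⟩ := hx
      obtain ⟨j, _, rfl⟩ := hy
      have hij : i ≠ j := fun h => hxy (by rw [h])
      rw [dist_eq_norm]
      have := hv1 i j hij
      have h0 := norm_nonneg (v i - v j)
      nlinarith)
    rw [hcard, mul_one] at h
    exact_mod_cast h
  have h16r : (16 : ℝ) ≤ 16 ^ k := by
    have : ((16 ^ 1 : ℕ) : ℝ) ≤ ((16 ^ k : ℕ) : ℝ) := by exact_mod_cast h16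
    push_cast at this
    simpa using this
  have hpos : (0 : ℝ) < 16 ^ k - 1 := by linarith
  show steinerRatioOf (EuclideanSpace ℝ (Fin d)) ≤ _
  unfold steinerRatioOf
  refine (iInf₂_le A hA2').trans ?_
  calc steinerLen A / ENNReal.ofReal (mstLen A) ≤
      ENNReal.ofReal (√3 / (4 - √2) * 16 ^ k + 4) / ENNReal.ofReal (16 ^ k - 1) :=
        ENNReal.div_le_div hst (ENNReal.ofReal_le_ofReal hmst)
    _ = ENNReal.ofReal ((√3 / (4 - √2) * 16 ^ k + 4) / (16 ^ k - 1)) := by
        rw [ENNReal.ofReal_div_of_pos hpos]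
    _ ≤ _ := ENNReal.ofReal_le_ofReal (Rat_final h16r)

end Pool.Agent.Helper19.SR
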