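import Pool.Agent.Helper19.SR.St

set_option autoImplicit false

namespace Pool.Agent.Helper19.SR

open Real Finset MeasureTheory
open Pool.Agent.Helper77.Steiner

lemma Sl_key (s e x1 x2 : ℝ) (h2 : s ^ 2 = 2) :
    (3 - 4 * s / 3) * (1 - (1 / 2 + e) * (1 / 2 - e)) * (x1 ^ 2 + x2 ^ 2) -
      (x1 * (1 - (1 / 2 + e) * (s / 2)) + x2 * (1 - (1 / 2 - e) * (s / 2))) ^ 2 =
      ((1 - s / 4) * (x1 - x2) + (s / 2) * e * (x1 + x2)) ^ 2 +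
        4 * (1 / 2 - s / 3) * e ^ 2 * (x1 ^ 2 + x2 ^ 2) := by
  linear_combination (-((1 / 2 + e) * x1 + (1 / 2 - e) * x2) ^ 2 / 4 -
    (-(x1 - x2) / 4 + e * (x1 + x2) / 2) ^ 2) * h2

lemma Sl_quad (A B : ℝ) : 57 / 1057 * A ^ 2 ≤ (A + B) ^ 2 + 57 / 1000 * B ^ 2 := by
  have : (A + B) ^ 2 + 57 / 1000 * B ^ 2 - 57 / 1057 * A ^ 2 =
      1000 / 1057 * (A + 1057 / 1000 * B) ^ 2 := by ring
  have h : 0 ≤ 1000 / 1057 * (A + 1057 / 1000 * B) ^ 2 := by positivity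
  linarith

theorem hSl : StSl := by
  intro p q x1 x2 hp hq hpq hx1 hx2
  rw [cst_sq]
  unfold gl
  have h2 := sq2
  have hlt := sqrt2_lt
  have hgt := sqrt2_gt
  generalize √2 = s at *
  obtain ⟨e, he⟩ : ∃ e : ℝ, p = 1 / 2 + e := ⟨p - 1 / 2, by ring⟩
  have hq' : q = 1 / 2 - e := by linarith
  subst he
  subst hq'
  have key := Sl_key s e x1 x2 h2
  have hquad := Sl_quad ((1 - s / 4) * (x1 - x2)) ((s / 2) * e * (x1 + x2))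
  obtain ⟨S, hS⟩ : ∃ S, S = e ^ 2 * (x1 + x2) ^ 2 := ⟨_, rfl⟩
  obtain ⟨T, hT⟩ : ∃ T, T = (x1 - x2) ^ 2 := ⟨_, rfl⟩
  have hS0 : 0 ≤ S := by rw [hS]; positivity
  have hT0 : 0 ≤ T := by rw [hT]; positivity
  have h3 : 0 ≤ 1 / 2 - s / 3 := by linarith
  have h4 : 2 * (1 / 2 - s / 3) * S ≤ 4 * (1 / 2 - s / 3) * e ^ 2 * (x1 ^ 2 + x2 ^ 2) := by
    have e1 : 4 * (1 / 2 - s / 3) * e ^ 2 * (x1 ^ 2 + x2 ^ 2) =
        2 * (1 / 2 - s / 3) * S + 2 * ((1 / 2 - s / 3) * (e ^ 2 * T)) := by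
      rw [hS, hT]; ring
    have : 0 ≤ (1 / 2 - s / 3) * (e ^ 2 * T) := by positivity
    linarith
  have hB2 : ((s / 2) * e * (x1 + x2)) ^ 2 = S / 2 := by
    have e1 : ((s / 2) * e * (x1 + x2)) ^ 2 = s ^ 2 * (e ^ 2 * (x1 + x2) ^ 2) / 4 := by ring
    rw [e1, h2, hS]; ring
  have hA2 : 417 / 1000 * T ≤ ((1 - s / 4) * (x1 - x2)) ^ 2 := by
    have e1 : ((1 - s / 4) * (x1 - x2)) ^ 2 = (1 - s / 4) ^ 2 * T := by rw [hT]; ring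
    rw [e1]
    apply mul_le_mul_of_nonneg_right _ hT0
    have e2 : (1 - s / 4) ^ 2 = 1 - s / 2 + s ^ 2 / 16 := by ring
    rw [e2, h2]
    linarith
  have h6 : 0.0571 * S ≤ 2 * (1 / 2 - s / 3) * S :=
    mul_le_mul_of_nonneg_right (by linarith) hS0
  have h7 : 1 / 40 * (1 / 2 + e - 1 / 2) ^ 2 * (x1 + x2) ^ 2 = 1 / 40 * S := by rw [hS]; ring
  rw [h7, ← hT]
  rw [hB2] at hquad
  linarith

end Pool.Agent.Helper19.SR
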