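import Pool.Agent.Helper19.SR.St

/-!
# SR, module Tree: trees along a chain of generators
-/

set_option autoImplicit false

namespace Pool.Agent.Helper19.SR

open Real Finset MeasureTheory
open Pool.Agent.Helper77.Steiner
open scoped ENNReal

noncomputable section

def Tree_A (D : ℕ → ℝ) (j : ℕ) : ℝ := D j / √3 + ∑ i ∈ range j, 2 ^ (j - 1 - i) * (√3 * D i)

theorem Tree_len (D : ℕ → ℝ) (J : ℕ) : treeLen D J = (1 / 2) * Tree_A D J := rfl

theorem Tree_A_succ (D : ℕ → ℝ) (j : ℕ) :
    Tree_A D (j + 1) = 2 * Tree_A D j + √3 * D j - 2 * (D j / √3) + D (j + 1) / √3 := by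
  unfold Tree_A
  rw [sum_range_succ]
  have h1 : ∑ i ∈ range j, (2 : ℝ) ^ (j + 1 - 1 - i) * (√3 * D i) =
      2 * ∑ i ∈ range j, 2 ^ (j - 1 - i) * (√3 * D i) := by
    rw [mul_sum]
    refine sum_congr rfl fun i hi => ?_
    rw [mem_range] at hi
    have h2 : j + 1 - 1 - i = (j - 1 - i) + 1 := by omega
    rw [h2, pow_succ]
    ring
  rw [h1]
  have h3 : j + 1 - 1 - j = 0 := by omega
  rw [h3]
  ring

theorem Tree_A_nonneg (D : ℕ → ℝ) (hD : ∀ j, 0 < D j) (j : ℕ) : 0 ≤ Tree_A D j := by
  unfold Tree_A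
  have h1 : 0 ≤ ∑ i ∈ range j, (2 : ℝ) ^ (j - 1 - i) * (√3 * D i) :=
    sum_nonneg fun i _ => by have := (hD i).le; positivity
  have h2 : 0 ≤ D j / √3 := by have := (hD j).le; positivity
  linarith

theorem Tree_step {A β β' D R s ρ : ℝ} (hβ : 0 < β) (hβ' : 0 < β') (hle : β ≤ 2 * β')
    (hs : s = β' - β / 2) (hρ : ρ = (β / 2) / β') :
    A + (2 * (ρ * R) ^ 2 + D ^ 2 / 2) / (2 * β) + (1 - ρ) * R ≤
      (2 * A + D ^ 2 / (2 * β) + s + R ^ 2 / β') / 2 := by
  have h1 : (2 * A + D ^ 2 / (2 * β) + s + R ^ 2 / β') / 2 -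
      (A + (2 * (ρ * R) ^ 2 + D ^ 2 / 2) / (2 * β) + (1 - ρ) * R) =
      s / 2 * (1 - R / β') ^ 2 := by
    rw [hs, hρ]
    field_simp
    ring
  have h2 : 0 ≤ s := by rw [hs]; linarith
  have h3 : 0 ≤ s / 2 * (1 - R / β') ^ 2 := by positivity
  linarith

theorem hTree : StTree := by
  intro E G _ _ _ _ _ v h D J x hD hD2 hc
  have h30 : (0 : ℝ) < √3 := by positivity
  have h3s : √3 * √3 = (3 : ℝ) := Real.mul_self_sqrt (by norm_num)
  have key : ∀ j, j ≤ J → ∀ (x : G) (z : E), ∃ S : Set E, IsClosed S ∧ IsConnected S ∧ z ∈ S ∧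
      (∀ y ∈ pts h j x, v y ∈ S) ∧
      μH[1] S ≤ ENNReal.ofReal ((Tree_A D j + ‖z - cenr v h j x‖ ^ 2 / (D j / √3)) / 2) := by
    intro j
    induction j with
    | zero =>
      intro _ x z
      refine ⟨segment ℝ z (v x), isClosed_seg _ _, isConnected_seg _ _, left_mem_segment ℝ _ _,
        ?_, ?_⟩
      · intro y hy
        have hy' : y = x := hy
        rw [hy']
        exact right_mem_segment ℝ _ _
      · rw [hausdorffMeasure_segment, edist_dist, dist_eq_norm]
        apply ENNReal.ofReal_le_ofReal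
        have hb : 0 < D 0 / √3 := div_pos (hD 0) h30
        have hA : Tree_A D 0 = D 0 / √3 := by unfold Tree_A; simp
        rw [hA]
        show ‖z - v x‖ ≤ (D 0 / √3 + ‖z - v x‖ ^ 2 / (D 0 / √3)) / 2
        set b := D 0 / √3
        set R := ‖z - v x‖
        have h1 : (b + R ^ 2 / b) / 2 - R = (b - R) ^ 2 / (2 * b) := by
          field_simp
          ring
        have h2 : 0 ≤ (b - R) ^ 2 / (2 * b) := by positivity
        linarith
    | succ j ih =>
      intro hj x z
      set m1 := cenr v h j x with hm1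
      set m2 := cenr v h j (x + h j) with hm2
      have hm : cenr v h (j + 1) x = (1 / 2 : ℝ) • (m1 + m2) := rfl
      rw [hm]
      set m : E := (1 / 2 : ℝ) • (m1 + m2) with hmdef
      set β := D j / √3 with hβ
      set β' := D (j + 1) / √3 with hβ'
      have hβ0 : 0 < β := div_pos (hD j) h30
      have hβ'0 : 0 < β' := div_pos (hD (j + 1)) h30
      have hle : β ≤ 2 * β' := by
        rw [hβ, hβ', ← mul_div_assoc]
        exact div_le_div_of_nonneg_right (hD2 j) h30.le
      set ρ := (β / 2) / β' with hρ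
      have hρ0 : 0 ≤ ρ := by positivity
      have hρ1 : ρ ≤ 1 := by
        rw [hρ, div_le_one hβ'0]; linarith
      set P : E := m + ρ • (z - m) with hP
      obtain ⟨S1, h11, h12, h13, h14, h15⟩ := ih (by omega) x P
      obtain ⟨S2, h21, h22, h23, h24, h25⟩ := ih (by omega) (x + h j) P
      refine ⟨(S1 ∪ S2) ∪ segment ℝ P z, (h11.union h21).union (isClosed_seg _ _), ?_,
        Or.inr (right_mem_segment ℝ _ _), ?_, ?_⟩
      · exact IsConnected.union ⟨P, Or.inl h13, left_mem_segment ℝ _ _⟩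
          (IsConnected.union ⟨P, h13, h23⟩ h12 h22) (isConnected_seg _ _)
      · intro y hy
        have hy' : y ∈ pts h j x ∪ pts h j (x + h j) := hy
        rcases hy' with hy' | hy'
        · exact Or.inl (Or.inl (h14 y hy'))
        · exact Or.inl (Or.inr (h24 y hy'))
      · set R := ‖z - m‖ with hR
        have hR0 : 0 ≤ R := norm_nonneg _
        have hPm : P - m = ρ • (z - m) := by rw [hP]; abel
        have hPz : P - z = -((1 - ρ) • (z - m)) := by
          rw [hP, sub_smul, one_smul]; abel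
        have hPmn : ‖P - m‖ = ρ * R := by
          rw [hPm, norm_smul, Real.norm_eq_abs, abs_of_nonneg hρ0]
        have hPzn : ‖P - z‖ = (1 - ρ) * R := by
          rw [hPz, norm_neg, norm_smul, Real.norm_eq_abs, abs_of_nonneg (by linarith)]
        have hd : ‖m1 - m2‖ ≤ D j := hc j (by omega) x
        have hd2 : ‖m1 - m2‖ ^ 2 ≤ D j ^ 2 := pow_le_pow_left₀ (norm_nonneg _) hd 2
        have hpar : ‖P - m1‖ ^ 2 + ‖P - m2‖ ^ 2 = 2 * ‖P - m‖ ^ 2 + ‖m1 - m2‖ ^ 2 / 2 := by
          have e1 : P - m1 = (P - m) - (1 / 2 : ℝ) • (m1 - m2) := by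
            rw [hmdef]
            module
          have e2 : P - m2 = (P - m) + (1 / 2 : ℝ) • (m1 - m2) := by
            rw [hmdef]
            module
          have e3 := parallelogram_law_with_norm ℝ (P - m) ((1 / 2 : ℝ) • (m1 - m2))
          rw [← e1, ← e2] at e3
          have e4 : ‖(1 / 2 : ℝ) • (m1 - m2)‖ = ‖m1 - m2‖ / 2 := by
            rw [norm_smul, Real.norm_eq_abs, abs_of_nonneg (by norm_num)]
            ring
          rw [e4] at e3
          nlinarith
        have hA0 := Tree_A_nonneg D hD j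
        have hmeas : μH[1] ((S1 ∪ S2) ∪ segment ℝ P z) ≤
            ENNReal.ofReal ((Tree_A D j + ‖P - m1‖ ^ 2 / β) / 2) +
            ENNReal.ofReal ((Tree_A D j + ‖P - m2‖ ^ 2 / β) / 2) +
            ENNReal.ofReal (‖P - z‖) := by
          calc μH[1] ((S1 ∪ S2) ∪ segment ℝ P z) ≤ μH[1] (S1 ∪ S2) + μH[1] (segment ℝ P z) :=
                measure_union_le _ _
            _ ≤ (μH[1] S1 + μH[1] S2) + μH[1] (segment ℝ P z) := by
                gcongr
                exact measure_union_le _ _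
            _ ≤ _ := by
                have hseg : μH[1] (segment ℝ P z) = ENNReal.ofReal (‖P - z‖) := by
                  rw [hausdorffMeasure_segment, edist_dist, dist_eq_norm]
                rw [hseg]
                gcongr
        refine le_trans hmeas ?_
        rw [← ENNReal.ofReal_add (by positivity) (by positivity),
          ← ENNReal.ofReal_add (by positivity) (by positivity)]
        apply ENNReal.ofReal_le_ofReal
        have hst := Tree_step (A := Tree_A D j) (D := D j) (R := R) hβ0 hβ'0 hle rfl hρ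
        have hA1 : Tree_A D (j + 1) = 2 * Tree_A D j + D j ^ 2 / (2 * β) + (β' - β / 2) := by
          rw [Tree_A_succ]
          have e1 : D j = √3 * β := by rw [hβ]; field_simp
          have e2 : D j ^ 2 / (2 * β) = 3 / 2 * β := by
            rw [e1]
            field_simp
            nlinarith
          have e3 : √3 * D j = 3 * β := by rw [e1, ← mul_assoc, h3s]
          rw [e2, e3]
          ring
        rw [hA1]
        have e5 : (Tree_A D j + ‖P - m1‖ ^ 2 / β) / 2 + (Tree_A D j + ‖P - m2‖ ^ 2 / β) / 2 +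
            ‖P - z‖ = Tree_A D j + (‖P - m1‖ ^ 2 + ‖P - m2‖ ^ 2) / (2 * β) + ‖P - z‖ := by
          field_simp
          ring
        rw [e5, hpar, hPmn, hPzn]
        have e6 : (2 * (ρ * R) ^ 2 + ‖m1 - m2‖ ^ 2 / 2) / (2 * β) ≤
            (2 * (ρ * R) ^ 2 + D j ^ 2 / 2) / (2 * β) := by
          apply div_le_div_of_nonneg_right _ (by positivity)
          linarith
        linarith
  obtain ⟨S, h1, h2, _, h4, h5⟩ := key J le_rfl x (cenr v h J x)
  refine ⟨S, h1, h2, h4, le_trans h5 ?_⟩
  apply ENNReal.ofReal_le_ofReal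
  rw [Tree_len, sub_self, norm_zero]
  have : (0 : ℝ) ^ 2 / (D J / √3) = 0 := by norm_num
  rw [this]
  linarith

end

end Pool.Agent.Helper19.SR
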