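import Pool.Agent.Helper19.SR.St

/-!
# SR (MP_e46579_co), module Upp: the upper bound for all dimensions (helper80)
-/

set_option autoImplicit false

namespace Pool.Agent.Helper19.SR

open Real Finset MeasureTheory
open Pool.Agent.Helper77.Steiner
open scoped ENNReal

theorem Upp_one (d : ℕ) (hd : 1 ≤ d) : steinerRatio d ≤ 1 := by
  classical
  obtain ⟨n, rfl⟩ : ∃ n, d = n + 1 := ⟨d - 1, by omega⟩
  obtain ⟨e, he⟩ : ∃ e : EuclideanSpace ℝ (Fin (n + 1)), e = EuclideanSpace.single 0 1 := ⟨_, rfl⟩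
  have hn : ‖e‖ = 1 := by rw [he]; simp
  have hne : (0 : EuclideanSpace ℝ (Fin (n + 1))) ≠ e := by
    intro h
    rw [← h, norm_zero] at hn
    norm_num at hn
  obtain ⟨A, hA⟩ : ∃ A : Finset (EuclideanSpace ℝ (Fin (n + 1))), A = {0, e} := ⟨_, rfl⟩
  have hc : A.card = 2 := by rw [hA]; exact Finset.card_pair hne
  have h1 : steinerLen A ≤ 1 := by
    unfold steinerLen
    have hU : segment ℝ 0 e ∪ (A : Set (EuclideanSpace ℝ (Fin (n + 1)))) = segment ℝ 0 e := by
      rw [Set.union_eq_left, hA]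
      intro x hx
      simp only [Finset.coe_insert, Finset.coe_singleton, Set.mem_insert_iff, Set.mem_singleton_iff] at hx
      rcases hx with rfl | rfl
      · exact left_mem_segment ℝ _ _
      · exact right_mem_segment ℝ _ _
    have hcl : IsClosed (segment ℝ 0 e) := by
      rw [segment_eq_image_lineMap]
      exact (isCompact_Icc.image (by fun_prop)).isClosed
    have hco : IsConnected (segment ℝ 0 e ∪ (A : Set (EuclideanSpace ℝ (Fin (n + 1))))) := by
      rw [hU]
      exact (convex_segment 0 e).isConnected ⟨0, left_mem_segment ℝ _ _⟩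
    refine (iInf₂_le _ hcl).trans ((iInf_le _ hco).trans ?_)
    rw [hausdorffMeasure_segment, edist_comm, edist_zero_right, ← ofReal_norm, hn]
    simp
  have h2 : 1 ≤ mstLen A := by
    have h3 := le_mstLen A (Finset.card_pos.1 (by omega)) 1 (by
      intro x hx y hy hxy
      rw [hA] at hx hy
      simp only [Finset.mem_insert, Finset.mem_singleton] at hx hy
      rcases hx with rfl | rfl <;> rcases hy with rfl | rfl
      · exact absurd rfl hxy
      · rw [dist_comm, dist_zero_right, hn]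
      · rw [dist_zero_right, hn]
      · exact absurd rfl hxy)
    rw [hc] at h3
    norm_num at h3
    exact h3
  unfold steinerRatio steinerRatioOf
  refine (iInf₂_le A hc.ge).trans ?_
  refine ENNReal.div_le_of_le_mul ?_
  rw [one_mul]
  exact h1.trans (by rw [← ENNReal.ofReal_one]; exact ENNReal.ofReal_le_ofReal h2)

theorem Upp_pow (d k : ℕ) (hd : 1 ≤ d) (h : d ≤ 8 ^ (k + 1)) :
    8 / 16 ^ k ≤ 128 * (d : ℝ) ^ (-(4 / 3) : ℝ) := by
  have hd0 : (0 : ℝ) < d := by exact_mod_cast hd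
  have h1 : (d : ℝ) ^ (4 / 3 : ℝ) ≤ 16 ^ (k + 1) := by
    have h2 : (d : ℝ) ≤ (2 ^ (k + 1)) ^ 3 := by
      have : ((d : ℕ) : ℝ) ≤ ((8 ^ (k + 1) : ℕ) : ℝ) := by exact_mod_cast h
      refine this.trans (le_of_eq ?_)
      push_cast
      rw [← pow_mul, mul_comm (k + 1) 3, pow_mul]; norm_num
    calc (d : ℝ) ^ (4 / 3 : ℝ) ≤ (((2 : ℝ) ^ (k + 1)) ^ 3) ^ (4 / 3 : ℝ) :=
          Real.rpow_le_rpow hd0.le h2 (by norm_num)
      _ = 16 ^ (k + 1) := by
          rw [← Real.rpow_natCast, ← Real.rpow_mul (by positivity)]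
          norm_num
          rw [← pow_mul, mul_comm (k + 1) 4, pow_mul]
          norm_num
  rw [Real.rpow_neg hd0.le]
  have h3 : 0 < (d : ℝ) ^ (4 / 3 : ℝ) := by positivity
  rw [div_le_iff₀ (by positivity), mul_assoc, ← div_eq_inv_mul, ← mul_div_assoc, le_div_iff₀ h3]
  rw [pow_succ] at h1
  linarith

theorem hUpp (hRat : StRat) : StUpp := by
  intro d hd
  have h2 : √2 < 2 := by
    rw [Real.sqrt_lt' (by norm_num)]; norm_num
  have h3 : 1 ≤ √3 := by
    rw [Real.one_le_sqrt]; norm_num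
  have h20 : 0 ≤ √2 := Real.sqrt_nonneg _
  have hc : 1 / 9 ≤ √3 / (4 - √2) := by
    rw [div_le_div_iff₀ (by norm_num) (by linarith)]; linarith
  have hc0 : 0 ≤ √3 / (4 - √2) := le_trans (by norm_num) hc
  by_cases h8 : d < 8
  · have h1 := Upp_pow d 0 hd (by simpa using h8.le)
    refine (Upp_one d hd).trans ?_
    rw [← ENNReal.ofReal_one]
    apply ENNReal.ofReal_le_ofReal
    norm_num at h1
    calc (1 : ℝ) = 1 / 9 * (1 + 8) := by norm_num
      _ ≤ √3 / (4 - √2) * (1 + 128 * (d : ℝ) ^ (-(4 / 3) : ℝ)) := by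
          refine mul_le_mul hc ?_ (by norm_num) hc0
          linarith
  · rw [not_lt] at h8
    have hk1 : 1 ≤ Nat.log 8 d := Nat.log_pos (by norm_num) h8
    have hk2 : 8 ^ Nat.log 8 d ≤ d := Nat.pow_log_le_self 8 (by omega)
    have hk3 : d < 8 ^ (Nat.log 8 d + 1) := Nat.lt_pow_succ_log_self (by norm_num) d
    refine (hRat _ d hk1 hk2).trans (ENNReal.ofReal_le_ofReal ?_)
    refine mul_le_mul_of_nonneg_left ?_ hc0
    have := Upp_pow d (Nat.log 8 d) hd hk3.le
    linarith

end Pool.Agent.Helper19.SR
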