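import Pool.Agent.Helper19.SR.M_Ort
import Pool.Agent.Helper19.SR.M_Pt
import Pool.Agent.Helper19.SR.M_Dim
import Pool.Agent.Helper19.SR.M_BB
import Pool.Agent.Helper19.SR.M_Om
import Pool.Agent.Helper19.SR.M_Sl
import Pool.Agent.Helper19.SR.M_Near
import Pool.Agent.Helper19.SR.M_Far
import Pool.Agent.Helper19.SR.M_N1
import Pool.Agent.Helper19.SR.M_N2
import Pool.Agent.Helper19.SR.M_N3
import Pool.Agent.Helper19.SR.M_Mon
import Pool.Agent.Helper19.SR.M_Cl
import Pool.Agent.Helper19.SR.M_Pair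
import Pool.Agent.Helper19.SR.M_Merge
import Pool.Agent.Helper19.SR.M_Net
import Pool.Agent.Helper19.SR.M_Low
import Pool.Agent.Helper19.SR.M_Tree
import Pool.Agent.Helper19.SR.M_Cen
import Pool.Agent.Helper19.SR.M_Fld
import Pool.Agent.Helper19.SR.M_Gau
import Pool.Agent.Helper19.SR.M_Quad
import Pool.Agent.Helper19.SR.M_Code
import Pool.Agent.Helper19.SR.M_Bas
import Pool.Agent.Helper19.SR.M_CntA
import Pool.Agent.Helper19.SR.M_CntB
import Pool.Agent.Helper19.SR.M_DDp
import Pool.Agent.Helper19.SR.M_Num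
import Pool.Agent.Helper19.SR.M_Rat
import Pool.Agent.Helper19.SR.M_Upp

set_option autoImplicit false

namespace Pool.Agent.Helper19.SR

open Real Finset MeasureTheory
open Pool.Agent.Helper77.Steiner

theorem fLow : StLow :=
  hLow (hNet hBB (hDim (hPt hOrt)) (hMerge (hPair hBB hOm (hFar hBB hOm hSl)
    (hN1 hBB hSl hNear) (hN2 hBB hSl hNear) (hN3 hBB hSl hNear) (hMon hBB) (hCl hBB))))

theorem fUpp : StUpp :=
  hUpp (hRat hTree hCen (hCode hFld (hQuad hGau)) hBas hCntA hCntB hDDp hNum)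

end Pool.Agent.Helper19.SR
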