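import Pool.Agent.Helper5.SR.St2

set_option autoImplicit false

namespace Pool.Agent.Helper19.SR

open Complex MeasureTheory Set Metric Filter Topology
open scoped Real
open Pool.Agent.Helper60.Rel (LH tc Admissible ClassS)
open Helper5.SR Pool.Agent.Helper51.LT

theorem hDis : StDis := by
  intro C T hT ζ h1 h2
  obtain ⟨hd, hi, hper, hre, hC⟩ := hT
  set d : ℝ := -ζ.re with hdd
  have hd0 : 0 < d := by linarith
  have hopen : IsOpen LH := isOpen_lt continuous_re continuous_const
  set g : ℝ → ℂ := fun s => (s : ℂ) + ζ.im * I with hg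
  have hgre : ∀ s : ℝ, (g s).re = s := by intro s; simp [hg]
  have hgmem : ∀ s : ℝ, s < 0 → g s ∈ LH := by
    intro s hs
    show (g s).re < 0
    rw [hgre]; exact hs
  have hgder : ∀ s : ℝ, HasDerivAt g 1 s := by
    intro s
    simpa [hg] using (Complex.ofRealCLM.hasDerivAt (x := s)).add_const ((ζ.im : ℂ) * I)
  have hTder : ∀ s : ℝ, s < 0 → HasDerivAt (fun s => T (g s) - T (g (-1))) (deriv T (g s)) s := by
    intro s hs
    have h3 : HasDerivAt T (deriv T (g s)) (g s) :=
      (hd.differentiableAt (hopen.mem_nhds (hgmem s hs))).hasDerivAt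
    have h4 := h3.comp s (hgder s)
    rw [mul_one] at h4
    exact h4.sub_const _
  have key := image_norm_le_of_norm_deriv_right_le_deriv_boundary'
    (f := fun s : ℝ => T (g s) - T (g (-1))) (f' := fun s => deriv T (g s))
    (a := -1) (b := ζ.re) (B := fun s => -(30 * Real.log (-s))) (B' := fun s => 30 / (-s))
    (fun s hs => (hTder s (lt_of_le_of_lt hs.2 h2)).continuousAt.continuousWithinAt)
    (fun s hs => (hTder s (hs.2.trans h2)).hasDerivWithinAt)
    (by simp)
    (by
      intro s hs
      have : s < 0 := lt_of_le_of_lt hs.2 h2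
      apply ContinuousAt.continuousWithinAt
      have h5 : ContinuousAt (fun s : ℝ => Real.log (-s)) s :=
        (Real.continuousAt_log (by linarith)).comp continuous_neg.continuousAt
      exact (h5.const_mul 30).neg)
    (by
      intro s hs
      have hs0 : s < 0 := hs.2.trans h2
      apply HasDerivAt.hasDerivWithinAt
      have h6 : HasDerivAt (fun s : ℝ => -s) (-1) s := hasDerivAt_neg s
      have h7 := ((h6.log (by linarith)).const_mul 30).neg
      have h7' : -(30 * (-1 / -s)) = 30 / (-s) := by ring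
      rw [h7'] at h7
      exact h7)
    (by
      intro s hs
      have hs0 : s < 0 := hs.2.trans h2
      have h8 := Pool.Agent.Helper46.Rel.deriv_bound_of Pool.Agent.Helper60.Rel.bieb hd hi hper
        (hgmem s hs0) (by rw [hgre]; exact hs.1)
      rwa [hgre] at h8)
  have h9 := key (x := ζ.re) ⟨h1, le_refl _⟩
  have hgz : g ζ.re = ζ := by simp [hg, Complex.re_add_im]
  simp only [hgz] at h9
  have h10 : ‖T (g (-1)) - g (-1)‖ ≤ C := hC (g (-1)) (by rw [hgre])
  have h11 : ‖g (-1) - ζ‖ ≤ 1 := by
    have : g (-1) - ζ = ((-1 - ζ.re : ℝ) : ℂ) := by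
      apply Complex.ext
      · simp [hg]
      · simp [hg]
    rw [this, Complex.norm_real, Real.norm_eq_abs, abs_le]
    constructor <;> linarith
  have h12 : -(30 * Real.log (-ζ.re)) = 30 * Real.log (1 / (-ζ.re)) := by
    rw [one_div, Real.log_inv]; ring
  rw [h12] at h9
  calc ‖T ζ - ζ‖ = ‖(T ζ - T (g (-1))) + (T (g (-1)) - g (-1)) + (g (-1) - ζ)‖ := by ring_nf
    _ ≤ ‖T ζ - T (g (-1))‖ + ‖T (g (-1)) - g (-1)‖ + ‖g (-1) - ζ‖ := norm_add₃_le
    _ ≤ 30 * Real.log (1 / (-ζ.re)) + C + 1 := by linarith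
    _ = C + 1 + 30 * Real.log (1 / d) := by rw [hdd]; ring

end Pool.Agent.Helper19.SR
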