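import Pool.Agent.Helper19.SR.St

/-! SR module Num (MP_e46579_co): geometric sums and numeric constants. -/

set_option autoImplicit false

namespace Pool.Agent.Helper19.SR

open Real Finset

theorem Num_geom {x : ℝ} (hx0 : 0 ≤ x) (hx1 : x < 1) (n : ℕ) : ∑ i ∈ range n, x ^ i ≤ 1 / (1 - x) := by
  rw [le_div_iff₀ (by linarith), mul_comm, mul_neg_geom_sum]
  have : 0 ≤ x ^ n := by positivity
  linarith

theorem Num_sqrt_half : √(1 / 2 : ℝ) = √2 / 2 := by
  rw [Real.sqrt_eq_iff_mul_self_eq (by norm_num) (by positivity)]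
  nlinarith [Real.sq_sqrt (show (0 : ℝ) ≤ 2 by norm_num)]

theorem Num_sum (k : ℕ) : ∑ j ∈ range (2 * k + k + k), DD k j / 2 ^ j ≤
    4 / (4 - √2) + (1 / (1 - √2 / 2) + 4) / 16 ^ k := by
  have h2 : √2 ^ 2 = (2 : ℝ) := Real.sq_sqrt (by norm_num)
  have h2p : 0 < √2 := Real.sqrt_pos.2 (by norm_num)
  have h2l : √2 < 3 / 2 := by rw [Real.sqrt_lt' (by norm_num)]; norm_num
  rw [Finset.sum_range_add, Finset.sum_range_add]
  have e1 : ∀ j ∈ range (2 * k), DD k j / 2 ^ j = (√2 / 4) ^ j := by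
    intro j hj
    rw [mem_range] at hj
    unfold DD
    rw [if_pos hj, Num_sqrt_half, ← div_pow]
    congr 1
    ring
  have e2 : ∀ i ∈ range k, DD k (2 * k + i) / 2 ^ (2 * k + i) =
      (√2 / 4) ^ (2 * k + i) + (1 / 16 ^ k) * (√2 / 2) ^ i := by
    intro i hi
    rw [mem_range] at hi
    unfold DD
    rw [if_neg (by omega), if_pos (by omega), Num_sqrt_half, add_div, ← div_pow]
    congr 1
    · congr 1
      ring
    · have q1 : √2 ^ (2 * k + i) = 2 ^ k * √2 ^ i := by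
        rw [pow_add, pow_mul, h2]
      have q2 : (2 : ℝ) ^ (2 * k + i) = 2 ^ k * 2 ^ k * 2 ^ i := by
        rw [pow_add, two_mul, pow_add]
      have q3 : (16 : ℝ) ^ k = 2 ^ k * 8 ^ k := by rw [← mul_pow]; norm_num
      rw [q1, q2, q3, div_pow]
      field_simp
  have e3 : ∀ i ∈ range k, DD k (2 * k + k + i) / 2 ^ (2 * k + k + i) = (2 / 16 ^ k) * (1 / 2) ^ i := by
    intro i hi
    rw [mem_range] at hi
    unfold DD
    rw [if_neg (by omega), if_neg (by omega)]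
    have q2 : (2 : ℝ) ^ (2 * k + k + i) = 2 ^ k * 2 ^ k * 2 ^ k * 2 ^ i := by
      rw [pow_add, pow_add, two_mul, pow_add]
    have q3 : (16 : ℝ) ^ k = 2 ^ k * 2 ^ k * 2 ^ k * 2 ^ k := by rw [← mul_pow, ← mul_pow, ← mul_pow]; norm_num
    rw [q2, q3, div_pow, one_pow]
    field_simp
  rw [Finset.sum_congr rfl e1, Finset.sum_congr rfl e2, Finset.sum_congr rfl e3, Finset.sum_add_distrib,
    ← add_assoc, ← Finset.sum_range_add (fun j => (√2 / 4) ^ j) (2 * k) k, ← Finset.mul_sum, ← Finset.mul_sum]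
  have g1 := Num_geom (x := √2 / 4) (by positivity) (by linarith) (2 * k + k)
  have g2 := Num_geom (x := √2 / 2) (by positivity) (by linarith) k
  have g3 := Num_geom (x := 1 / 2) (by norm_num) (by norm_num) k
  have c1 : 1 / (1 - √2 / 4) = 4 / (4 - √2) := by
    have : (4 - √2) ≠ 0 := by linarith
    have : (1 - √2 / 4) ≠ 0 := by linarith
    field_simp
  rw [c1] at g1
  have g3' : ∑ i ∈ range k, ((1 : ℝ) / 2) ^ i ≤ 2 := g3.trans (by norm_num)
  have hk : (0 : ℝ) < 16 ^ k := by positivity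
  calc _ ≤ 4 / (4 - √2) + 1 / 16 ^ k * (1 / (1 - √2 / 2)) + 2 / 16 ^ k * 2 := by gcongr
    _ = _ := by ring

theorem hNum : StNum := by
  intro k hk
  have h2 : √2 ^ 2 = (2 : ℝ) := Real.sq_sqrt (by norm_num)
  have h2p : 0 < √2 := Real.sqrt_pos.2 (by norm_num)
  have h2l : √2 < 1415 / 1000 := by rw [Real.sqrt_lt' (by norm_num)]; norm_num
  have h3 : √3 ^ 2 = (3 : ℝ) := Real.sq_sqrt (by norm_num)
  have h3p : 1 < √3 := by rw [Real.lt_sqrt (by norm_num)]; norm_num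
  have h3l : √3 < 1733 / 1000 := by rw [Real.sqrt_lt' (by norm_num)]; norm_num
  unfold treeLen
  have hS : ∑ j ∈ range (4 * k), (2 : ℝ) ^ (4 * k - 1 - j) * (√3 * DD k j) =
      √3 * (16 ^ k / 2) * ∑ j ∈ range (2 * k + k + k), DD k j / 2 ^ j := by
    have : 2 * k + k + k = 4 * k := by ring
    rw [this, Finset.mul_sum]
    refine Finset.sum_congr rfl fun j hj => ?_
    rw [mem_range] at hj
    have q1 : (16 : ℝ) ^ k = 2 ^ (4 * k - 1 - j) * 2 ^ j * 2 := by
      rw [← pow_add, ← pow_succ, show 4 * k - 1 - j + j + 1 = 4 * k by omega, pow_mul]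
      norm_num
    rw [q1]
    field_simp
  rw [hS]
  have hsum := Num_sum k
  have hD : DD k (4 * k) / √3 ≤ 1 := by
    unfold DD
    rw [if_neg (by omega), if_neg (by omega), div_div, div_le_one (by positivity)]
    have : (2 : ℝ) ^ 1 ≤ 2 ^ k := pow_le_pow_right₀ (by norm_num) hk
    nlinarith
  have hk16 : (0 : ℝ) < 16 ^ k := by positivity
  have hb : 1 / (1 - √2 / 2) ≤ 342 / 100 := by
    rw [div_le_iff₀ (by linarith)]
    linarith
  have main : √3 * (16 ^ k / 2) * ∑ j ∈ range (2 * k + k + k), DD k j / 2 ^ j ≤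
      √3 * (16 ^ k / 2) * (4 / (4 - √2) + (1 / (1 - √2 / 2) + 4) / 16 ^ k) := by gcongr
  have e : √3 * (16 ^ k / 2) * (4 / (4 - √2) + (1 / (1 - √2 / 2) + 4) / 16 ^ k) =
      2 * (√3 / (4 - √2) * 16 ^ k) + √3 * (1 / (1 - √2 / 2) + 4) / 2 := by
    field_simp
    ring
  have f : √3 * (1 / (1 - √2 / 2) + 4) / 2 ≤ 7 := by
    have : √3 * (1 / (1 - √2 / 2) + 4) ≤ (1733 / 1000) * (342 / 100 + 4) := by
      have : 0 ≤ 1 / (1 - √2 / 2) := by
        apply div_nonneg <;> linarith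
      gcongr
    linarith
  linarith

end Pool.Agent.Helper19.SR
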