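import Pool.Agent.Helper19.SR.St

/-!
# SR (MP_e46579_co), module Ort: orthonormal affine dependences (helper80)
-/

set_option autoImplicit false

namespace Pool.Agent.Helper19.SR

open Real Finset MeasureTheory

/-- the map whose kernel is the space of affine dependences -/
noncomputable def Ort_map {n : ℕ} {E : Type} [NormedAddCommGroup E] [InnerProductSpace ℝ E] (b : Fin n → E) :
    EuclideanSpace ℝ (Fin n) →ₗ[ℝ] ℝ × E where
  toFun x := (∑ i, x i, ∑ i, x i • b i)
  map_add' x y := by
    simp [Finset.sum_add_distrib, add_smul]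
  map_smul' c x := by
    simp [Finset.mul_sum, Finset.smul_sum, smul_smul]

theorem hOrt : StOrt := by
  intro n d E _ _ _ hd b
  obtain ⟨K, hK⟩ : ∃ K : Submodule ℝ (EuclideanSpace ℝ (Fin n)), K = LinearMap.ker (Ort_map b) := ⟨_, rfl⟩
  have h1 : n - (d + 1) ≤ Module.finrank ℝ K := by
    have h2 := LinearMap.finrank_range_add_finrank_ker (Ort_map b)
    have h3 : Module.finrank ℝ (EuclideanSpace ℝ (Fin n)) = n := by simp
    have h4 : Module.finrank ℝ (LinearMap.range (Ort_map b)) ≤ Module.finrank ℝ (ℝ × E) :=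
      Submodule.finrank_le _
    have h5 : Module.finrank ℝ (ℝ × E) = 1 + Module.finrank ℝ E := by simp
    rw [← hK] at h2
    omega
  let B := stdOrthonormalBasis ℝ K
  refine ⟨fun k i => (B (Fin.castLE h1 k) : EuclideanSpace ℝ (Fin n)) i, ?_, ?_, ?_⟩
  · intro k l
    have h2 := (orthonormal_iff_ite.1 B.orthonormal) (Fin.castLE h1 l) (Fin.castLE h1 k)
    rw [Submodule.coe_inner, PiLp.inner_apply] at h2
    have h3 : ∀ i : Fin n, inner ℝ ((B (Fin.castLE h1 l) : EuclideanSpace ℝ (Fin n)) i)
        ((B (Fin.castLE h1 k) : EuclideanSpace ℝ (Fin n)) i) =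
        (B (Fin.castLE h1 k) : EuclideanSpace ℝ (Fin n)) i * (B (Fin.castLE h1 l) : EuclideanSpace ℝ (Fin n)) i := by
      intro i
      simp
    rw [Finset.sum_congr rfl (fun i _ => h3 i)] at h2
    rw [h2]
    by_cases hkl : k = l
    · subst hkl; simp
    · rw [if_neg, if_neg hkl]
      intro h
      exact hkl (Fin.castLE_injective h1 h).symm
  · intro k
    have h2 : (B (Fin.castLE h1 k) : EuclideanSpace ℝ (Fin n)) ∈ LinearMap.ker (Ort_map b) := by
      rw [← hK]; exact (B (Fin.castLE h1 k)).2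
    rw [LinearMap.mem_ker] at h2
    exact congrArg Prod.fst h2
  · intro k
    have h2 : (B (Fin.castLE h1 k) : EuclideanSpace ℝ (Fin n)) ∈ LinearMap.ker (Ort_map b) := by
      rw [← hK]; exact (B (Fin.castLE h1 k)).2
    rw [LinearMap.mem_ker] at h2
    exact congrArg Prod.snd h2

end Pool.Agent.Helper19.SR
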