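import Pool.Agent.Helper19.SR.St

set_option autoImplicit false

namespace Pool.Agent.Helper19.SR

open Real Finset MeasureTheory
open Pool.Agent.Helper77.Steiner

lemma Pair_main (hFar : StFar) (hN1 : StN1) (hN2 : StN2) (hN3 : StN3)
    (p q y1 y2 : ℝ) (hp : 0 < p) (hq : 0 < q) (hpq : p + q = 1) (hy1 : 0 ≤ y1) (hy2 : 0 ≤ y2) :
    (max 0 (gl p q y1 y2 + eh * bd p q y1 y2)) ^ 2 ≤
      cst ^ 2 / 2 * (1 - p * q) * en p q y1 y2 0 := by
  by_cases h1 : 1 / 5000 * (y1 + y2) ^ 2 ≤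
      1 / 50 * (y1 - y2) ^ 2 + 1 / 40 * (p - 1 / 2) ^ 2 * (y1 + y2) ^ 2
  · exact hFar p q y1 y2 hp hq hpq hy1 hy2 h1
  · rw [not_le] at h1
    by_cases h2 : 1 ≤ mix p q y1 y2 0
    · exact hN1 p q y1 y2 hp hq hpq hy1 hy2 h1 h2
    · rw [not_le] at h2
      by_cases h3 : 1 ≤ y1
      · by_cases h4 : 1 ≤ y2
        · exact hN2 p q y1 y2 hp hq hpq hy1 hy2 h1 h2 h3 h4
        · exact hN3 p q y1 y2 hp hq hpq hy1 hy2 h1 (Or.inr (not_le.1 h4))
      · exact hN3 p q y1 y2 hp hq hpq hy1 hy2 h1 (Or.inl (not_le.1 h3))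

lemma Pair_HH_le (hBB : StBB) {x : ℝ} (hx : 0 ≤ x) : HH x ≤ (1 + 2 * eh) * x := by
  obtain ⟨_, _, h2, _⟩ := hBB
  have := h2 x hx
  unfold HH
  have h : eh * bb x ≤ eh * (2 * x) := mul_le_mul_of_nonneg_left this (by unfold eh; norm_num)
  linarith

lemma Pair_HH_nonneg (hBB : StBB) {x : ℝ} (hx : 0 ≤ x) : 0 ≤ HH x := by
  obtain ⟨h0, _⟩ := hBB
  have := h0 x
  unfold HH eh
  positivity

theorem hPair (hBB : StBB) (hOm : StOm) (hFar : StFar) (hN1 : StN1) (hN2 : StN2) (hN3 : StN3)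
    (hMon : StMon) (hCl : StCl) : StPair := by
  intro N p q x1 x2 k0 y1 y2 k hN5 hN0 hp hq hpq hk0 hx1 hx2 hx1' hx2' hkk hy1 hy2 hk
  have hy10 : 0 ≤ y1 := hx1.trans hx1'
  have hy20 : 0 ≤ y2 := hx2.trans hx2'
  have hp1 : p ≤ 1 := by linarith
  have hq1 : q ≤ 1 := by linarith
  have hlt := sqrt2_lt
  have hgt := sqrt2_gt
  have hpq1 : p * q ≤ 1 / 4 := by nlinarith [sq_nonneg (p - q)]
  have hk0' : 0 ≤ k := hk0.trans hkk
  by_cases hkpos : 0 < k
  · -- parts that meet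
    have hy1pos : 0 < y1 := by
      rcases hy10.lt_or_eq with h | h
      · exact h
      · rw [← h] at hk; linarith
    have hy2pos : 0 < y2 := by
      rcases hy20.lt_or_eq with h | h
      · exact h
      · rw [← h] at hk; linarith
    have hg := hCl N p q y1 y2 k hN5 hN0 hp hq hpq hy10 hy20 hy1 hy2 hkpos hk
    have hOm' := hOm p q y1 y2 k hp hq hpq hy10 hy20 hk0' hk
    have hmix : mix p q y1 y2 k = √(p ^ 2 * y1 ^ 2 + q ^ 2 * y2 ^ 2 + 2 * p * q * k) := rfl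
    set Y := p * y1 + q * y2 with hY
    have hYpos : 0 < Y := by positivity
    set η := y1 * y2 - k with hη
    have hη0 : 0 ≤ η := by linarith
    have hroot : p ^ 2 * y1 ^ 2 + q ^ 2 * y2 ^ 2 + 2 * p * q * k = Y ^ 2 - 2 * p * q * η := by
      rw [hY, hη]; ring
    have hnn : 0 ≤ Y ^ 2 - 2 * p * q * η := by rw [← hroot]; positivity
    rw [hmix, hroot] at hg
    set R := √(Y ^ 2 - 2 * p * q * η) with hR
    have hR0 : 0 ≤ R := Real.sqrt_nonneg _
    have hR2 : R ^ 2 = Y ^ 2 - 2 * p * q * η := Real.sq_sqrt hnn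
    have hRY : R ≤ Y := by
      apply Real.sqrt_le_iff.2 ⟨hYpos.le, _⟩
      have : 0 ≤ 2 * p * q * η := by positivity
      linarith
    have hgj : max (gn N p q y1 y2 k) 0 ≤ Y - R := max_le hg (by linarith)
    have hgj2 : (Y - R) * Y ≤ 2 * p * q * η := by nlinarith
    have heh : (0 : ℝ) < eh := by unfold eh; norm_num
    have hgi : max (gn N p q x1 x2 k0) 0 ≤ (1 + 2 * eh) * (y1 + y2) := by
      apply max_le _ (by positivity)
      have a1 := Pair_HH_le hBB hx1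
      have a2 := Pair_HH_le hBB hx2
      have a3 : 0 ≤ HH (mix p q x1 x2 k0) := Pair_HH_nonneg hBB (Real.sqrt_nonneg _)
      have a4 : 0 ≤ (if 0 < k0 then HH N else 0) := by
        split_ifs
        · exact Pair_HH_nonneg hBB hN0
        · exact le_rfl
      have a5 : (1 + 2 * eh) * (x1 + x2) ≤ (1 + 2 * eh) * (y1 + y2) :=
        mul_le_mul_of_nonneg_left (by linarith) (by linarith)
      unfold gn
      linarith
    have hgj0 : 0 ≤ max (gn N p q y1 y2 k) 0 := le_max_right _ _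
    have h1 : max (gn N p q x1 x2 k0) 0 * max (gn N p q y1 y2 k) 0 ≤
        ((1 + 2 * eh) * (y1 + y2)) * (Y - R) :=
      mul_le_mul hgi hgj hgj0 (by positivity)
    have h2 : 2 * p * q * (y1 + y2) ≤ 2 * (1 - p * q) * Y := by
      have e : 2 * (1 - p * q) * Y - 2 * p * q * (y1 + y2) = 2 * p ^ 3 * y1 + 2 * q ^ 3 * y2 := by
        have hq' : q = 1 - p := by linarith
        rw [hY, hq']
        ring
      have : 0 ≤ 2 * p ^ 3 * y1 + 2 * q ^ 3 * y2 := by positivity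
      linarith
    have hD : 2 * η ≤ y1 ^ 2 + y2 ^ 2 - 2 * k := by
      rw [hη]; nlinarith [sq_nonneg (y1 - y2)]
    have hD0 : 0 ≤ y1 ^ 2 + y2 ^ 2 - 2 * k := by linarith
    have hEn : (1 - ch) * (y1 ^ 2 + y2 ^ 2 - 2 * k) ≤ en p q y1 y2 k := by
      unfold en
      linarith
    have hcoef : 1 + 2 * eh ≤ cst ^ 2 / 2 * (1 - ch) := by
      rw [cst_sq]
      unfold eh ch
      linarith
    have h1pq : 0 ≤ 1 - p * q := by linarith
    have hc2 : 0 < cst ^ 2 / 2 := by have := cst_pos; positivity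
    have h3 : ((1 + 2 * eh) * (y1 + y2)) * (Y - R) * Y ≤
        (cst ^ 2 / 2 * (1 - p * q) * en p q y1 y2 k) * Y := by
      calc ((1 + 2 * eh) * (y1 + y2)) * (Y - R) * Y =
            ((1 + 2 * eh) * (y1 + y2)) * ((Y - R) * Y) := by ring
        _ ≤ ((1 + 2 * eh) * (y1 + y2)) * (2 * p * q * η) :=
            mul_le_mul_of_nonneg_left hgj2 (by positivity)
        _ = (1 + 2 * eh) * ((2 * p * q * (y1 + y2)) * η) := by ring
        _ ≤ (1 + 2 * eh) * ((2 * (1 - p * q) * Y) * η) :=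
            mul_le_mul_of_nonneg_left (mul_le_mul_of_nonneg_right h2 hη0) (by positivity)
        _ = ((1 + 2 * eh) * ((1 - p * q) * (2 * η))) * Y := by ring
        _ ≤ ((cst ^ 2 / 2 * (1 - ch)) * ((1 - p * q) * (y1 ^ 2 + y2 ^ 2 - 2 * k))) * Y := by
            apply mul_le_mul_of_nonneg_right _ hYpos.le
            exact mul_le_mul hcoef (mul_le_mul_of_nonneg_left hD h1pq)
              (mul_nonneg h1pq (by linarith)) (le_trans (by positivity) hcoef)
        _ = (cst ^ 2 / 2 * (1 - p * q) * ((1 - ch) * (y1 ^ 2 + y2 ^ 2 - 2 * k))) * Y := by ring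
        _ ≤ (cst ^ 2 / 2 * (1 - p * q) * en p q y1 y2 k) * Y := by
            apply mul_le_mul_of_nonneg_right _ hYpos.le
            exact mul_le_mul_of_nonneg_left hEn (mul_nonneg hc2.le h1pq)
    exact h1.trans (le_of_mul_le_mul_right h3 hYpos)
  · have hk00 : k = 0 := le_antisymm (not_lt.1 hkpos) hk0'
    subst hk00
    have hk0z : k0 = 0 := le_antisymm hkk hk0
    subst hk0z
    have hM := Pair_main hFar hN1 hN2 hN3 p q y1 y2 hp hq hpq hy10 hy20
    have g1 : max (gn N p q x1 x2 0) 0 ≤ max 0 (gl p q y1 y2 + eh * bd p q y1 y2) := by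
      rw [max_comm]
      exact max_le_max le_rfl (hMon N p q x1 x2 y1 y2 hp hq hpq hx1 hx2 hx1' hx2')
    have g2 : max (gn N p q y1 y2 0) 0 ≤ max 0 (gl p q y1 y2 + eh * bd p q y1 y2) := by
      rw [max_comm]
      exact max_le_max le_rfl (hMon N p q y1 y2 y1 y2 hp hq hpq hy10 hy20 le_rfl le_rfl)
    refine le_trans ?_ hM
    rw [sq]
    exact mul_le_mul g1 g2 (le_max_right _ _) (le_max_left _ _)

end Pool.Agent.Helper19.SR
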