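import Pool.Agent.Helper5.SR.St1

set_option autoImplicit false

namespace Pool.Agent.Helper19.SR

open Complex MeasureTheory Set Metric Filter Topology
open scoped Real
open Pool.Agent.Helper60.Rel (LH tc Admissible ClassS)
open Helper5.SR Pool.Agent.Helper51.LT

lemma isOpen_LH : IsOpen LH := isOpen_lt continuous_re continuous_const

/-- derivative relation -/
lemma deriv_rel {P φ : ℂ → ℂ} (hP : DifferentiableOn ℂ P LH) (hφ : DifferentiableOn ℂ φ (ball 0 1))
    (h : ∀ ζ ∈ LH, φ (exp ζ) = exp (P ζ)) {ζ : ℂ} (hζ : ζ ∈ LH) :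
    deriv φ (exp ζ) * exp ζ = exp (P ζ) * deriv P ζ := by
  have hmem : exp ζ ∈ ball (0 : ℂ) 1 := by
    rw [mem_ball_zero_iff, Complex.norm_exp]
    rw [Real.exp_lt_one_iff]
    exact hζ
  have h1 : HasDerivAt φ (deriv φ (exp ζ)) (exp ζ) :=
    (hφ.differentiableAt (isOpen_ball.mem_nhds hmem)).hasDerivAt
  have h2 : HasDerivAt (fun x => φ (exp x)) (deriv φ (exp ζ) * exp ζ) ζ :=
    h1.comp ζ (Complex.hasDerivAt_exp ζ)
  have h3 : HasDerivAt P (deriv P ζ) ζ :=
    (hP.differentiableAt (isOpen_LH.mem_nhds hζ)).hasDerivAt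
  have h4 : HasDerivAt (fun x => exp (P x)) (exp (P ζ) * deriv P ζ) ζ := h3.cexp
  have h5 : (fun x => φ (exp x)) =ᶠ[𝓝 ζ] (fun x => exp (P x)) := by
    filter_upwards [isOpen_LH.mem_nhds hζ] with x hx using h x hx
  exact (h2.congr_of_eventuallyEq h5.symm).unique h4

lemma norm_exp_sub_one_le' {w : ℂ} (hw : w.re ≤ 0) : ‖exp w - 1‖ ≤ 2 * ‖w‖ := by
  by_cases h : ‖w‖ ≤ 1
  · exact Complex.norm_exp_sub_one_le h
  · push Not at h
    have h1 : ‖exp w‖ ≤ 1 := by
      rw [Complex.norm_exp]; exact Real.exp_le_one_iff.mpr hw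
    calc ‖exp w - 1‖ ≤ ‖exp w‖ + ‖(1 : ℂ)‖ := norm_sub_le _ _
      _ ≤ 1 + 1 := by rw [norm_one]; linarith
      _ ≤ 2 * ‖w‖ := by linarith

/-- Harnack type inequality -/
lemma harnack {φ : ℂ → ℂ} {z w : ℂ} {d : ℝ} (hd : 0 < d) (hb : ball z d ⊆ ball (0 : ℂ) 1)
    (hφ : DifferentiableOn ℂ φ (ball 0 1)) (hlt : ∀ x ∈ ball (0 : ℂ) 1, ‖φ x‖ < 1)
    (hw : ‖w - z‖ ≤ 3 / 4 * d) : 1 - ‖φ w‖ ≤ 7 * (1 - ‖φ z‖) := by
  have hz : z ∈ ball (0 : ℂ) 1 := hb (mem_ball_self hd)
  have hwd : w ∈ ball z d := by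
    rw [mem_ball, dist_eq_norm]; linarith
  by_cases h0 : φ z = 0
  · rw [h0, norm_zero]
    have := norm_nonneg (φ w)
    linarith
  have hn : 0 < ‖φ z‖ := norm_pos_iff.mpr h0
  set a : ℂ := (starRingEnd ℂ) (φ z) / (‖φ z‖ : ℂ) with ha
  have ha1 : ‖a‖ = 1 := by
    rw [ha, norm_div, RCLike.norm_conj, Complex.norm_real, norm_norm, div_self hn.ne']
  have haz : a * φ z = (‖φ z‖ : ℂ) := by
    rw [ha, div_mul_eq_mul_div, mul_comm ((starRingEnd ℂ) (φ z)) (φ z), Complex.mul_conj,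
      Complex.normSq_eq_norm_sq]
    have : (‖φ z‖ : ℂ) ≠ 0 := by exact_mod_cast hn.ne'
    field_simp
    push_cast
    ring
  set s : ℝ := 1 - ‖φ z‖ with hs
  have hs0 : 0 < s := by have := hlt z hz; linarith
  set F : ℂ → ℂ := fun x => 1 - a * φ x with hF
  have hFre : ∀ x ∈ ball (0 : ℂ) 1, 0 < (F x).re := by
    intro x hx
    have h1 : (a * φ x).re ≤ ‖a * φ x‖ := Complex.re_le_norm _
    rw [norm_mul, ha1, one_mul] at h1
    have := hlt x hx
    simp only [hF, Complex.sub_re, Complex.one_re]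
    linarith
  have hFz : F z = (s : ℂ) := by
    simp only [hF, haz, hs]; push_cast; ring
  set G : ℂ → ℂ := fun x => (F x - s) / (F x + s) with hG
  have hden : ∀ x ∈ ball (0 : ℂ) 1, F x + s ≠ 0 := by
    intro x hx h
    have h1 := congrArg Complex.re h
    simp only [Complex.add_re, Complex.ofReal_re, Complex.zero_re] at h1
    have := hFre x hx
    linarith
  have hFd : DifferentiableOn ℂ F (ball 0 1) := (differentiableOn_const _).sub (hφ.const_mul a)
  have hGd : DifferentiableOn ℂ G (ball z d) := by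
    refine DifferentiableOn.div ((hFd.mono hb).sub (differentiableOn_const _))
      ((hFd.mono hb).add (differentiableOn_const _)) ?_
    intro x hx
    exact hden x (hb hx)
  have hGz : G z = 0 := by simp [hG, hFz]
  have hGm : MapsTo G (ball z d) (ball (G z) 1) := by
    intro x hx
    rw [hGz, mem_ball_zero_iff]
    simp only [hG]
    rw [norm_div, div_lt_one (norm_pos_iff.mpr (hden x (hb hx)))]
    have h1 := hFre x (hb hx)
    have h2 : ‖F x - s‖ ^ 2 < ‖F x + s‖ ^ 2 := by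
      rw [← Complex.normSq_eq_norm_sq, ← Complex.normSq_eq_norm_sq, Complex.normSq_apply,
        Complex.normSq_apply]
      simp only [Complex.add_re, Complex.sub_re, Complex.add_im, Complex.sub_im, Complex.ofReal_re,
        Complex.ofReal_im]
      nlinarith
    exact lt_of_pow_lt_pow_left₀ 2 (norm_nonneg _) h2
  have hS := Complex.dist_le_div_mul_dist_of_mapsTo_ball hGd (hGm.mono_right ball_subset_closedBall) hwd
  rw [hGz, dist_zero_right, dist_eq_norm] at hS
  have hGw : ‖G w‖ ≤ 3 / 4 := by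
    refine hS.trans ?_
    rw [div_mul_eq_mul_div, one_mul, div_le_iff₀ hd]
    exact hw
  simp only [hG] at hGw
  rw [norm_div, div_le_iff₀ (norm_pos_iff.mpr (hden w (hb hwd)))] at hGw
  have h1 : ‖F w‖ - s ≤ ‖F w - s‖ := by
    have := norm_sub_norm_le (F w) (s : ℂ)
    rwa [Complex.norm_real, Real.norm_of_nonneg hs0.le] at this
  have h2 : ‖F w + s‖ ≤ ‖F w‖ + s := by
    have := norm_add_le (F w) (s : ℂ)
    rwa [Complex.norm_real, Real.norm_of_nonneg hs0.le] at this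
  have h3 : ‖F w‖ ≤ 7 * s := by linarith
  have h4 : 1 - ‖φ w‖ ≤ ‖F w‖ := by
    have := norm_sub_norm_le (1 : ℂ) (a * φ w)
    rwa [norm_one, norm_mul, ha1, one_mul] at this
  linarith

theorem hStg (hKK2 : StKK2) (hKK3 : StKK3) (hLD : StLD) (hD3 : StD3) : StStg := by
  intro ι Λ ξ p hp hsum hξ hinj
  set θ : ι → ℝ := fun l => (ξ l).arg with hθ
  have hexp : ∀ l ∈ Λ, exp (θ l * I) = ξ l := by
    intro l hl
    have := Complex.norm_mul_exp_arg_mul_I (ξ l)
    rw [hξ l hl, Complex.ofReal_one, one_mul] at this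
    exact this
  obtain ⟨C₂, hC₂, h2⟩ := hKK2 ι Λ θ p hp hsum
  obtain ⟨C₃, c₃, hC₃, hc₃, h3⟩ := hKK3 ι Λ θ p hp hsum (by
    intro l hl l' hl' h
    rw [hexp l hl, hexp l' hl'] at h
    exact hinj l hl l' hl' h)
  set ca : ℝ := c₃ / (1 + c₃) with hca
  have hca0 : 0 < ca := by positivity
  refine ⟨max (Real.exp C₂) (max (4 * C₃) 4),
    min (Real.exp (-C₂)) (min (ca / 28) (Real.exp (-C₃) * c₃ / 256)),
    lt_of_lt_of_le (Real.exp_pos _) (le_max_left _ _), ?_, ?_⟩
  · refine lt_min (Real.exp_pos _) (lt_min (by positivity) ?_)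
    have := Real.exp_pos (-C₃)
    positivity
  intro R hR
  have hR0 : 0 < R := by linarith
  have hτ : 0 ≤ Real.log R := Real.log_nonneg hR
  obtain ⟨P, hPd, hPi, hPre, hPper, hPkk, hPder, hPb⟩ := h2 (Real.log R) hτ
  obtain ⟨φ, hφ, hφ0, hφz, hφe⟩ := hLD P hPd hPi hPre hPper
  have hφd : DifferentiableOn ℂ φ (ball 0 1) := hφ.1.1
  refine ⟨φ, hφ, hφ0, hφz, ?_⟩
  -- bounds near zero
  have hnear : ∀ z : ℂ, z ≠ 0 → ‖z‖ ≤ Real.exp (-1) →
      ‖φ z‖ ≤ Real.exp C₂ / R * ‖z‖ ∧ Real.exp (-C₂) / R * ‖z‖ ≤ ‖φ z‖ := by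
    intro z hz hz1
    have hzn : 0 < ‖z‖ := norm_pos_iff.mpr hz
    have hre : (Complex.log z).re ≤ -1 := by
      rw [Complex.log_re]
      rw [Real.log_le_iff_le_exp hzn]
      exact hz1
    have hmem : Complex.log z ∈ LH := by
      show (Complex.log z).re < 0
      linarith
    have h5 := hPb (Complex.log z) hre
    have h6 := hφe (Complex.log z) hmem
    rw [Complex.exp_log hz] at h6
    have h7 : |(P (Complex.log z) - (Complex.log z - (Real.log R : ℂ))).re| ≤ C₂ :=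
      (Complex.abs_re_le_norm _).trans h5
    simp only [Complex.sub_re, Complex.ofReal_re, Complex.log_re] at h7
    have h8 := abs_le.mp h7
    have hzR : ‖z‖ / R = Real.exp (Real.log ‖z‖ - Real.log R) := by
      rw [Real.exp_sub, Real.exp_log hzn, Real.exp_log hR0]
    rw [h6, Complex.norm_exp]
    constructor
    · calc Real.exp (P (Complex.log z)).re
          ≤ Real.exp (C₂ + (Real.log ‖z‖ - Real.log R)) := Real.exp_le_exp.mpr (by linarith [h8.2])
        _ = Real.exp C₂ / R * ‖z‖ := by rw [Real.exp_add, ← hzR]; ring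
    · calc Real.exp (-C₂) / R * ‖z‖
          = Real.exp (-C₂ + (Real.log ‖z‖ - Real.log R)) := by rw [Real.exp_add, ← hzR]; ring
        _ ≤ Real.exp (P (Complex.log z)).re := Real.exp_le_exp.mpr (by linarith [h8.1])
  have h01 : (0 : ℂ) ∈ ball (0 : ℂ) 1 := mem_ball_self one_pos
  have hder0 : HasDerivAt φ (deriv φ 0) 0 :=
    (hφd.differentiableAt (isOpen_ball.mem_nhds h01)).hasDerivAt
  have hslope : Tendsto (fun z : ℂ => ‖z⁻¹ • (φ (0 + z) - φ 0)‖) (𝓝[≠] 0) (𝓝 ‖deriv φ 0‖) :=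
    (hasDerivAt_iff_tendsto_slope_zero.mp hder0).norm
  have hsmall : ∀ᶠ z : ℂ in 𝓝[≠] 0, z ≠ 0 ∧ ‖z‖ ≤ Real.exp (-1) := by
    have h1 : ∀ᶠ z : ℂ in 𝓝[≠] 0, z ≠ 0 := eventually_mem_nhdsWithin
    have h2 : ∀ᶠ z : ℂ in 𝓝[≠] 0, ‖z‖ ≤ Real.exp (-1) := by
      have : ∀ᶠ z : ℂ in 𝓝 0, z ∈ ball (0 : ℂ) (Real.exp (-1)) := ball_mem_nhds _ (Real.exp_pos _)
      filter_upwards [mem_nhdsWithin_of_mem_nhds this] with z hz
      exact (mem_ball_zero_iff.mp hz).le
    exact h1.and h2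
  have hval : ∀ z : ℂ, ‖z⁻¹ • (φ (0 + z) - φ 0)‖ = ‖φ z‖ / ‖z‖ := by
    intro z
    rw [zero_add, hφ0, sub_zero, smul_eq_mul, norm_mul, norm_inv]
    ring
  have hup : ‖deriv φ 0‖ ≤ Real.exp C₂ / R := by
    refine le_of_tendsto hslope ?_
    filter_upwards [hsmall] with z hz
    rw [hval, div_le_iff₀ (norm_pos_iff.mpr hz.1)]
    exact (hnear z hz.1 hz.2).1
  have hlo : Real.exp (-C₂) / R ≤ ‖deriv φ 0‖ := by
    refine ge_of_tendsto hslope ?_
    filter_upwards [hsmall] with z hz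
    rw [hval, le_div_iff₀ (norm_pos_iff.mpr hz.1)]
    exact (hnear z hz.1 hz.2).2
  refine ⟨hup.trans (div_le_div_of_nonneg_right (le_max_left _ _) hR0.le),
    (div_le_div_of_nonneg_right (min_le_left _ _) hR0.le).trans hlo, ?_⟩
  -- boundary points
  have caseA : ∀ l ∈ Λ, ∀ t : ℝ, 0 < t → t ≤ 1 / 2 → t * R ^ (1 / p l) ≤ 1 / 2 →
      ‖φ ((1 - t) * ξ l) - ξ l‖ ≤ 4 * C₃ * (t * R ^ (1 / p l)) ∧
      ca * (t * R ^ (1 / p l)) ≤ 1 - ‖φ ((1 - t) * ξ l)‖ ∧
      Real.exp (-C₃) * c₃ * R ^ (1 / p l) ≤ ‖deriv φ ((1 - t) * ξ l)‖ := by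
    intro l hl t ht ht2 hu
    set q : ℝ := R ^ (1 / p l) with hq
    have hpl := hp l hl
    have hq0 : 0 < q := Real.rpow_pos_of_pos hR0 _
    have hqe : Real.exp (Real.log R / p l) = q := by
      rw [hq, Real.rpow_def_of_pos hR0]; ring_nf
    have h1t : 0 < 1 - t := by linarith
    set t' : ℝ := -Real.log (1 - t) with ht'
    have htt : t ≤ t' := by
      have := Real.log_le_sub_one_of_pos h1t
      rw [ht']; linarith
    have htt2 : t' ≤ 2 * t := by
      have h5 := Real.one_sub_inv_le_log_of_pos h1t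
      have h6 : (1 - t)⁻¹ ≤ 1 + 2 * t := by
        rw [inv_le_iff_one_le_mul₀ h1t]
        nlinarith
      rw [ht']; linarith
    have ht'0 : 0 < t' := lt_of_lt_of_le ht htt
    have ht'1 : t' ≤ 1 := by linarith
    have hu' : t' * q ≤ 1 := by nlinarith
    have hu'2 : t' * q ≤ 2 * (t * q) := by nlinarith
    have hu'3 : t * q ≤ t' * q := by nlinarith
    obtain ⟨k1, k2, k3⟩ := h3 (Real.log R) P hτ hPd hPi hPre hPkk l hl t' ht'0 ht'1
      (by rw [hqe]; exact hu')
    rw [hqe] at k1 k2 k3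
    set ζ : ℂ := (θ l : ℂ) * I - t' with hζ
    have hζm : ζ ∈ LH := by
      show ζ.re < 0
      simp [hζ, ht'0]
    have hz : exp ζ = (1 - t) * ξ l := by
      rw [hζ, Complex.exp_sub, hexp l hl, ht']
      have : exp (((-Real.log (1 - t) : ℝ)) : ℂ) = ((1 - t : ℝ) : ℂ)⁻¹ := by
        rw [← Complex.ofReal_exp, Real.exp_neg, Real.exp_log h1t, Complex.ofReal_inv]
      rw [this, div_inv_eq_mul]
      push_cast
      ring
    have hφv := hφe ζ hζm
    rw [hz] at hφv
    set w : ℂ := P ζ - θ l * I with hw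
    have hPw : P ζ = w + θ l * I := by rw [hw]; ring
    have hwre : w.re = (P ζ).re := by simp [hw]
    have hre0 : (P ζ).re ≤ 0 := (hPre ζ hζm).trans (le_of_lt hζm)
    refine ⟨?_, ?_, ?_⟩
    · rw [hφv, hPw, Complex.exp_add, hexp l hl]
      have : exp w * ξ l - ξ l = (exp w - 1) * ξ l := by ring
      rw [this, norm_mul, hξ l hl, mul_one]
      calc ‖exp w - 1‖ ≤ 2 * ‖w‖ := norm_exp_sub_one_le' (by rw [hwre]; exact hre0)
        _ ≤ 2 * (C₃ * (t' * q)) := by linarith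
        _ ≤ 2 * (C₃ * (2 * (t * q))) := by
            have := mul_le_mul_of_nonneg_left hu'2 hC₃.le
            linarith
        _ = 4 * C₃ * (t * q) := by ring
    · rw [hφv, Complex.norm_exp]
      have hx0 : 0 ≤ c₃ * (t * q) := by positivity
      have hx1 : c₃ * (t * q) ≤ c₃ := by nlinarith
      have h5 : Real.exp (P ζ).re ≤ Real.exp (-(c₃ * (t * q))) := by
        apply Real.exp_le_exp.mpr
        have := mul_le_mul_of_nonneg_left hu'3 hc₃.le
        linarith
      have h6 : Real.exp (-(c₃ * (t * q))) ≤ 1 / (1 + c₃ * (t * q)) := by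
        rw [Real.exp_neg, ← one_div]
        apply one_div_le_one_div_of_le (by linarith)
        have := Real.add_one_le_exp (c₃ * (t * q))
        linarith
      have h7 : ca * (t * q) ≤ 1 - 1 / (1 + c₃ * (t * q)) := by
        have h8 : 1 - 1 / (1 + c₃ * (t * q)) = c₃ * (t * q) / (1 + c₃ * (t * q)) := by
          field_simp
          ring
        rw [h8, hca, div_mul_eq_mul_div]
        exact div_le_div_of_nonneg_left hx0 (by linarith) (by linarith)
      linarith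
    · have hrel := deriv_rel hPd hφd hφe hζm
      rw [hz] at hrel
      have hn := congrArg norm hrel
      rw [norm_mul, norm_mul, norm_mul, hξ l hl, mul_one, Complex.norm_exp] at hn
      have hn1 : ‖(1 : ℂ) - (t : ℂ)‖ ≤ 1 := by
        have : (1 : ℂ) - (t : ℂ) = ((1 - t : ℝ) : ℂ) := by push_cast; ring
        rw [this, Complex.norm_real, Real.norm_of_nonneg h1t.le]
        linarith
      have hlow : -C₃ ≤ (P ζ).re := by
        have h5 : |w.re| ≤ ‖w‖ := Complex.abs_re_le_norm w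
        rw [hwre] at h5
        have h6 : C₃ * (t' * q) ≤ C₃ := by nlinarith
        have := (abs_le.mp (h5.trans (k1.trans h6))).1
        exact this
      calc Real.exp (-C₃) * c₃ * q = Real.exp (-C₃) * (c₃ * q) := by ring
        _ ≤ Real.exp (P ζ).re * ‖deriv P ζ‖ := by
            apply mul_le_mul (Real.exp_le_exp.mpr hlow) k3 (by positivity) (Real.exp_pos _).le
        _ = ‖deriv φ ((1 - t) * ξ l)‖ * ‖(1 : ℂ) - (t : ℂ)‖ := hn.symm
        _ ≤ ‖deriv φ ((1 - t) * ξ l)‖ * 1 := by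
            apply mul_le_mul_of_nonneg_left hn1 (norm_nonneg _)
        _ = ‖deriv φ ((1 - t) * ξ l)‖ := mul_one _
  intro l hl t ht ht1 hu
  set q : ℝ := R ^ (1 / p l) with hq
  have hpl := hp l hl
  have hq0 : 0 < q := Real.rpow_pos_of_pos hR0 _
  have hq1 : 1 ≤ q := Real.one_le_rpow hR (by positivity)
  have hC4 : 4 * C₃ ≤ max (Real.exp C₂) (max (4 * C₃) 4) :=
    (le_max_left _ _).trans (le_max_right _ _)
  have hC5 : (4 : ℝ) ≤ max (Real.exp C₂) (max (4 * C₃) 4) :=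
    (le_max_right _ _).trans (le_max_right _ _)
  have hc4 : min (Real.exp (-C₂)) (min (ca / 28) (Real.exp (-C₃) * c₃ / 256)) ≤ ca / 28 :=
    (min_le_right _ _).trans (min_le_left _ _)
  have hc5 : min (Real.exp (-C₂)) (min (ca / 28) (Real.exp (-C₃) * c₃ / 256)) ≤
      Real.exp (-C₃) * c₃ / 256 := (min_le_right _ _).trans (min_le_right _ _)
  set CC : ℝ := max (Real.exp C₂) (max (4 * C₃) 4) with hCC
  set cc : ℝ := min (Real.exp (-C₂)) (min (ca / 28) (Real.exp (-C₃) * c₃ / 256)) with hcc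
  have hu0 : 0 < t * q := by positivity
  have hec : 0 < Real.exp (-C₃) * c₃ := mul_pos (Real.exp_pos _) hc₃
  by_cases hA : t ≤ 1 / 2 ∧ t * q ≤ 1 / 2
  · obtain ⟨a1, a2, a3⟩ := caseA l hl t ht hA.1 hA.2
    refine ⟨a1.trans (mul_le_mul_of_nonneg_right hC4 hu0.le), ?_, ?_⟩
    · refine le_trans (mul_le_mul_of_nonneg_right (hc4.trans ?_) hu0.le) a2
      linarith
    · refine le_trans (mul_le_mul_of_nonneg_right (hc5.trans ?_) hq0.le) a3
      linarith
  · have hu2 : 1 / 2 ≤ t * q := by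
      by_contra hcon
      push Not at hcon
      apply hA
      constructor
      · nlinarith
      · exact hcon.le
    obtain ⟨a1, a2, a3⟩ := caseA l hl (t / 4) (by positivity) (by linarith) (by
      have : t / 4 * q = (t * q) / 4 := by ring
      rw [this]; linarith)
    set z : ℂ := (1 - t) * ξ l with hz
    set z₁ : ℂ := (1 - (t / 4 : ℝ)) * ξ l with hz₁
    have hzn : ‖z‖ = 1 - t := by
      have : (1 : ℂ) - (t : ℂ) = ((1 - t : ℝ) : ℂ) := by push_cast; ring
      rw [hz, norm_mul, hξ l hl, mul_one, this, Complex.norm_real, Real.norm_of_nonneg (by linarith)]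
    have hdist : ‖z₁ - z‖ = 3 / 4 * t := by
      have : z₁ - z = ((3 / 4 * t : ℝ) : ℂ) * ξ l := by
        rw [hz, hz₁]; push_cast; ring
      rw [this, norm_mul, hξ l hl, mul_one, Complex.norm_real, Real.norm_of_nonneg (by positivity)]
    have hball : ball z t ⊆ ball (0 : ℂ) 1 := by
      intro x hx
      rw [mem_ball, dist_eq_norm] at hx
      rw [mem_ball_zero_iff]
      calc ‖x‖ = ‖(x - z) + z‖ := by ring_nf
        _ ≤ ‖x - z‖ + ‖z‖ := norm_add_le _ _
        _ < 1 := by rw [hzn]; linarith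
    have hlt : ∀ x ∈ ball (0 : ℂ) 1, ‖φ x‖ < 1 := fun x hx =>
      lt_of_le_of_lt (hφz x hx) (mem_ball_zero_iff.mp hx)
    have hzm : z ∈ ball (0 : ℂ) 1 := hball (mem_ball_self ht)
    refine ⟨?_, ?_, ?_⟩
    · calc ‖φ z - ξ l‖ ≤ ‖φ z‖ + ‖ξ l‖ := norm_sub_le _ _
        _ ≤ 1 + 1 := by
            have := hlt z hzm
            rw [hξ l hl]; linarith
        _ ≤ 4 * (t * q) := by linarith
        _ ≤ CC * (t * q) := mul_le_mul_of_nonneg_right hC5 hu0.le
    · have hh := harnack ht hball hφd hlt hdist.le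
      have h5 : ca * (t * q) / 4 ≤ 1 - ‖φ z₁‖ := by
        have : ca * (t / 4 * q) = ca * (t * q) / 4 := by ring
        rw [← this]; exact a2
      have h6 : cc * (t * q) ≤ ca / 28 * (t * q) := mul_le_mul_of_nonneg_right hc4 hu0.le
      linarith
    · have hUn : Un φ (ball z t) := ⟨hφd.mono hball, hφ.1.2.mono hball⟩
      have hD := (hD3 φ z z₁ t ht hUn (by rw [hdist]; linarith)).1
      rw [hdist] at hD
      have h5 : (t - 3 / 4 * t) ^ 4 = t ^ 4 / 256 := by ring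
      rw [h5] at hD
      have ht4 : 0 < t ^ 4 := by positivity
      have h6 : ‖deriv φ z₁‖ / 256 ≤ ‖deriv φ z‖ := by
        have : t ^ 4 * (‖deriv φ z₁‖ / 256) ≤ t ^ 4 * ‖deriv φ z‖ := by
          calc t ^ 4 * (‖deriv φ z₁‖ / 256) = t ^ 4 / 256 * ‖deriv φ z₁‖ := by ring
            _ ≤ _ := hD
        exact le_of_mul_le_mul_left this ht4
      have h7 : cc * q ≤ Real.exp (-C₃) * c₃ / 256 * q := mul_le_mul_of_nonneg_right hc5 hq0.le
      have h8 : Real.exp (-C₃) * c₃ / 256 * q = Real.exp (-C₃) * c₃ * q / 256 := by ring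
      linarith

end Pool.Agent.Helper19.SR
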