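import Pool.Agent.Helper19.SR.Defs

/-!
# SR: statements of the modules (MP_e46579_co)

A module `M_X.lean` proves `theorem hX (hY : StY) ... : StX` in the namespace
`Pool.Agent.Helper19.SR`.  The files of RatioLimit are `Pool/Agent/Helper77/ST/*.lean`
(`Ineq`, `Good`, `Net`, `Kruskal`, `Extract`, `Upper`, `Final`).
-/

set_option autoImplicit false

namespace Pool.Agent.Helper19.SR

open Real Finset MeasureTheory
open Pool.Agent.Helper77.Steiner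
open scoped ENNReal

/-! ## Part A: the excess variance in dimension `d` -/

/-- **Ort** (no hypotheses).  Affine dependences of `n` points.

Proof.  The linear map `ℝ^n → ℝ × E`, `λ ↦ (∑ λ i, ∑ λ i • b i)` has a kernel of dimension at least
`n - (d + 1)` (rank-nullity); take an orthonormal family of that many vectors in the kernel
(`EuclideanSpace ℝ (Fin n)`, `stdOrthonormalBasis` of the kernel). -/
def StOrt : Prop :=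
  ∀ (n d : ℕ) (E : Type) [NormedAddCommGroup E] [InnerProductSpace ℝ E] [FiniteDimensional ℝ E],
    Module.finrank ℝ E ≤ d → ∀ b : Fin n → E,
    ∃ f : Fin (n - (d + 1)) → Fin n → ℝ,
      (∀ k l, ∑ i, f k i * f l i = if k = l then 1 else 0) ∧ (∀ k, ∑ i, f k i = 0) ∧
      (∀ k, ∑ i, f k i • b i = 0)

/-- **Pt** (from Ort).  The inequality for `2 (d + 1)` points `a (x i)`.

Proof.  `n = 2 (d + 1)`, so Ort gives `f k`, `k < d + 1`.  Put `P i j = ∑ k, f k i * f k j`.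
(1) `∑ j, P i j = 0`, `∑ j, P i j • b j = 0` (`b = a ∘ x`), so `∑ i j, P i j ‖b i - b j‖² = 0`
(expand the square).  (2) `|P i j| ≤ 1/2` for `i ≠ j`: by Bessel's inequality for the orthonormal
family `f k` and the vectors `e_i ± e_j`: `0 ≤ P i i + P j j ± 2 P i j ≤ 2`; subtract.
(3) `∑ i, P i i = d + 1`.  (4) For a class function `c`,
`∑ i j, P i j [c i = c j] = ∑ k, ∑_γ (∑_{c i = γ} f k i)² ≥ 0`, and it is
`≥ (d + 1) - (1/2) #{(i, j) : i ≠ j, c i = c j}` by (2), (3).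
Write `‖b i - b j‖² = u² + Δ` with `u² = ∑ l, τ l [cls differ]`, `τ l = t (l+1)² - t l²`; `Δ ≥ 0` by
`Lev.ultra_le`.  By (1) and `∑ P i j = 0`: `∑_{i ≠ j} P i j Δ i j = - ∑ P i j u² = ∑ l, τ l ∑ i j, P i j
[cls l (x i) = cls l (x j)]`; the left side is `≤ (1/2) ∑_{i ≠ j} Δ i j` by (2). -/
def StPt : Prop :=
  ∀ (d : ℕ) (E : Type) [NormedAddCommGroup E] [InnerProductSpace ℝ E] [FiniteDimensional ℝ E],
    Module.finrank ℝ E ≤ d →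
    ∀ (ι : Type) [Fintype ι] [DecidableEq ι] (a : ι → E) (L : Lev a) (x : Fin (2 * (d + 1)) → ι),
    ∑ l ∈ range L.K, (L.t (l + 1) ^ 2 - L.t l ^ 2) * max 0 ((d + 1 : ℝ) -
      1 / 2 * ∑ i, ∑ j, if i ≠ j ∧ L.cls l (x i) = L.cls l (x j) then (1 : ℝ) else 0) ≤
    1 / 2 * ∑ i, ∑ j, if i ≠ j then ‖a (x i) - a (x j)‖ ^ 2 - ∑ l ∈ range L.K,
      (L.t (l + 1) ^ 2 - L.t l ^ 2) * (if L.cls l (x i) = L.cls l (x j) then 0 else 1) else 0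

/-- **Dim** (from Pt).  The excess variance in dimension `d`.

Proof.  Multiply Pt by the weight `∏ i, μ (x i)` and sum over all `x : Fin (2 (d + 1)) → ι`.  For
`i ≠ j` and any `F`, `∑ x, (∏ μ) F (x i) (x j) = ∑ y z, μ y μ z F y z`, and `∑ x, ∏ μ = 1`.  So the
right side becomes `(1/2) n (n-1) (V a μ - U μ)`, `n = 2 (d + 1)`, `(1/2) n (n - 1) = (d+1)(2d+1)`
(see the proof of `Lev.U_le_V` for `U`), and the weighted average of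
`max 0 ((d+1) - (1/2) ∑ ...)` is at least `max 0` of the average, which is
`(d+1) - (d+1)(2d+1) q l μ μ` (`Lev.q_eq`).  Divide by `(d+1)(2d+1)`. -/
def StDim : Prop :=
  ∀ (d : ℕ) (E : Type) [NormedAddCommGroup E] [InnerProductSpace ℝ E] [FiniteDimensional ℝ E],
    Module.finrank ℝ E ≤ d →
    ∀ (ι : Type) [Fintype ι] [DecidableEq ι] (a : ι → E) (L : Lev a) (μ : ι → ℝ),
    (∀ x, 0 ≤ μ x) → ∑ x, μ x = 1 →
    L.U μ + ∑ l ∈ range L.K, (L.t (l + 1) ^ 2 - L.t l ^ 2) *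
      max 0 (1 / (2 * (d : ℝ) + 1) - L.q l μ μ) ≤ Lev.V a μ

/-! ## Part B: the inequality for a merge -/

/-- **BB** (no hypotheses).  Facts on the debt function.

Proof.  For `x ≤ 1`, `u = 1 - x`, the polynomial `1 + 2u - 100u²` is at most `1.01`, is `≤ 0` for
`u ≥ 0.12`, and where it is positive (`u ≤ 0.111`) its slope is at most `22` in absolute value:
`P x - P y = (x - y) (-2 + 100 ((1 - x) + (1 - y)))`.  For `x, y ≥ 1`,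
`|1/x² - 1/y²| = |x - y| (x + y) / (x² y²) ≤ 2 |x - y|`.  Across `1` (value `1` on both sides) and
across the zero of the polynomial use the triangle inequality. -/
def StBB : Prop :=
  (∀ x, 0 ≤ bb x) ∧ (∀ x, bb x ≤ 2) ∧ (∀ x, 0 ≤ x → bb x ≤ 2 * x) ∧ (∀ x, x ≤ 22 / 25 → bb x = 0) ∧
  (∀ x y, |bb x - bb y| ≤ 22 * |x - y|) ∧ (∀ x y, 1 ≤ x → x ≤ y → bb y ≤ bb x) ∧
  (∀ x, x ≤ 1 → 1 + 2 * (1 - x) - 100 * (1 - x) ^ 2 ≤ bb x)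

/-- **Om** (no hypotheses).  Lower bound for the excess variance of a merge.

Proof.  `F x = ch x² - ww x`.  For `m ≥ 1` and every `x`, `F x ≥ ch (2 m x - m²)` (for `x ≥ 1` it is
`ch (x - m)² ≥ 0`; for `x < 1`, `F x = ch (2 x - 1)` and
`2x - 1 - 2mx + m² = (m - 1)(m + 1 - 2x) ≥ 0`), with equality for `m = max 1 x`; `F` is monotone on
`[0, ∞)`.  With `X = p x1 + q x2`, `m = max 1 X`: `p F x1 + q F x2 ≥ ch (2 m X - m²) = F X ≥ F (mix)`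
as `mix ≤ X` (`k ≤ x1 x2`).  And `mix² = p x1² + q x2² - p q (x1² + x2² - 2k)`. -/
def StOm : Prop :=
  ∀ p q x1 x2 k : ℝ, 0 < p → 0 < q → p + q = 1 → 0 ≤ x1 → 0 ≤ x2 → 0 ≤ k → k ≤ x1 * x2 →
    - (ch * (x1 ^ 2 + x2 ^ 2 - 2 * k)) ≤ om p q x1 x2 k

/-- **Sl** (no hypotheses).  The slack of the linear inequality.

Proof.  `cst²/2 = 3 - 4√2/3` (`cst_sq`).  With `s = √2`, `A = 1 - p s/2`, `B = 1 - q s/2`,
`e = p - 1/2`: `(3 - 4s/3)(1 - pq)(x1² + x2²) - (x1 A + x2 B)² = (x1 B - x2 A)² +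
(1/2 - s/3)(2p-1)² (x1² + x2²)` and `x1 B - x2 A = (1 - s/4)(x1 - x2) + (s/2) e (x1 + x2)`.  With
`a = (1 - s/4)(x1-x2)`, `b = (s/2) e (x1+x2)`: `(a+b)² + 0.0572 b² ≥ 0.054 a² ≥ (1/50)(x1-x2)²`, and
`4 (1/2 - s/3) e² (x1²+x2²) ≥ 2 (1/2 - s/3) e² (x1+x2)² = 0.0572 e² (x1+x2)² ≥
0.0572 b² + (1/40) e² (x1+x2)²` (`b² = e² (x1+x2)²/2`). -/
def StSl : Prop :=
  ∀ p q x1 x2 : ℝ, 0 < p → 0 < q → p + q = 1 → 0 ≤ x1 → 0 ≤ x2 →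
    gl p q x1 x2 ^ 2 + (1 / 50 * (x1 - x2) ^ 2 + 1 / 40 * (p - 1 / 2) ^ 2 * (x1 + x2) ^ 2) ≤
      cst ^ 2 / 2 * (1 - p * q) * (x1 ^ 2 + x2 ^ 2)

/-- **Near** (no hypotheses).  The nearly balanced case.

Proof.  `X = x1 + x2`, `e = p - 1/2`.  `(x1-x2)² < X²/100`, so `0.45 X ≤ x_i ≤ 0.55 X`; `e² < 0.008`;
`mix² = p² x1² + q² x2²` is between `(p²+q²) (0.45 X)²` and `(p²+q²) (0.55 X)²`, and
`p² + q² = 1/2 + 2 e² ∈ [0.5, 0.516]`. -/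
def StNear : Prop :=
  ∀ p q x1 x2 : ℝ, 0 < p → 0 < q → p + q = 1 → 0 ≤ x1 → 0 ≤ x2 →
    1 / 50 * (x1 - x2) ^ 2 + 1 / 40 * (p - 1 / 2) ^ 2 * (x1 + x2) ^ 2 <
      1 / 5000 * (x1 + x2) ^ 2 →
    (p - 1 / 2) ^ 2 ≤ 1 / 100 ∧ 9 / 20 * (x1 + x2) ≤ x1 ∧ 9 / 20 * (x1 + x2) ≤ x2 ∧
    x1 ≤ 11 / 20 * (x1 + x2) ∧ x2 ≤ 11 / 20 * (x1 + x2) ∧
    3 / 10 * (x1 + x2) ≤ mix p q x1 x2 0 ∧ mix p q x1 x2 0 ≤ 99 / 250 * (x1 + x2)

/-- **Far** (from BB, Om, Sl).  The main inequality in the unbalanced case.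

Proof.  `X = x1 + x2`, `g = gl p q x1 x2`, `B = bd p q x1 x2`.  `0 ≤ g ≤ X` and `|B| ≤ 2 X` (BB:
`0 ≤ bb y ≤ 2 y`, `mix ≤ p x1 + q x2 ≤ X`).  So `(max 0 (g + eh B))² ≤ g² + 2 eh X (2X) + eh² (2X)²
≤ g² + 5 eh X²` and, by Sl and Om (`x1² + x2² ≤ X²`, `cst²/2 (1 - pq) ≤ 1.2`), the right side is
`≥ g² + X²/5000 - 1.2 ch X²`. -/
def StFar : Prop :=
  ∀ p q x1 x2 : ℝ, 0 < p → 0 < q → p + q = 1 → 0 ≤ x1 → 0 ≤ x2 →
    1 / 5000 * (x1 + x2) ^ 2 ≤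
      1 / 50 * (x1 - x2) ^ 2 + 1 / 40 * (p - 1 / 2) ^ 2 * (x1 + x2) ^ 2 →
    (max 0 (gl p q x1 x2 + eh * bd p q x1 x2)) ^ 2 ≤
      cst ^ 2 / 2 * (1 - p * q) * en p q x1 x2 0

/-- **N1** (from BB, Sl, Near).  The balanced case with `mix ≥ 1`.

Proof.  `X = x1+x2`, `m = mix`, `e = p - 1/2`.  By Near `m ≤ 0.396 X ≤ 0.88 x_i`, so `x1, x2 > 1`: all
`ww` vanish (`om = 0`), `bb = 1/·²`, and `X ≥ 2`.  The identity
`1/x1² + 1/x2² - 1/m² = (p x1² - q x2²)² / (x1² x2² m²)` (`m² = p² x1² + q² x2²`, `p + q = 1`) and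
`p x1² - q x2² = (x1² - x2²)/2 + e (x1² + x2²)`, `|·| ≤ |x1-x2| X/2 + |e| X²`, give
`0 ≤ B ≤ (X² (x1-x2)²/2 + 2 e² X⁴) / ((0.45 X)⁴ m²)`.  Also `B ≤ 3` (BB).  So
`2 eh g B + eh² B² ≤ 3 eh X B ≤ 3 eh (12.2 (x1-x2)² + 48.8 e² X²) X / (X² m²)` and `X m² ≥ 2`, so this
is at most `75 eh ((x1-x2)² + e² X²)`, below the slack of Sl. -/
def StN1 : Prop :=
  ∀ p q x1 x2 : ℝ, 0 < p → 0 < q → p + q = 1 → 0 ≤ x1 → 0 ≤ x2 →
    1 / 50 * (x1 - x2) ^ 2 + 1 / 40 * (p - 1 / 2) ^ 2 * (x1 + x2) ^ 2 <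
      1 / 5000 * (x1 + x2) ^ 2 →
    1 ≤ mix p q x1 x2 0 →
    (max 0 (gl p q x1 x2 + eh * bd p q x1 x2)) ^ 2 ≤
      cst ^ 2 / 2 * (1 - p * q) * en p q x1 x2 0

/-- **N2** (from BB, Sl, Near).  The balanced case with `mix < 1 ≤ x1, x2`.

Proof.  `m = mix = 1 - u`, `X ≥ 2`, `m ≥ 0.3 X ≥ 0.6`, `X ≤ 3.4`.  `ww x1 = ww x2 = 0`, so
`om = ch u²/(pq) ≥ 4 ch u²`, and `cst²/2 (1 - pq) ≥ 0.8`, so the right side is
`≥ g² + (1/50)(x1-x2)² + (1/40) e² X² + 3 ch u²`.  Put `B0 = 1/x1² + 1/x2² - 1/m² ≥ 0` (the identity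
of N1).  `bb m ≥ 1 + 2u - 100u²` (BB) and `1/m² - 1 - 2u = u² (3 - 2u)/(1-u)² ≤ 9 u²`, so
`B ≤ B0 + 109 u²`.  If `B ≤ 0` then `(max 0 (g + eh B))² ≤ g²`.  If `B > 0` then (`B ≤ 3`, `g ≤ X`)
`2 eh g B + eh² B² ≤ 3 eh X B ≤ 3 eh X B0 + 3 eh · 3.4 · 109 u²`; the first term as in N1 (now
`X m² ≥ 0.72`): at most `210 eh ((x1-x2)² + e² X²)`; the second is at most `3 ch u²`. -/
def StN2 : Prop :=
  ∀ p q x1 x2 : ℝ, 0 < p → 0 < q → p + q = 1 → 0 ≤ x1 → 0 ≤ x2 →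
    1 / 50 * (x1 - x2) ^ 2 + 1 / 40 * (p - 1 / 2) ^ 2 * (x1 + x2) ^ 2 <
      1 / 5000 * (x1 + x2) ^ 2 →
    mix p q x1 x2 0 < 1 → 1 ≤ x1 → 1 ≤ x2 →
    (max 0 (gl p q x1 x2 + eh * bd p q x1 x2)) ^ 2 ≤
      cst ^ 2 / 2 * (1 - p * q) * en p q x1 x2 0

/-- **N3** (from BB, Sl, Near).  The balanced case with `min x1 x2 < 1`.

Proof.  `m = mix ≤ 0.396 X ≤ 0.88 min x1 x2 < 0.88`, so `bb m = 0` (BB) and `B = bb x1 + bb x2 ≥ 0`.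
`ww` is antitone and `m ≤ x1, x2`, so `om ≥ 0`.  If `max x1 x2 ≤ 0.88` then `B = 0` and the claim
follows from Sl.  Otherwise `X ≥ 0.88/0.55 = 1.6`, `X ≤ 1/0.45 < 2.3`, `u = 1 - m ≥ 0.12` and
`x_i - m ≥ (0.45 - 0.396) X ≥ 0.08`, so
`ww m - ww x_i ≥ ch (u² - (max 0 (u - 0.08))²) ≥ ch · 0.08 · 0.12 ≥ 0.009 ch` and
`om ≥ 0.009 ch / (pq) ≥ 0.036 ch`, while `2 eh g B + eh² B² ≤ 2 eh · 2.3 · 3 + 9 eh² ≤ 14 eh` and
`cst²/2 (1 - pq) ≥ 0.8`. -/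
def StN3 : Prop :=
  ∀ p q x1 x2 : ℝ, 0 < p → 0 < q → p + q = 1 → 0 ≤ x1 → 0 ≤ x2 →
    1 / 50 * (x1 - x2) ^ 2 + 1 / 40 * (p - 1 / 2) ^ 2 * (x1 + x2) ^ 2 <
      1 / 5000 * (x1 + x2) ^ 2 →
    (x1 < 1 ∨ x2 < 1) →
    (max 0 (gl p q x1 x2 + eh * bd p q x1 x2)) ^ 2 ≤
      cst ^ 2 / 2 * (1 - p * q) * en p q x1 x2 0

/-- **Mon** (from BB).  The gain at a finer level, disjoint parts.

Proof.  `gn N p q x1 x2 0 = x1 + x2 - mix + eh bd p q x1 x2` with `mix = mix p q x1 x2 0`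
`≥ (p x1 + q x2)/√2` (`sqrt_add_ge`), so it is `≤ gl p q x1 x2 + eh bd p q x1 x2`.  From `(x1, x2)` to
`(y1, y2)` the linear form `gl` increases by at least `(1 - √2/2) ((y1-x1) + (y2-x2))` and `bd`
changes by at most `22 ((y1-x1) + (y2-x2)) + 22 |mix y - mix x|`, with
`|mix y - mix x| ≤ (y1-x1) + (y2-x2)` (norm in the plane), and `44 eh ≤ 1 - √2/2`. -/
def StMon : Prop :=
  ∀ N p q x1 x2 y1 y2 : ℝ, 0 < p → 0 < q → p + q = 1 → 0 ≤ x1 → 0 ≤ x2 → x1 ≤ y1 → x2 ≤ y2 →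
    gn N p q x1 x2 0 ≤ gl p q y1 y2 + eh * bd p q y1 y2

/-- **Cl** (from BB).  The gain of parts that meet.

Proof.  `bb N = 1/N²`.  `X = p y1 + q y2`, `m = mix p q y1 y2 k ≤ X`.  As `y1 + y2 - N = X - q(N-y1) - p(N-y2)`, the
claim is `eh (bb y1 + bb y2 - bb m - bb N) ≤ q (N - y1) + p (N - y2)`.  Say `p ≥ 1/2` (the other case
is symmetric).  (a) `m ≥ 1`: `bb m ≥ bb X` (BB), so the left side is
`≤ eh (22 |y1 - X| + 22 (N - y2))`, `|y1 - X| = q |y1 - y2| ≤ q (N-y1) + q (N-y2)`, and `1 ≤ 2p`.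
(b) `m < 1`: `p y1 ≤ m`, so `y1 ≤ 2` and `N - y1 ≥ √5 - 2 ≥ 0.236`;
`m - y1 ≤ X - y1 = q (y2 - y1) ≤ q (N - y1)`, `y1 - m ≤ y1 - p y1 = q y1 ≤ 2 q ≤ 9 q (N - y1)`, and
`N - y2 ≤ 2 p (N - y2)`. -/
def StCl : Prop :=
  ∀ N p q y1 y2 k : ℝ, 5 ≤ N ^ 2 → 0 ≤ N → 0 < p → 0 < q → p + q = 1 → 0 ≤ y1 → 0 ≤ y2 → y1 ≤ N →
    y2 ≤ N → 0 < k → k ≤ y1 * y2 →
    gn N p q y1 y2 k ≤ (p * y1 + q * y2) - mix p q y1 y2 k

/-- **Pair** (from BB, Om, Far, N1, N2, N3, Mon, Cl).  The inequality for two levels.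

Proof.  If `k = 0` then `k0 = 0`; both gains are `≤ gl p q y1 y2 + eh bd p q y1 y2` (Mon, twice), so the
product is at most `(max 0 (gl + eh bd))²`, and Far, N1, N2, N3 cover all cases.  If `k > 0`: as in
`pair_ineq` of `Helper77/ST/Ineq.lean` with `Y = p y1 + q y2`, `R = mix`, `η = y1 y2 - k`:
`gn ≤ Y - R` (Cl), `(Y - R) Y ≤ 2pqη`, `2pq (y1+y2) ≤ 2 (1-pq) Y`, and the gain at the finer level is
`≤ HH x1 + HH x2 ≤ (1 + 2 eh)(y1 + y2)`; so the product is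
`≤ (1 + 2 eh)(1-pq)(y1²+y2²-2k) ≤ cst²/2 (1-pq) (1 - ch)(y1²+y2²-2k)`, and Om. -/
def StPair : Prop :=
  ∀ N p q x1 x2 k0 y1 y2 k : ℝ, 5 ≤ N ^ 2 → 0 ≤ N → 0 < p → 0 < q → p + q = 1 → 0 ≤ k0 →
    0 ≤ x1 → 0 ≤ x2 → x1 ≤ y1 → x2 ≤ y2 → k0 ≤ k → y1 ≤ N → y2 ≤ N → k ≤ y1 * y2 →
    max (gn N p q x1 x2 k0) 0 * max (gn N p q y1 y2 k) 0 ≤
      cst ^ 2 / 2 * (1 - p * q) * en p q y1 y2 k

/-- **Merge** (from Pair).  The merge inequality.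

Proof.  Exactly as `merge_ineq` in `Helper77/ST/Ineq.lean` (`sum_sq_le`, AM-GM), with `gn`, `en`. -/
def StMerge : Prop :=
  ∀ (N : ℝ) (K : ℕ) (t : ℕ → ℝ) (p q s : ℝ) (y1 y2 k : ℕ → ℝ), 5 ≤ N ^ 2 → 0 ≤ N → t 0 = 0 →
    Monotone t → 0 < s → 0 < p → 0 < q → p + q = 1 → Monotone y1 → Monotone y2 → Monotone k →
    (∀ j, 0 ≤ y1 j) → (∀ j, 0 ≤ y2 j) → (∀ j, y1 j ≤ N) → (∀ j, y2 j ≤ N) →
    (∀ j, 0 ≤ k j) → (∀ j, k j ≤ y1 j * y2 j) →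
    2 / cst * ∑ j ∈ range K, (t (j + 1) - t j) * gn N p q (y1 j) (y2 j) (k j) ≤
      s * (1 - p * q) + 1 / (2 * s) *
        ∑ j ∈ range K, (t (j + 1) ^ 2 - t j ^ 2) * en p q (y1 j) (y2 j) (k j)

/-- **Net** (from BB, Dim, Merge).  Lower bound for networks in dimension `d`.

Proof.  Copy `Good`, ..., `Good.le` (`Helper77/ST/Good.lean`) and `Good'`, `contract`, `net_lower`
(`Helper77/ST/Net.lean`) with these changes.  `N = NN d` (`N² = 2d+1 ≥ 5`).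
`U' μ = ∑ l, τ l (1 - q l + ww (N √(q l)) / N²)`.  Then `U' ≤ V` by Dim:
`ww (N y) / N² ≤ max 0 (1 - N y)² / N² ≤ max 0 (1/N² - y²)` (`(1-z)² ≤ 1 - z²` for `0 ≤ z ≤ 1`,
`ch ≤ 1`).  In `Good` replace `U` by `U'` and the potential by
`∑ j, (t (j+1) - t j) * (ncl j B * HH N - HH (N √(q j μ μ))) / N`.  Leaf: `q = 1`, `ww N = 0` (`N ≥ 1`).
`extend` and `move` use only `U' ≤ V`.  `merge`: apply Merge to the levels `t / N`, the coordinates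
`N √(q j μ μ)`, `N √(q j ν ν)` and `k = N² q j μ ν`; the energy identity is
`U'(pμ + uν)/(pu) - U' μ/u - U' ν/p = ∑ τ en / N²` (`1/(pu) = 1/p + 1/u`).  `Good.le`: `HH (N y) ≤ HH N`
for `0 ≤ y ≤ 1` (`HH` is monotone, by the Lipschitz bound of BB and `22 eh ≤ 1`). -/
def StNet : Prop :=
  ∀ (d : ℕ), 2 ≤ d → ∀ (E : Type) [NormedAddCommGroup E] [InnerProductSpace ℝ E]
    [FiniteDimensional ℝ E], Module.finrank ℝ E ≤ d →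
    ∀ (ι : Type) [Fintype ι] [DecidableEq ι] [Nonempty ι] (a : ι → E) (L : Lev a) (V : Finset E)
      (l : ℝ), Net V l → (∀ x, a x ∈ V) →
    (HH (NN d) / NN d) * ∑ j ∈ range L.K, (L.t (j + 1) - L.t j) * ((L.ncl j univ : ℝ) - 1) ≤
      cst * l

/-- **Low** (from Net).  The lower bound.

Proof.  Copy `mstLen_le_measure` and `le_steinerRatioOf` of `Helper77/ST/Final.lean` with
`cst / (HH N / N)` in place of `cst`, for `E = EuclideanSpace ℝ (Fin d)`.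
`HH N / N = 1 + eh / N³` (`N ≥ 1`) and `N³ = (2d+1)^(3/2) ≤ (3d)^(3/2) ≤ 10 d^(3/2)`. -/
def StLow : Prop :=
  ∀ d : ℕ, 2 ≤ d → ENNReal.ofReal (√3 / (4 - √2) * (1 + eh / 10 * (d : ℝ) ^ (-(3 / 2) : ℝ))) ≤
    steinerRatio d

/-! ## Part C: the tree -/

/-- **Tree** (no hypotheses).  Trees along a chain of generators.

Proof.  `β j = D j / √3`, `A j = β j + ∑_{i < j} 2^(j-1-i) √3 D i`.  By induction on `j ≤ J`: for all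
`x : G` and `z : E` there is a closed connected `S` with `z ∈ S`, `v y ∈ S` for `y ∈ pts h j x`, and
`μH[1] S ≤ ofReal ((A j + ‖z - cenr v h j x‖² / β j) / 2)`.  `j = 0`: the segment from `z` to `v x`
(`2 ‖z - v x‖ ≤ β 0 + ‖z - v x‖²/β 0`).  Step: `m = cenr v h (j+1) x` is the midpoint of
`m1 = cenr v h j x`, `m2 = cenr v h j (x + h j)`; let `P = m + ((β j/2)/β (j+1)) • (z - m)`
(`β j / 2 ≤ β (j+1)`), `s = β (j+1) - β j/2`, and take the sets for `(x, P)` and `(x + h j, P)` and the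
segment `[P, z]`.  `‖P - m1‖² + ‖P - m2‖² = 2 ‖P - m‖² + ‖m1 - m2‖²/2`, `‖m1 - m2‖ ≤ D j`, and
`2 ‖P - z‖ ≤ s + ‖P - z‖²/s` (if `s = 0`, `P = z`); `‖P-m‖²/(β j/2) + ‖z-P‖²/s = ‖z-m‖²/β (j+1)`,
`A (j+1) = 2 A j + (D j)²/(2 β j) + s`.  At the end `z = cenr v h J x`.
(`isClosed_seg`, `isConnected_seg`, `hausdorffMeasure_segment` as in `Helper77/ST/Upper.lean`.) -/
def StTree : Prop :=
  ∀ (E G : Type) [NormedAddCommGroup E] [InnerProductSpace ℝ E] [MeasurableSpace E] [BorelSpace E]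
    [AddCommGroup G] (v : G → E) (h : ℕ → G) (D : ℕ → ℝ) (J : ℕ) (x : G),
    (∀ j, 0 < D j) → (∀ j, D j ≤ 2 * D (j + 1)) →
    (∀ j < J, ∀ y, ‖cenr v h j y - cenr v h j (y + h j)‖ ≤ D j) →
    ∃ S : Set E, IsClosed S ∧ IsConnected S ∧ (∀ y ∈ pts h J x, v y ∈ S) ∧
      μH[1] S ≤ ENNReal.ofReal (treeLen D J)

/-- **Cen** (no hypotheses).  Distances of centroids.

Proof.  `cenr v h j x = 2^(-j) ∑_{S ⊆ range j} v (x + ∑_{i ∈ S} h i)` (induction).  For two families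
`b, c` of `m` points, `‖m⁻¹ ∑ b - m⁻¹ ∑ c‖² = m⁻² (∑ ‖b_i - c_k‖² - (1/2) ∑ ‖b_i - b_k‖² -
(1/2) ∑ ‖c_i - c_k‖²)`.  Here `m = 2^j`, `b_S = v (x + ∑_S h)`, `c_S = v (x + h j + ∑_S h)`.  As
`x + x = 0` in `G`, `∑_S h + ∑_T h = ∑_{S ∆ T} h`; so `‖b_S - c_T‖² ≤ 1 + Δ [iso (h j + ∑_{S ∆ T} h)]`
and `∑_{S, T} [iso (h j + ∑_{S ∆ T} h)] = 2^j · #`; and `‖b_S - b_T‖² ≥ 1` for `S ≠ T` (injectivity),
the same for `c`.  Total: `4^(-j) (4^j + Δ 2^j # - (4^j - 2^j)) = 2^(-j) (1 + Δ #)`. -/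
def StCen : Prop :=
  ∀ (E G : Type) [NormedAddCommGroup E] [InnerProductSpace ℝ E] [AddCommGroup G] [DecidableEq G]
    (iso : G → Prop) [DecidablePred iso] (v : G → E) (h : ℕ → G) (Δ : ℝ) (j : ℕ), 0 ≤ Δ →
    (∀ x : G, x + x = 0) → (∀ x y, x ≠ y → 1 ≤ ‖v x - v y‖ ^ 2) →
    (∀ x y, ¬ iso (x + y) → ‖v x - v y‖ ^ 2 ≤ 1) → (∀ x y, ‖v x - v y‖ ^ 2 ≤ 1 + Δ) →
    (∀ S T : Finset ℕ, S ⊆ range j → T ⊆ range j → ∑ i ∈ S, h i = ∑ i ∈ T, h i → S = T) →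
    ∀ x, ‖cenr v h j x - cenr v h j (x + h j)‖ ^ 2 ≤
      (1 / 2) ^ j * (1 + Δ * ((range j).powerset.filter fun S => iso (h j + ∑ i ∈ S, h i)).card)

/-! ## Part D: the elliptic quadric -/

/-- **Fld** (no hypotheses).  Finite fields of characteristic two.

Proof.  `x ↦ x² + x` is additive with kernel `{0, 1}`, so not injective, so not surjective: take `δ`
outside the image (`-δ = δ`).  `F` is a nonzero vector space over `ZMod 2`: take a nonzero linear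
functional `φ` and `ψ x = (-1)^(φ x)`; `∑ ψ = 0` by translating by an element with `φ = 1`, and
`x ↦ c x` is a bijection for `c ≠ 0`. -/
def StFld : Prop :=
  ∀ (F : Type) [Field F] [Fintype F] [DecidableEq F] [CharP F 2],
    (∃ δ : F, ∀ x : F, x ^ 2 + x + δ ≠ 0) ∧
    (∃ ψ : F → ℝ, (∀ x y, ψ (x + y) = ψ x * ψ y) ∧ (∀ x, ψ x = 1 ∨ ψ x = -1) ∧
      (∀ c : F, c ≠ 0 → ∑ x, ψ (c * x) = 0))

/-- **Gau** (no hypotheses).  The Gauss sum of the quadratic form.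

Proof.  `q = card F`.  `∑_{t, t'} ψ (s t t') = q` (`t = 0` gives `q`, other `t` give `0`).
`∑_{u, v} ψ (s (u² + u v + δ v²))`: `v = 0` gives `∑_u ψ (s u²) = 0` (squaring is a bijection,
`ψ(s u²)` with `s ≠ 0`); for `v ≠ 0` put `u = v w`: `ψ (s v² (w² + w + δ))`; `s v²` runs over the
nonzero elements, so the sum is `∑_w ∑_{r ≠ 0} ψ (r (w² + w + δ)) = ∑_w (0 - 1) = - q`. -/
def StGau : Prop :=
  ∀ (F : Type) [Field F] [Fintype F] [DecidableEq F] [CharP F 2] (δ : F) (ψ : F → ℝ),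
    (∀ x : F, x ^ 2 + x + δ ≠ 0) → (∀ x y, ψ (x + y) = ψ x * ψ y) →
    (∀ x, ψ x = 1 ∨ ψ x = -1) → (∀ c : F, c ≠ 0 → ∑ x, ψ (c * x) = 0) →
    ∀ s : F, s ≠ 0 → ∑ a : F × F × F × F, ψ (s * Qf δ a) = - (Fintype.card F : ℝ) ^ 2

/-- **Quad** (from Gau).  Exponential sums over the quadric.

Proof.  `q [Q a = 0] = ∑_s ψ (s Q a)`.  So `q` times the sum is `∑_a ψ (B a z)` (which is `q⁴ [z = 0]`:
`B` is nondegenerate) `+ ∑_{s ≠ 0} ∑_a ψ (s Q a + B a z)`; `s Q (a + s⁻¹ z) = s Q a + B a z + s⁻¹ Q z`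
(`Q (a+b) = Q a + Q b + B a b`, `B` bilinear, `Q (c b) = c² Q b`), so (`-1 = 1`) the inner sum is
`ψ (s⁻¹ Q z) ∑_a ψ (s Q a) = - q² ψ (s⁻¹ Q z)` (Gau), and `∑_{s ≠ 0} ψ (s⁻¹ c)` is `q - 1` for `c = 0`
and `-1` otherwise. -/
def StQuad : Prop :=
  ∀ (F : Type) [Field F] [Fintype F] [DecidableEq F] [CharP F 2] (δ : F) (ψ : F → ℝ),
    (∀ x : F, x ^ 2 + x + δ ≠ 0) → (∀ x y, ψ (x + y) = ψ x * ψ y) →
    (∀ x, ψ x = 1 ∨ ψ x = -1) → (∀ c : F, c ≠ 0 → ∑ x, ψ (c * x) = 0) →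
    ∀ z : F × F × F × F,
    (∑ a ∈ univ.filter (fun a : F × F × F × F => Qf δ a = 0), ψ (Bf a z)) =
      (if z = 0 then (Fintype.card F : ℝ) ^ 3 else 0) -
        (if Qf δ z = 0 then (Fintype.card F : ℝ) ^ 2 - Fintype.card F
          else - (Fintype.card F : ℝ))

/-- **Code** (from Fld, Quad).  The code.

Proof.  `q = 2^k`.  `Z = {a ≠ 0 : Q a = 0}`; Quad at `z = 0`: `#Z = q³ - q² + q - 1 = (q²+1)(q-1)
≤ q³ = 8^k`.  Choose `δ`, `ψ` by Fld and an injection of `Z` into `Fin (8^k)`, so orthonormal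
`e' a`, `a ∈ Z`.  `v x = ∑_{a ∈ Z} c ψ (B a x) • e' a`, `c² = (q²+1)/(2 q² #Z)`.  Then
`‖v x - v y‖² = 2 c² (#Z - ∑_{a ∈ Z} ψ (B a (x+y)))`, and by Quad for `z = x + y ≠ 0` (`= x - y`) the
sum over `Z` is `q - 1` if `Q z ≠ 0` and `- (q² - q + 1)` if `Q z = 0`.  So the square of the distance
is `2c² (#Z - (q-1)) = 2 c² q² (q-1) = 1` if `Q z ≠ 0` and `2c² (#Z + q² - q + 1) = 2 c² q³ =
q/(q-1) ≤ 1 + 2/q` if `Q z = 0`. -/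
def StCode : Prop :=
  ∀ (k : ℕ), 1 ≤ k → ∀ (F : Type) [Field F] [Fintype F] [DecidableEq F] [CharP F 2],
    Fintype.card F = 2 ^ k → ∃ δ : F, (∀ x : F, x ^ 2 + x + δ ≠ 0) ∧
    ∀ (E : Type) [NormedAddCommGroup E] [InnerProductSpace ℝ E] (e : Fin (8 ^ k) → E),
      Orthonormal ℝ e → ∃ v : F × F × F × F → E,
        (∀ x y, x ≠ y → 1 ≤ ‖v x - v y‖ ^ 2) ∧
        (∀ x y, Qf δ (x + y) ≠ 0 → ‖v x - v y‖ ^ 2 ≤ 1) ∧
        (∀ x y, ‖v x - v y‖ ^ 2 ≤ 1 + 2 / 2 ^ k)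

/-- **Bas** (no hypotheses).  A basis of `F` over the field with two elements.

Proof.  `F` is a vector space over `ZMod 2` of dimension `k` (card); `∑_{i ∈ S} e i` is the linear
combination with coefficients the indicator of `S`. -/
def StBas : Prop :=
  ∀ (k : ℕ) (F : Type) [Field F] [Fintype F] [DecidableEq F] [CharP F 2],
    Fintype.card F = 2 ^ k → ∃ e : ℕ → F,
      (∀ S T : Finset ℕ, S ⊆ range k → T ⊆ range k → ∑ i ∈ S, e i = ∑ i ∈ T, e i → S = T) ∧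
      (∀ x : F, ∃ S : Finset ℕ, S ⊆ range k ∧ ∑ i ∈ S, e i = x)

/-- **CntA** (no hypotheses).  Injectivity and surjectivity of the chain in `F⁴`.

Proof.  `∑_{i ∈ S} sh k e i` has the four coordinates `∑ e i` over the four translated parts of `S`
(`i ∈ S` in `[0,k)`, `[k,2k)`, `[2k,3k)`, `[3k,4k)`, shifted to `[0, k)`).  `pts h J x` is the set of
all `x + ∑_{i ∈ S} h i`, `S ⊆ range J` (induction). -/
def StCntA : Prop :=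
  ∀ (k : ℕ) (F : Type) [Field F] [Fintype F] [DecidableEq F] [CharP F 2] (e : ℕ → F),
    (∀ S T : Finset ℕ, S ⊆ range k → T ⊆ range k → ∑ i ∈ S, e i = ∑ i ∈ T, e i → S = T) →
    (∀ x : F, ∃ S : Finset ℕ, S ⊆ range k ∧ ∑ i ∈ S, e i = x) →
    (∀ S T : Finset ℕ, S ⊆ range (4 * k) → T ⊆ range (4 * k) →
      ∑ i ∈ S, sh k e i = ∑ i ∈ T, sh k e i → S = T) ∧
    (∀ x : F × F × F × F, x ∈ pts (sh k e) (4 * k) 0)

/-- **CntB** (no hypotheses).  Counting zeros of the form in the layers of the chain.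

Proof.  For `j < 2k` the element `z = sh j + ∑_S sh` is `(u, v, 0, 0) ≠ 0` (its coordinate `j` is
`e (·)` plus other basis elements: nonzero by injectivity), and `u² + u v + δ v² ≠ 0` for
`(u, v) ≠ 0` (if `v ≠ 0` it is `v² (w² + w + δ)`, `w = u/v`).  For `2k ≤ j < 3k`,
`z = (u, v, t, 0)` and `Q z = u² + uv + δv² = 0` only if `u = v = 0`, i.e. `S ∩ range (2k) = ∅`:
`S ⊆ [2k, j)`.  For `3k ≤ j < 4k`, `z = (u, v, t, t')` with `t' ≠ 0`, and `Q z = 0` iff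
`t = (u² + uv + δv²)/t'`: `S ∩ [2k, 3k)` is determined by the rest of `S`, for which there are
`4^k · 2^(j-3k)` choices. -/
def StCntB : Prop :=
  ∀ (k : ℕ) (F : Type) [Field F] [Fintype F] [DecidableEq F] [CharP F 2] (δ : F) (e : ℕ → F),
    (∀ x : F, x ^ 2 + x + δ ≠ 0) →
    (∀ S T : Finset ℕ, S ⊆ range k → T ⊆ range k → ∑ i ∈ S, e i = ∑ i ∈ T, e i → S = T) →
    (∀ j, j < 2 * k → ((range j).powerset.filter
      fun S => Qf δ (sh k e j + ∑ i ∈ S, sh k e i) = 0).card = 0) ∧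
    (∀ j, 2 * k ≤ j → j < 3 * k → ((range j).powerset.filter
      fun S => Qf δ (sh k e j + ∑ i ∈ S, sh k e i) = 0).card ≤ 2 ^ (j - 2 * k)) ∧
    (∀ j, 3 * k ≤ j → j < 4 * k → ((range j).powerset.filter
      fun S => Qf δ (sh k e j + ∑ i ∈ S, sh k e i) = 0).card ≤ 4 ^ k * 2 ^ (j - 3 * k))

/-! ## Part E: the upper bound -/

/-- **DDp** (no hypotheses).  Elementary facts on `DD`.

Proof.  Clear inside the three ranges.  At `j + 1 = 2k`: `√(1/2)^j ≤ 2 √(1/2)^(j+1)`.  At `j + 1 = 3k`: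
`√(1/2)^(3k-1) ≤ 2^(-k)`, `√2^(3k-1)/8^k ≤ 2^(-k)` (`k ≥ 1`).  The last three claims:
`(1/2)^j = (√(1/2)^j)²`; `(a + b)² ≥ a² + 2ab` with `a = √(1/2)^j`, `b = √2^j/8^k`, `ab = 1/8^k`, and
`(1/2)^j (2/2^k) 2^(j-2k) = 2/8^k`; `(1/2)^j ≤ 1/8^k ≤ 1/4^k`, `(1/2)^j (2/2^k) 4^k 2^(j-3k) =
2/4^k`. -/
def StDDp : Prop :=
  ∀ k : ℕ, 1 ≤ k → (∀ j, 0 < DD k j) ∧ (∀ j, DD k j ≤ 2 * DD k (j + 1)) ∧
    (∀ j, j < 2 * k → (1 / 2 : ℝ) ^ j ≤ DD k j ^ 2) ∧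
    (∀ j, 2 * k ≤ j → j < 3 * k →
      (1 / 2 : ℝ) ^ j * (1 + 2 / 2 ^ k * 2 ^ (j - 2 * k)) ≤ DD k j ^ 2) ∧
    (∀ j, 3 * k ≤ j → j < 4 * k →
      (1 / 2 : ℝ) ^ j * (1 + 2 / 2 ^ k * (4 ^ k * 2 ^ (j - 3 * k))) ≤ DD k j ^ 2)

/-- **Num** (no hypotheses).  The length.

Proof.  `ρ = √3/(4-√2)`.  `∑_{j<3k} 2^(4k-1-j) √3 √(1/2)^j ≤ 16^k (√3/2) ∑_j (√(1/2)/2)^j =
16^k (√3/2)/(1 - √2/4) = 2 ρ 16^k`.  `∑_{2k ≤ j < 3k} 2^(4k-1-j) √3 √2^j/8^k = (√3/2) 2^k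
∑_{j ≥ 2k} √(1/2)^j ≤ (√3/2)/(1 - √(1/2)) ≤ 2.97`.  `∑_{3k ≤ j < 4k} 2^(4k-1-j) √3 (2/2^k) ≤ 2 √3`.
`D (4k)/√3 ≤ 0.58`.  Total `≤ 2 ρ 16^k + 7.1`. -/
def StNum : Prop :=
  ∀ k : ℕ, 1 ≤ k → treeLen (DD k) (4 * k) ≤ √3 / (4 - √2) * 16 ^ k + 4

/-- **Rat** (from Tree, Cen, Code, Bas, CntA, CntB, DDp, Num).  The ratio in dimension `8^k`.

Proof.  `F = GaloisField 2 k`, the standard basis of `EuclideanSpace ℝ (Fin d)` restricted to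
`Fin (8^k)`, `v` from Code, `e` from Bas, `h = sh k e`, `iso z = (Q z = 0)`, `Δ = 2/2^k`; Cen, CntB,
DDp give `‖cenr v h j y - cenr v h j (y + h j)‖ ≤ DD k j` for `j < 4k`.  `A = univ.image v`, of card
`16^k = n`; Tree (with `x = 0`, CntA) and Num: `steinerLen A ≤ ofReal (ρ n + 4)`, and
`n - 1 ≤ mstLen A` (`le_mstLen`, distances `≥ 1`).
`(ρ n + 4)/(n - 1) ≤ ρ (1 + 8/n)` for `n ≥ 16` (`4/ρ ≤ 6`). -/
def StRat : Prop :=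
  ∀ k d : ℕ, 1 ≤ k → 8 ^ k ≤ d →
    steinerRatio d ≤ ENNReal.ofReal (√3 / (4 - √2) * (1 + 8 / 16 ^ k))

/-- **Upp** (from Rat).  The upper bound.

Proof.  `d < 8`: `steinerRatio d ≤ 1` (two points at distance one, the segment between them) and
`√3/(4-√2) · 128 · 8^(-4/3) ≥ 1`.  `d ≥ 8`: `k = Nat.log 8 d ≥ 1`, `8^k ≤ d < 8^(k+1)`, so
`d^(4/3) ≤ 16^(k+1)` and `8/16^k ≤ 128 d^(-4/3)`. -/
def StUpp : Prop :=
  ∀ d : ℕ, 1 ≤ d →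
    steinerRatio d ≤ ENNReal.ofReal (√3 / (4 - √2) * (1 + 128 * (d : ℝ) ^ (-(4 / 3) : ℝ)))

end Pool.Agent.Helper19.SR
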